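import Pool.Agent.FBM.StmtH

/-!
# ADM: maps with the limit conditions are admissible for all configurations
-/

open MeasureTheory Set Filter Topology
open scoped Real

namespace Pool.Agent.FBM

namespace HADM

theorem ZZ_sub (m : ℕ) (a b : Fin m → ℝ) (i : Fin 3) : ZZ m a b i ⊆ side i := by
  fin_cases i
  · exact sdiff_subset
  · exact sdiff_subset
  · exact subset_rfl

/-- the corner points -/
def cor : Set ℝ := {t | ∃ n : ℤ, t + n * (2 * π) = 0 ∨ t + n * (2 * π) = 2 * π / 3 ∨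
  t + n * (2 * π) = -(2 * π / 3)}

theorem cor_countable : cor.Countable := by
  have h : cor ⊆ ⋃ n : ℤ, ({0 - n * (2 * π), 2 * π / 3 - n * (2 * π),
      -(2 * π / 3) - n * (2 * π)} : Set ℝ) := by
    rintro t ⟨n, hn⟩
    rw [mem_iUnion]
    refine ⟨n, ?_⟩
    simp only [mem_insert_iff, mem_singleton_iff]
    rcases hn with hn | hn | hn
    · left
      linarith
    · right
      left
      linarith
    · right
      right
      linarith
  refine (countable_iUnion fun n => ?_).mono h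
  exact (Set.toFinite _).countable

theorem ae_cor : ∀ᵐ t ∂cm, t ∉ cor := by
  have h : ∀ᵐ t : ℝ, t ∉ cor := by
    rw [ae_iff]
    simp only [not_not]
    exact cor_countable.measure_zero volume
  exact ae_restrict_of_ae h

end HADM

open HADM in
/-- ADM: maps with the limit conditions are admissible for all configurations. -/
theorem t_H_adm : Stmt_H_adm := by
  intro y hy m p hp
  refine ⟨fun i t ht => hy.zeroE i t (ZZ_sub m p.1 p.2 i ht), ?_⟩
  have h1 : ∀ᵐ t ∂cm, t ∈ side 0 ∪ side 1 → ∑ i, y i t ^ 2 = 1 := hy.adm.one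
  filter_upwards [h1, ae_cor] with t ht hc hH
  apply ht
  obtain ⟨n, hn⟩ : ∃ n : ℤ, t + n * (2 * π) ∈ ⋃ k, Icc (p.1 k) (p.2 k) := hH
  obtain ⟨k, hk⟩ := mem_iUnion.1 hn
  obtain ⟨ha, -, hb⟩ := hp k
  have hx1 : -(2 * π / 3) ≤ t + n * (2 * π) := ha.trans hk.1
  have hx2 : t + n * (2 * π) ≤ 2 * π / 3 := hk.2.trans hb
  rcases lt_trichotomy (t + n * (2 * π)) 0 with h | h | h
  · right
    refine ⟨n, lt_of_le_of_ne hx1 fun he => hc ⟨n, Or.inr (Or.inr he.symm)⟩, h⟩
  · exact absurd ⟨n, Or.inl h⟩ hc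
  · left
    exact ⟨n, h, lt_of_le_of_ne hx2 fun he => hc ⟨n, Or.inr (Or.inl he)⟩⟩

end Pool.Agent.FBM
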