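import Pool.Agent.FBM.StmtH

/-!
# AGR: the change of the angle on a circular arc
-/

open MeasureTheory Set Filter Topology
open scoped Real

namespace Pool.Agent.FBM

namespace HAGR

theorem norm_ci (t : ℝ) : ‖ci t‖ = 1 := by
  rw [ci]
  exact Complex.norm_exp_ofReal_mul_I t

theorem mem_ball {r : ℝ} (h0 : 0 ≤ r) (h1 : r < 1) (t : ℝ) :
    (r : ℂ) * ci t ∈ Metric.ball (0 : ℂ) 1 := by
  rw [mem_ball_zero_iff, norm_mul, norm_ci, mul_one, Complex.norm_real, Real.norm_eq_abs,
    abs_of_nonneg h0]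
  exact h1

theorem continuous_ci : Continuous ci := by
  unfold ci
  fun_prop

theorem hasDerivAt_ci (r t : ℝ) :
    HasDerivAt (fun s : ℝ => (r : ℂ) * ci s) (Complex.I * ((r : ℂ) * ci t)) t := by
  have h1 : HasDerivAt (fun s : ℝ => ((s : ℝ) : ℂ) * Complex.I) (1 * Complex.I) t :=
    (Complex.ofRealCLM.hasDerivAt (x := t)).mul_const Complex.I
  have h2 := (h1.cexp).const_mul (r : ℂ)
  have h3 : (r : ℂ) * (Complex.exp ((t : ℂ) * Complex.I) * (1 * Complex.I)) =
      Complex.I * ((r : ℂ) * ci t) := by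
    rw [ci]
    ring
  rw [h3] at h2
  exact h2

theorem hasDerivAt_re {F : ℂ → ℂ} (hF : DifferentiableOn ℂ F (Metric.ball 0 1)) {r : ℝ}
    (h0 : 0 ≤ r) (h1 : r < 1) (t : ℝ) :
    HasDerivAt (fun s : ℝ => (F (r * ci s)).re)
      ((Complex.I * (r * ci t) * deriv F (r * ci t)).re) t := by
  have h2 : HasDerivAt F (deriv F (r * ci t)) (r * ci t) :=
    (hF.differentiableAt (Metric.isOpen_ball.mem_nhds (mem_ball h0 h1 t))).hasDerivAt
  have h3 := HasDerivAt.comp_of_eq t h2 (hasDerivAt_ci r t) rfl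
  have h4 := Complex.reCLM.hasFDerivAt.comp_hasDerivAt t h3
  rw [mul_comm (deriv F (r * ci t))] at h4
  exact h4

theorem continuous_deriv {F : ℂ → ℂ} (hF : DifferentiableOn ℂ F (Metric.ball 0 1)) {r : ℝ}
    (h0 : 0 ≤ r) (h1 : r < 1) : Continuous fun t : ℝ => deriv F (r * ci t) :=
  (hF.deriv Metric.isOpen_ball).continuousOn.comp_continuous
    (continuous_const.mul continuous_ci) (mem_ball h0 h1)

theorem continuous_val {F : ℂ → ℂ} (hF : DifferentiableOn ℂ F (Metric.ball 0 1)) {r : ℝ}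
    (h0 : 0 ≤ r) (h1 : r < 1) : Continuous fun t : ℝ => F (r * ci t) :=
  hF.continuousOn.comp_continuous (continuous_const.mul continuous_ci) (mem_ball h0 h1)

theorem im_div (a b c d : ℝ) :
    (((a : ℂ) + (b : ℂ) * Complex.I) / ((c : ℂ) + (d : ℂ) * Complex.I)).im =
      (c * b - d * a) / (c ^ 2 + d ^ 2) := by
  rw [Complex.div_im]
  have h1 : Complex.normSq ((c : ℂ) + (d : ℂ) * Complex.I) = c ^ 2 + d ^ 2 := by
    rw [Complex.normSq_add_mul_I]
  have h2 : ((a : ℂ) + (b : ℂ) * Complex.I).im = b := by simp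
  have h3 : ((a : ℂ) + (b : ℂ) * Complex.I).re = a := by simp
  have h4 : ((c : ℂ) + (d : ℂ) * Complex.I).im = d := by simp
  have h5 : ((c : ℂ) + (d : ℂ) * Complex.I).re = c := by simp
  rw [h1, h2, h3, h4, h5]
  ring

end HAGR

theorem t_H_agr : Stmt_H_agr := by
  intro F0 F1 hF0 hF1 hpos r a b hr0 hr1
  have hb := HAGR.mem_ball hr0 hr1
  have hx0 : ∀ t : ℝ, 0 < (F0 (r * ci t)).re := fun t => hpos _ (mem_ball_zero_iff.1 (hb t))
  have hden : ∀ t : ℝ, (0 : ℝ) ^ 2 + rs F0 F1 (r * ci t) ≠ 0 := by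
    intro t
    rw [rs]
    have := hx0 t
    positivity
  have hcont : Continuous fun t : ℝ => om 0 F0 F1 r t := by
    have c0 := HAGR.continuous_val hF0 hr0 hr1
    have c1 := HAGR.continuous_val hF1 hr0 hr1
    have d0 := HAGR.continuous_deriv hF0 hr0 hr1
    have d1 := HAGR.continuous_deriv hF1 hr0 hr1
    have cc : Continuous fun t : ℝ => Complex.I * ((r : ℂ) * ci t) :=
      continuous_const.mul (continuous_const.mul HAGR.continuous_ci)
    have r0 := Complex.continuous_re.comp c0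
    have r1 := Complex.continuous_re.comp c1
    have e0 := Complex.continuous_re.comp (cc.mul d0)
    have e1 := Complex.continuous_re.comp (cc.mul d1)
    refine Continuous.div ?_ ?_ hden
    · exact continuous_const.mul ((r0.mul e1).sub (r1.mul e0))
    · exact continuous_const.add ((r0.pow 2).add (r1.pow 2))
  have hder : ∀ t ∈ uIcc a b, HasDerivAt (fun s : ℝ => 2 * Complex.arg
      (((F0 (r * ci s)).re : ℂ) + ((F1 (r * ci s)).re : ℂ) * Complex.I)) (om 0 F0 F1 r t) t := by
    intro t _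
    have h0 := (HAGR.hasDerivAt_re hF0 hr0 hr1 t).ofReal_comp
    have h1 := (HAGR.hasDerivAt_re hF1 hr0 hr1 t).ofReal_comp
    have hw := h0.add (h1.mul_const Complex.I)
    have hs : ((F0 (r * ci t)).re : ℂ) + ((F1 (r * ci t)).re : ℂ) * Complex.I ∈
        Complex.slitPlane := by
      left
      have := hx0 t
      simpa using this
    have hl := hw.clog_real hs
    have hi := (Complex.imCLM.hasFDerivAt.comp_hasDerivAt t hl).const_mul (2 : ℝ)
    have hfun : (fun s : ℝ => 2 * Complex.arg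
        (((F0 (r * ci s)).re : ℂ) + ((F1 (r * ci s)).re : ℂ) * Complex.I)) =
        fun s : ℝ => 2 * (Complex.log
        (((F0 (r * ci s)).re : ℂ) + ((F1 (r * ci s)).re : ℂ) * Complex.I)).im := by
      funext s
      rw [Complex.log_im]
    rw [hfun]
    refine HasDerivAt.congr_deriv (f := fun s : ℝ => 2 * (Complex.log
        (((F0 (r * ci s)).re : ℂ) + ((F1 (r * ci s)).re : ℂ) * Complex.I)).im) hi ?_
    change 2 * (((((Complex.I * (r * ci t) * deriv F0 (r * ci t)).re : ℝ) : ℂ) +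
      (((Complex.I * (r * ci t) * deriv F1 (r * ci t)).re : ℝ) : ℂ) * Complex.I) /
      (((F0 (r * ci t)).re : ℂ) + ((F1 (r * ci t)).re : ℂ) * Complex.I)).im = _
    rw [HAGR.im_div, om, rs]
    rw [zero_pow two_ne_zero, zero_add, mul_div_assoc]
  rw [intervalIntegral.integral_eq_sub_of_hasDerivAt hder (hcont.intervalIntegrable a b), mul_sub]

end Pool.Agent.FBM
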