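import Pool.Agent.FBM.StmtH

/-!
# Module FBM_H_ARG: change of the angle along side 2
-/

open MeasureTheory Set Filter Topology
open scoped Real

namespace Pool.Agent.FBM.HARG

theorem ci_norm (t : ℝ) : ‖ci t‖ = 1 := Complex.norm_exp_ofReal_mul_I t

theorem ci_cont : Continuous ci := by
  unfold ci
  fun_prop

theorem ci_re (t : ℝ) : (ci t).re = Real.cos t := Complex.exp_ofReal_mul_I_re t

theorem norm_rci {r : ℝ} (hr : 0 ≤ r) (t : ℝ) : ‖(r : ℂ) * ci t‖ = r := by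
  rw [norm_mul, ci_norm, mul_one, Complex.norm_real, Real.norm_of_nonneg hr]

/-- elementary estimate of quotients -/
theorem frac_lip {C ρ η x x' D D' : ℝ} (hρ : 0 < ρ) (hC : 0 ≤ C) (hη : 0 ≤ η) (hx : |x| ≤ C)
    (hD : ρ ^ 2 / 2 ≤ D) (hD' : ρ ^ 2 / 2 ≤ D') (hDD : |D - D'| ≤ 4 * C * η)
    (hDC : D ≤ 2 * C ^ 2) (hxx : |x - x'| ≤ η) :
    |2 * x / (0 ^ 2 + D) - 2 * x' / (0 ^ 2 + D')| ≤ 48 * C ^ 2 * η / ρ ^ 4 := by
  have hρ2 : 0 < ρ ^ 2 / 2 := by positivity
  have hDp : 0 < D := lt_of_lt_of_le hρ2 hD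
  have hDp' : 0 < D' := lt_of_lt_of_le hρ2 hD'
  have e : 2 * x / (0 ^ 2 + D) - 2 * x' / (0 ^ 2 + D') =
      2 * (-(x * (D - D')) + (x - x') * D) / (D * D') := by
    have h1 : (0 : ℝ) ^ 2 + D = D := by ring
    have h2 : (0 : ℝ) ^ 2 + D' = D' := by ring
    rw [h1, h2]
    field_simp
    ring
  rw [e, abs_div, abs_mul, abs_of_pos (by norm_num : (0 : ℝ) < 2), abs_of_pos (mul_pos hDp hDp')]
  have h3 : |-(x * (D - D')) + (x - x') * D| ≤ 6 * C ^ 2 * η := by
    calc |-(x * (D - D')) + (x - x') * D| ≤ |-(x * (D - D'))| + |(x - x') * D| := abs_add_le _ _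
      _ = |x| * |D - D'| + |x - x'| * D := by
          rw [abs_neg, abs_mul, abs_mul, abs_of_pos hDp]
      _ ≤ C * (4 * C * η) + η * (2 * C ^ 2) := by
          refine add_le_add (mul_le_mul hx hDD (abs_nonneg _) hC)
            (mul_le_mul hxx hDC hDp.le hη)
      _ = 6 * C ^ 2 * η := by ring
  have h4 : ρ ^ 4 / 4 ≤ D * D' := by
    have := mul_le_mul hD hD' hρ2.le hDp.le
    calc ρ ^ 4 / 4 = ρ ^ 2 / 2 * (ρ ^ 2 / 2) := by ring
      _ ≤ D * D' := this
  have h5 : 0 < ρ ^ 4 / 4 := by positivity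
  calc 2 * |-(x * (D - D')) + (x - x') * D| / (D * D') ≤ 2 * (6 * C ^ 2 * η) / (ρ ^ 4 / 4) := by
        refine div_le_div₀ (by positivity) (by linarith) h5 h4
    _ = 48 * C ^ 2 * η / ρ ^ 4 := by
        field_simp
        ring

/-- integrals over the arc of side 2 are bounded by integrals over a period -/
theorem arc_le {g : ℝ → ℝ} (hg0 : ∀ t, 0 ≤ g t) (hgp : Function.Periodic g (2 * π))
    (hi : Integrable g cm) :
    ∫ t in Ioc (2 * π / 3) (4 * π / 3), g t ≤ ∫ t, g t ∂cm := by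
  have hπ := Real.pi_pos
  have e1 : ∫ t, g t ∂cm = ∫ t in (-π)..(-π + 2 * π), g t := by
    rw [intervalIntegral.integral_of_le (by linarith)]
    unfold cm
    congr 3
    ring
  have e2 : ∫ t in (-π)..(-π + 2 * π), g t = ∫ t in (2 * π / 3)..(2 * π / 3 + 2 * π), g t :=
    hgp.intervalIntegral_add_eq _ _
  have hii : ∀ a c : ℝ, IntervalIntegrable g volume a c := by
    have : IntervalIntegrable g volume (-π) (-π + 2 * π) := by
      rw [intervalIntegrable_iff_integrableOn_Ioc_of_le (by linarith)]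
      unfold cm at hi
      have e : -π + 2 * π = π := by ring
      rw [e]
      exact hi
    exact hgp.intervalIntegrable (by linarith) this
  rw [e1, e2, intervalIntegral.integral_of_le (by linarith)]
  refine setIntegral_mono_set ?_ (Eventually.of_forall fun t => hg0 t)
    (LE.le.eventuallyLE (Ioc_subset_Ioc_right (by linarith)))
  exact (intervalIntegrable_iff_integrableOn_Ioc_of_le (by linarith)).1 (hii _ _)

/-- integrability over the arc from integrability over a period -/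
theorem arc_int {g : ℝ → ℝ} (hgp : Function.Periodic g (2 * π)) (hi : Integrable g cm) :
    Integrable g (volume.restrict (Ioc (2 * π / 3) (4 * π / 3))) := by
  have hπ := Real.pi_pos
  have : IntervalIntegrable g volume (-π) (-π + 2 * π) := by
    rw [intervalIntegrable_iff_integrableOn_Ioc_of_le (by linarith)]
    unfold cm at hi
    have e : -π + 2 * π = π := by ring
    rw [e]
    exact hi
  have h2 := hgp.intervalIntegrable (a₁ := 2 * π / 3) (a₂ := 4 * π / 3) (by linarith) this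
  exact (intervalIntegrable_iff_integrableOn_Ioc_of_le (by linarith)).1 h2

theorem mem_ball {r : ℝ} (h0 : 0 < r) (h1 : r < 1) (t : ℝ) :
    (r * ci t : ℂ) ∈ Metric.ball (0 : ℂ) 1 := by
  rw [mem_ball_zero_iff, norm_rci h0.le]
  exact h1

theorem cont_comp {F : ℂ → ℂ} (hF : ContinuousOn F (Metric.ball 0 1)) {r : ℝ} (h0 : 0 < r)
    (h1 : r < 1) : Continuous (fun t : ℝ => F (r * ci t)) := by
  rw [← continuousOn_univ]
  have h2 : Continuous (fun t : ℝ => (r * ci t : ℂ)) := continuous_const.mul ci_cont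
  exact hF.comp h2.continuousOn (fun t _ => mem_ball h0 h1 t)

theorem cont_Vc {h : ℝ → ℝ} {c : ℝ → ℂ} (hh : BdH h c) {r : ℝ} (h0 : 0 < r) (h1 : r < 1) :
    Continuous (fun t : ℝ => Complex.I * (r * ci t) * deriv (hz h) (r * ci t)) := by
  have h2 : Continuous (fun t : ℝ => deriv (hz h) (r * ci t)) :=
    cont_comp (hh.an.deriv Metric.isOpen_ball).continuousOn h0 h1
  have h3 := ci_cont
  fun_prop

theorem ev_Ioo : ∀ᶠ r : ℝ in 𝓝[<] (1 : ℝ), 0 < r ∧ r < 1 := by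
  have h1 : Ioo (0 : ℝ) 1 ∈ 𝓝[<] (1 : ℝ) := Ioo_mem_nhdsLT zero_lt_one
  exact h1

/-- the arc of side 2 is far from the pole -/
theorem far {r t : ℝ} (hr : 0 ≤ r) (ht : t ∈ Ioc (2 * π / 3) (4 * π / 3)) :
    1 / 2 ≤ ‖(r : ℂ) * ci t - 1‖ := by
  have hπ := Real.pi_pos
  have hc : Real.cos t ≤ 0 :=
    Real.cos_nonpos_of_pi_div_two_le_of_le (by linarith [ht.1]) (by linarith [ht.2])
  have h1 : ((r : ℂ) * ci t - 1).re = r * Real.cos t - 1 := by
    rw [Complex.sub_re, Complex.re_ofReal_mul, ci_re, Complex.one_re]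
  have h2 : |((r : ℂ) * ci t - 1).re| ≤ ‖(r : ℂ) * ci t - 1‖ := Complex.abs_re_le_norm _
  have h3 : 1 ≤ |((r : ℂ) * ci t - 1).re| := by
    rw [h1, abs_of_nonpos (by nlinarith)]
    nlinarith
  linarith

/-- the quotient is a continuous function of `t` on the arc, hence measurable -/
theorem quot_meas {f g : ℝ → ℝ} (hf : Continuous f) (hg : Continuous g) (μ : Measure ℝ) :
    AEStronglyMeasurable (fun t => 2 * f t / ((0 : ℝ) ^ 2 + (f t ^ 2 + g t ^ 2))) μ := by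
  have h1 : Measurable (fun t => 2 * f t / ((0 : ℝ) ^ 2 + (f t ^ 2 + g t ^ 2))) :=
    (hf.measurable.const_mul 2).div
      ((hf.measurable.pow_const 2).add (hg.measurable.pow_const 2) |>.const_add _)
  exact h1.aestronglyMeasurable

/-- the bound of the quotient -/
theorem quot_bd {C ρ x y : ℝ} (hρ : 0 < ρ) (hx : |x| ≤ C) (h : ρ ^ 2 / 2 ≤ x ^ 2 + y ^ 2) :
    |2 * x / ((0 : ℝ) ^ 2 + (x ^ 2 + y ^ 2))| ≤ 2 * C / (ρ ^ 2 / 2) := by
  have h1 : 0 < ρ ^ 2 / 2 := by positivity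
  have h2 : (0 : ℝ) ^ 2 + (x ^ 2 + y ^ 2) = x ^ 2 + y ^ 2 := by ring
  rw [h2, abs_div, abs_mul, abs_two, abs_of_pos (lt_of_lt_of_le h1 h)]
  have h3 : 0 ≤ |x| := abs_nonneg x
  exact div_le_div₀ (by linarith) (by linarith) h1 h

/-- a lower bound for the sum of squares -/
theorem sq_lower {ρ x y : ℝ} (hρ : 0 < ρ) (h : ρ ≤ x + y) : ρ ^ 2 / 2 ≤ x ^ 2 + y ^ 2 := by
  nlinarith [sq_nonneg (x - y)]

/-- one half of the convergence -/
theorem half (huni : Stmt_H_uni) (hl1 : Stmt_H_l1) {f g h : ℝ → ℝ} {a b c : ℝ → ℂ}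
    (hf : BdH f a) (hg : BdH g b) (hh : BdH h c) {ρ : ℝ} (hρ : 0 < ρ)
    (hlow : ∀ z : ℂ, ‖z‖ ≤ 1 → 1 / 2 ≤ ‖z - 1‖ → ρ ≤ (Fx f z).re + (Fx g z).re) :
    Tendsto (fun r : ℝ => ∫ t in Ioc (2 * π / 3) (4 * π / 3), 2 * hx f (r * ci t) /
      ((0 : ℝ) ^ 2 + (hx f (r * ci t) ^ 2 + hx g (r * ci t) ^ 2)) *
        (Complex.I * (r * ci t) * deriv (hz h) (r * ci t)).re) (𝓝[<] 1)
    (𝓝 (∫ t in Ioc (2 * π / 3) (4 * π / 3),
      2 * bv f t / ((0 : ℝ) ^ 2 + (bv f t ^ 2 + bv g t ^ 2)) * (c t).re)) := by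
  obtain ⟨hf1, ⟨C1, hC1, hC1'⟩, hf3, hf4⟩ := huni f a hf
  obtain ⟨hg1, ⟨C2, hC2, hC2'⟩, hg3, hg4⟩ := huni g b hg
  set C := max C1 C2 with hC
  have hC0 : 0 ≤ C := (abs_nonneg _).trans ((hC1' 0).trans (le_max_left _ _))
  -- lower bounds on the arc
  have hb : ∀ t ∈ Ioc (2 * π / 3) (4 * π / 3), ρ ^ 2 / 2 ≤ bv f t ^ 2 + bv g t ^ 2 := by
    intro t ht
    refine sq_lower hρ ?_
    have h1 := far (r := 1) zero_le_one ht
    rw [Complex.ofReal_one, one_mul] at h1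
    exact hlow (ci t) (ci_norm t).le h1
  have hb' : ∀ r : ℝ, 0 < r → r < 1 → ∀ t ∈ Ioc (2 * π / 3) (4 * π / 3),
      ρ ^ 2 / 2 ≤ hx f (r * ci t) ^ 2 + hx g (r * ci t) ^ 2 := by
    intro r hr0 hr1 t ht
    refine sq_lower hρ ?_
    have hm : ‖(r * ci t : ℂ)‖ < 1 := by
      rw [norm_rci hr0.le]
      exact hr1
    have h1 := hlow (r * ci t) hm.le (far hr0.le ht)
    rw [hf.eq _ hm, hg.eq _ hm] at h1
    exact h1
  have hmem : ∀ᵐ t ∂(volume.restrict (Ioc (2 * π / 3) (4 * π / 3))),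
      t ∈ Ioc (2 * π / 3) (4 * π / 3) := ae_restrict_mem measurableSet_Ioc
  refine hl1 (volume.restrict (Ioc (2 * π / 3) (4 * π / 3))) inferInstance
    (fun r t => 2 * hx f (r * ci t) / ((0 : ℝ) ^ 2 + (hx f (r * ci t) ^ 2 + hx g (r * ci t) ^ 2)))
    (fun r t => (Complex.I * (r * ci t) * deriv (hz h) (r * ci t)).re)
    (fun t => 2 * bv f t / ((0 : ℝ) ^ 2 + (bv f t ^ 2 + bv g t ^ 2)))
    (fun t => (c t).re) (2 * C / (ρ ^ 2 / 2)) ?_ ?_ ?_ ?_ ?_ ?_ ?_
  · filter_upwards [ev_Ioo] with r hr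
    have h2 : Continuous (fun t : ℝ => hx f (r * ci t)) :=
      Complex.continuous_re.comp (cont_comp hf.an.continuousOn hr.1 hr.2)
    have h3 : Continuous (fun t : ℝ => hx g (r * ci t)) :=
      Complex.continuous_re.comp (cont_comp hg.an.continuousOn hr.1 hr.2)
    exact quot_meas h2 h3 _
  · filter_upwards [ev_Ioo] with r hr
    filter_upwards [hmem] with t ht
    refine quot_bd hρ ?_ (hb' r hr.1 hr.2 t ht)
    exact (hC1 _ (by simpa using mem_ball hr.1 hr.2 t)).trans (le_max_left _ _)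
  · intro ε hε
    set η : ℝ := ε / (48 * C ^ 2 / ρ ^ 4 + 1) with hη
    have hden : 0 < 48 * C ^ 2 / ρ ^ 4 + 1 := by positivity
    have hη0 : 0 < η := div_pos hε hden
    obtain ⟨r1, hr1, hr1', hu1⟩ := hf1 η hη0
    obtain ⟨r2, hr2, hr2', hu2⟩ := hg1 η hη0
    have h1 : Ioo (max r1 r2) 1 ∈ 𝓝[<] (1 : ℝ) := Ioo_mem_nhdsLT (max_lt hr1' hr2')
    filter_upwards [h1, ev_Ioo] with r hr hr'
    filter_upwards [hmem] with t ht
    have hm : ‖(r * ci t : ℂ)‖ < 1 := by simpa using mem_ball hr'.1 hr'.2 t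
    have hx1 : |hx f (r * ci t)| ≤ C := (hC1 _ hm).trans (le_max_left _ _)
    have hy1 : |hx g (r * ci t)| ≤ C := (hC2 _ hm).trans (le_max_right _ _)
    have hx2 : |bv f t| ≤ C := (hC1' t).trans (le_max_left _ _)
    have hy2 : |bv g t| ≤ C := (hC2' t).trans (le_max_right _ _)
    have hd1 := hu1 r t (lt_of_le_of_lt (le_max_left _ _) hr.1) hr.2
    have hd2 := hu2 r t (lt_of_le_of_lt (le_max_right _ _) hr.1) hr.2
    have hsq : ∀ x x' : ℝ, |x| ≤ C → |x'| ≤ C → |x - x'| ≤ η → |x ^ 2 - x' ^ 2| ≤ 2 * C * η := by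
      intro x x' h1 h2 h3
      have e : x ^ 2 - x' ^ 2 = (x + x') * (x - x') := by ring
      rw [e, abs_mul]
      have h4 : |x + x'| ≤ 2 * C := (abs_add_le _ _).trans (by linarith)
      exact mul_le_mul h4 h3 (abs_nonneg _) (by linarith)
    have hDD : |(hx f (r * ci t) ^ 2 + hx g (r * ci t) ^ 2) - (bv f t ^ 2 + bv g t ^ 2)|
        ≤ 4 * C * η := by
      have e : (hx f (r * ci t) ^ 2 + hx g (r * ci t) ^ 2) - (bv f t ^ 2 + bv g t ^ 2) =
        (hx f (r * ci t) ^ 2 - bv f t ^ 2) + (hx g (r * ci t) ^ 2 - bv g t ^ 2) := by ring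
      rw [e]
      refine (abs_add_le _ _).trans ?_
      have h5 := hsq _ _ hx1 hx2 hd1
      have h6 := hsq _ _ hy1 hy2 hd2
      linarith
    have hDC : hx f (r * ci t) ^ 2 + hx g (r * ci t) ^ 2 ≤ 2 * C ^ 2 := by
      have h5 : hx f (r * ci t) ^ 2 ≤ C ^ 2 := by
        rw [← sq_abs]
        exact pow_le_pow_left₀ (abs_nonneg _) hx1 2
      have h6 : hx g (r * ci t) ^ 2 ≤ C ^ 2 := by
        rw [← sq_abs]
        exact pow_le_pow_left₀ (abs_nonneg _) hy1 2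
      linarith
    refine (frac_lip hρ hC0 hη0.le hx1 (hb' r hr'.1 hr'.2 t ht) (hb t ht) hDD hDC hd1).trans ?_
    have h7 : 48 * C ^ 2 * η / ρ ^ 4 = (48 * C ^ 2 / ρ ^ 4) * η := by ring
    have h8 : (48 * C ^ 2 / ρ ^ 4 + 1) * η = ε := by
      rw [hη]
      field_simp
    rw [h7]
    nlinarith
  · exact quot_meas hf3 hg3 _
  · filter_upwards [ev_Ioo] with r hr
    exact ((Complex.continuous_re.comp (cont_Vc hh hr.1 hr.2)).integrableOn_Ioc)
  · have hp : Function.Periodic (fun t => (c t).re) (2 * π) := fun t => by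
      simp only [hh.per t]
    exact arc_int hp hh.int.re
  · have hcip : ∀ t, ci (t + 2 * π) = ci t := by
      intro t
      unfold ci
      push_cast
      rw [add_mul, Complex.exp_add, Complex.exp_two_pi_mul_I, mul_one]
    refine squeeze_zero' ?_ ?_ hh.lim
    · exact Filter.Eventually.of_forall (fun r => integral_nonneg (fun t => abs_nonneg _))
    · filter_upwards [ev_Ioo] with r hr
      have hci : Integrable (fun t : ℝ => Complex.I * (r * ci t) * deriv (hz h) (r * ci t)) cm :=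
        (cont_Vc hh hr.1 hr.2).integrableOn_Ioc
      have hci' : Integrable (fun t : ℝ => ‖Complex.I * (r * ci t) * deriv (hz h) (r * ci t) - c t‖)
          cm := (Integrable.sub hci hh.int).norm
      have hper : Function.Periodic
          (fun t : ℝ => ‖Complex.I * (r * ci t) * deriv (hz h) (r * ci t) - c t‖) (2 * π) := by
        intro t
        simp only [hcip t, hh.per t]
      refine le_trans ?_ (arc_le (fun t => norm_nonneg _) hper hci')
      refine integral_mono_of_nonneg (Filter.Eventually.of_forall (fun t => abs_nonneg _))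
        (arc_int hper hci') (Filter.Eventually.of_forall (fun t => ?_))
      simp only
      rw [← Complex.sub_re]
      exact Complex.abs_re_le_norm _

/-- positivity of the harmonic extension -/
theorem hx_pos (hhzd : Stmt_H_hzd) {f : ℝ → ℝ} (hf : FE f) (h0 : ∀ t, 0 ≤ f t)
    (hne : ¬ ∀ᵐ t ∂cm, f t = 0) {z : ℂ} (hz1 : ‖z‖ < 1) : 0 < hx f z := by
  obtain ⟨C, hC⟩ := hf.bdd
  have hπ := Real.pi_pos
  rw [(hhzd f C hf.meas hC z hz1).2]
  have hnz0 : ∀ t : ℝ, 1 - ‖z‖ ≤ ‖ci t - z‖ := by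
    intro t
    have := norm_sub_norm_le (ci t) z
    rw [ci_norm] at this
    exact this
  have hpos : ∀ t : ℝ, 0 < ‖ci t - z‖ := fun t => lt_of_lt_of_le (by linarith) (hnz0 t)
  have h1z : 0 < 1 - ‖z‖ ^ 2 := by nlinarith [norm_nonneg z]
  have hk : ∀ t : ℝ, 0 < (1 - ‖z‖ ^ 2) / ‖ci t - z‖ ^ 2 := fun t =>
    div_pos h1z (pow_pos (hpos t) 2)
  have hkc : Continuous fun t : ℝ => (1 - ‖z‖ ^ 2) / ‖ci t - z‖ ^ 2 := by
    refine Continuous.div continuous_const ((ci_cont.sub continuous_const).norm.pow 2) fun t => ?_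
    exact (pow_pos (hpos t) 2).ne'
  have hint : Integrable (fun t : ℝ => (1 - ‖z‖ ^ 2) / ‖ci t - z‖ ^ 2 * f t) cm := by
    refine Integrable.of_bound (hkc.measurable.mul hf.meas).aestronglyMeasurable
      ((1 - ‖z‖ ^ 2) / (1 - ‖z‖) ^ 2 * C) (Eventually.of_forall fun t => ?_)
    rw [Real.norm_eq_abs, abs_mul, abs_of_pos (hk t)]
    refine mul_le_mul ?_ (hC t) (abs_nonneg _)
      (div_nonneg h1z.le (sq_nonneg _))
    exact div_le_div_of_nonneg_left h1z.le (pow_pos (by linarith) 2)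
      (pow_le_pow_left₀ (by linarith) (hnz0 t) 2)
  refine mul_pos (by positivity) ?_
  refine lt_of_le_of_ne (integral_nonneg fun t => mul_nonneg (hk t).le (h0 t)) fun he => hne ?_
  have h2 := (integral_eq_zero_iff_of_nonneg
    (fun t : ℝ => mul_nonneg (hk t).le (h0 t)) hint).1 he.symm
  filter_upwards [h2] with t ht
  rcases mul_eq_zero.1 ht with h | h
  · exact absurd h (hk t).ne'
  · exact h

/-- convergence along rays -/
theorem ray (huni : Stmt_H_uni) {f : ℝ → ℝ} {a : ℝ → ℂ} (hf : BdH f a) (t : ℝ) :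
    Tendsto (fun r : ℝ => hx f (r * ci t)) (𝓝[<] 1) (𝓝 (bv f t)) := by
  rw [Metric.tendsto_nhds]
  intro ε hε
  obtain ⟨r1, hr1, hr1', hu1⟩ := (huni f a hf).1 (ε / 2) (by linarith)
  have h1 : Ioo r1 1 ∈ 𝓝[<] (1 : ℝ) := Ioo_mem_nhdsLT hr1'
  filter_upwards [h1] with r hr
  rw [Real.dist_eq]
  exact lt_of_le_of_lt (hu1 r t hr.1 hr.2) (by linarith)

end Pool.Agent.FBM.HARG

namespace Pool.Agent.FBM

open HARG in
theorem t_H_arg (hagr : Stmt_H_agr) (huni : Stmt_H_uni) (hl1 : Stmt_H_l1) (hcor : Stmt_H_cor)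
    (hmin : Stmt_H_min) (hhzd : Stmt_H_hzd) (hnz : Stmt_H_nz) : Stmt_H_arg := by
  intro y lam T b hC hb
  have hπ := Real.pi_pos
  have hoct := hC.el.oct
  obtain ⟨-, hper, -, -, -, hone, -, hc1, hc2⟩ := hcor y b hoct hb
  obtain ⟨ρ, hρ, hlow⟩ := hmin y lam T b hC hb (1 / 2) (by norm_num)
  have hle : 2 * π / 3 ≤ 4 * π / 3 := by linarith
  -- the values at the end points
  have hv0 : bv (y 0) (2 * π / 3) = 0 := by
    have h1 := hone (2 * π / 3) ⟨by linarith, le_rfl⟩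
    rw [Fin.sum_univ_three, hc1] at h1
    nlinarith [sq_nonneg (bv (y 0) (2 * π / 3)), sq_nonneg (bv (y 2) (2 * π / 3))]
  have hv1' : bv (y 1) (-(2 * π / 3)) = 0 := by
    have h1 := hone (-(2 * π / 3)) ⟨le_rfl, by linarith⟩
    rw [Fin.sum_univ_three, hc2] at h1
    nlinarith [sq_nonneg (bv (y 1) (-(2 * π / 3))), sq_nonneg (bv (y 2) (-(2 * π / 3)))]
  have he : (4 * π / 3 : ℝ) = -(2 * π / 3) + 2 * π := by ring
  have hw0 : bv (y 0) (4 * π / 3) = 1 := by rw [he, hper 0, hc2]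
  have hw1 : bv (y 1) (4 * π / 3) = 0 := by rw [he, hper 1, hv1']
  -- the two halves
  have hA := half huni hl1 (hb 0) (hb 1) (hb 1) hρ hlow
  have hB := half huni hl1 (hb 1) (hb 0) (hb 0) hρ (fun z h1 h2 => by
    rw [add_comm]
    exact hlow z h1 h2)
  have hAB := hA.sub hB
  -- the quotients
  obtain ⟨hf1, ⟨C1, hC1, hC1'⟩, hf3, hf4⟩ := huni (y 0) (b 0) (hb 0)
  obtain ⟨hg1, ⟨C2, hC2, hC2'⟩, hg3, hg4⟩ := huni (y 1) (b 1) (hb 1)
  have hbl : ∀ t ∈ Ioc (2 * π / 3) (4 * π / 3), ρ ^ 2 / 2 ≤ bv (y 0) t ^ 2 + bv (y 1) t ^ 2 := by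
    intro t ht
    refine sq_lower hρ ?_
    have h1 := far (r := 1) zero_le_one ht
    rw [Complex.ofReal_one, one_mul] at h1
    exact hlow (ci t) (ci_norm t).le h1
  have hbl' : ∀ r : ℝ, 0 < r → r < 1 → ∀ t ∈ Ioc (2 * π / 3) (4 * π / 3),
      ρ ^ 2 / 2 ≤ hx (y 0) (r * ci t) ^ 2 + hx (y 1) (r * ci t) ^ 2 := by
    intro r hr0 hr1 t ht
    refine sq_lower hρ ?_
    have hm : ‖(r * ci t : ℂ)‖ < 1 := by
      rw [norm_rci hr0.le]
      exact hr1
    have h1 := hlow (r * ci t) hm.le (far hr0.le ht)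
    rw [(hb 0).eq _ hm, (hb 1).eq _ hm] at h1
    exact h1
  have hmem : ∀ᵐ t ∂(volume.restrict (Ioc (2 * π / 3) (4 * π / 3))),
      t ∈ Ioc (2 * π / 3) (4 * π / 3) := ae_restrict_mem measurableSet_Ioc
  have hbint : ∀ k, Integrable (fun t => (b k t).re)
      (volume.restrict (Ioc (2 * π / 3) (4 * π / 3))) := by
    intro k
    have hp : Function.Periodic (fun t => (b k t).re) (2 * π) := fun t => by
      simp only [(hb k).per t]
    exact arc_int hp (hb k).int.re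
  -- the limit of the left side
  have hob : (∫ t in Ioc (2 * π / 3) (4 * π / 3),
        2 * bv (y 0) t / ((0 : ℝ) ^ 2 + (bv (y 0) t ^ 2 + bv (y 1) t ^ 2)) * (b 1 t).re) -
      (∫ t in Ioc (2 * π / 3) (4 * π / 3),
        2 * bv (y 1) t / ((0 : ℝ) ^ 2 + (bv (y 1) t ^ 2 + bv (y 0) t ^ 2)) * (b 0 t).re) =
      ∫ t in (2 * π / 3)..(4 * π / 3), ob 0 (bv (y 0)) (bv (y 1)) (b 0) (b 1) t := by
    rw [intervalIntegral.integral_of_le hle, ← integral_sub]
    · refine integral_congr_ae (Eventually.of_forall fun t => ?_)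
      simp only [ob]
      rw [add_comm (bv (y 1) t ^ 2) (bv (y 0) t ^ 2)]
      ring
    · refine (hbint 1).bdd_mul (c := 2 * C1 / (ρ ^ 2 / 2)) (quot_meas hf3 hg3 _) ?_
      filter_upwards [hmem] with t ht
      rw [Real.norm_eq_abs]
      exact quot_bd hρ (hC1' t) (hbl t ht)
    · refine (hbint 0).bdd_mul (c := 2 * C2 / (ρ ^ 2 / 2)) (quot_meas hg3 hf3 _) ?_
      filter_upwards [hmem] with t ht
      rw [Real.norm_eq_abs]
      refine quot_bd hρ (hC2' t) ?_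
      rw [add_comm]
      exact hbl t ht
  rw [hob] at hAB
  -- the right side
  have hpos : ∀ z : ℂ, ‖z‖ < 1 → 0 < (hz (y 0) z).re := fun z hz1 =>
    hx_pos hhzd (hoct.adm.fe 0) (hoct.nonneg 0) (hnz Dlim y lam T (Or.inl rfl) hC 0) hz1
  have hR : ∀ t : ℝ, Tendsto (fun r : ℝ => ((hx (y 0) (r * ci t) : ℝ) : ℂ) +
      ((hx (y 1) (r * ci t) : ℝ) : ℂ) * Complex.I) (𝓝[<] 1)
      (𝓝 (((bv (y 0) t : ℝ) : ℂ) + ((bv (y 1) t : ℝ) : ℂ) * Complex.I)) := by
    intro t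
    have h1 := (Complex.continuous_ofReal.tendsto _).comp (ray huni (hb 0) t)
    have h2 := (Complex.continuous_ofReal.tendsto _).comp (ray huni (hb 1) t)
    exact h1.add (h2.mul_const _)
  have hR1 : Tendsto (fun r : ℝ => Complex.arg (((hx (y 0) (r * ci (4 * π / 3)) : ℝ) : ℂ) +
      ((hx (y 1) (r * ci (4 * π / 3)) : ℝ) : ℂ) * Complex.I)) (𝓝[<] 1) (𝓝 0) := by
    have h1 := hR (4 * π / 3)
    rw [hw0, hw1, Complex.ofReal_one, Complex.ofReal_zero, zero_mul, add_zero] at h1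
    have h2 := (Complex.continuousAt_arg Complex.one_mem_slitPlane).tendsto.comp h1
    rw [Complex.arg_one] at h2
    exact h2
  have hR2 : Tendsto (fun r : ℝ => Complex.arg (((hx (y 0) (r * ci (2 * π / 3)) : ℝ) : ℂ) +
      ((hx (y 1) (r * ci (2 * π / 3)) : ℝ) : ℂ) * Complex.I)) (𝓝[<] 1) (𝓝 (π / 2)) := by
    have h1 := hR (2 * π / 3)
    rw [hv0, hc1, Complex.ofReal_one, Complex.ofReal_zero, one_mul, zero_add] at h1
    have h2 := (Complex.continuousAt_arg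
      (Complex.mem_slitPlane_iff.2 (Or.inr (by simp)) :
        Complex.I ∈ Complex.slitPlane)).tendsto.comp h1
    rw [Complex.arg_I] at h2
    exact h2
  have hR3 := (hR1.sub hR2).const_mul 2
  have hfin : (2 : ℝ) * (0 - π / 2) = -π := by ring
  rw [hfin] at hR3
  -- both sides agree
  refine tendsto_nhds_unique ?_ hR3
  refine hAB.congr' ?_
  filter_upwards [ev_Ioo] with r hr
  have h1 := hagr (hz (y 0)) (hz (y 1)) (hb 0).an (hb 1).an hpos r (2 * π / 3) (4 * π / 3)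
    hr.1.le hr.2
  refine Eq.trans ?_ h1
  have h2 : Continuous (fun t : ℝ => hx (y 0) (r * ci t)) :=
    Complex.continuous_re.comp (cont_comp (hb 0).an.continuousOn hr.1 hr.2)
  have h3 : Continuous (fun t : ℝ => hx (y 1) (r * ci t)) :=
    Complex.continuous_re.comp (cont_comp (hb 1).an.continuousOn hr.1 hr.2)
  have hVi : ∀ k, Integrable (fun t : ℝ =>
      (Complex.I * (r * ci t) * deriv (hz (y k)) (r * ci t)).re)
      (volume.restrict (Ioc (2 * π / 3) (4 * π / 3))) := fun k =>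
    (Complex.continuous_re.comp (cont_Vc (hb k) hr.1 hr.2)).integrableOn_Ioc
  rw [intervalIntegral.integral_of_le hle, ← integral_sub]
  · refine integral_congr_ae (Eventually.of_forall fun t => ?_)
    simp only [om, rs, hx]
    rw [add_comm ((hz (y 1) (r * ci t)).re ^ 2) ((hz (y 0) (r * ci t)).re ^ 2)]
    ring
  · refine (hVi 1).bdd_mul (c := 2 * C1 / (ρ ^ 2 / 2)) (quot_meas h2 h3 _) ?_
    filter_upwards [hmem] with t ht
    rw [Real.norm_eq_abs]
    refine quot_bd hρ ?_ (hbl' r hr.1 hr.2 t ht)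
    exact hC1 _ (by simpa using mem_ball hr.1 hr.2 t)
  · refine (hVi 0).bdd_mul (c := 2 * C2 / (ρ ^ 2 / 2)) (quot_meas h3 h2 _) ?_
    filter_upwards [hmem] with t ht
    rw [Real.norm_eq_abs]
    refine quot_bd hρ ?_ ?_
    · exact hC2 _ (by simpa using mem_ball hr.1 hr.2 t)
    · rw [add_comm]
      exact hbl' r hr.1 hr.2 t ht

end Pool.Agent.FBM
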