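/-
FBM, block H: the proportionality factors are at most one (module FBM_H_CLE, helper5).
-/
import Pool.Agent.FBM.StmtH

open MeasureTheory Set Filter Topology
open scoped Real

namespace Pool.Agent.FBM

namespace HCLE

/-- An inequality that holds almost everywhere on a period holds at the inner points. -/
theorem le_of_ae {φ : ℝ → ℝ} (hc : Continuous φ) (h : ∀ᵐ t ∂cm, φ t ≤ 1) {t : ℝ}
    (ht : t ∈ Ioo (-π) π) : φ t ≤ 1 := by
  by_contra hlt
  push Not at hlt
  have ho : IsOpen ({s | 1 < φ s} ∩ Ioo (-π) π) := (isOpen_lt continuous_const hc).inter isOpen_Ioo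
  have hne : ({s | 1 < φ s} ∩ Ioo (-π) π).Nonempty := ⟨t, hlt, ht⟩
  have hpos := ho.measure_pos volume hne
  have h1 : cm {s | ¬ φ s ≤ 1} = 0 := h
  have h2 : volume ({s | 1 < φ s} ∩ Ioo (-π) π) ≤ cm {s | ¬ φ s ≤ 1} := by
    unfold cm
    have hm : MeasurableSet {s | ¬ φ s ≤ 1} := by
      have : {s | ¬ φ s ≤ 1} = {s | 1 < φ s} := by
        ext s
        simp
      rw [this]
      exact (isOpen_lt continuous_const hc).measurableSet
    rw [Measure.restrict_apply hm]
    refine measure_mono ?_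
    rintro s ⟨hs1, hs2⟩
    refine ⟨?_, ⟨hs2.1, hs2.2.le⟩⟩
    simpa using hs1
  rw [h1] at h2
  exact absurd hpos (not_lt.mpr h2)

end HCLE

open HCLE in
theorem t_H_cle (hcor : Stmt_H_cor) : Stmt_H_cle := by
  intro y b c hO hb hc hle
  obtain ⟨hcont, -, -, -, -, -, h2, h1, h0⟩ := hcor y b hO hb
  have hφ : Continuous fun t => ∑ i, (c i * bv (y i) t) ^ 2 :=
    continuous_finsetSum _ fun i _ => (continuous_const.mul (hcont i)).pow 2
  have hae : ∀ᵐ t ∂cm, ∑ i, (c i * bv (y i) t) ^ 2 ≤ 1 := by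
    have hall : ∀ᵐ t ∂cm, ∀ i, bv (y i) t = y i t := ae_all_iff.mpr fun i => (hb i).re
    filter_upwards [hle, hall] with t ht1 ht2
    simpa only [ht2] using ht1
  have key : ∀ (i : Fin 3) (t : ℝ), t ∈ Ioo (-π) π → bv (y i) t = 1 → c i ≤ 1 := by
    intro i t ht hbt
    have h := le_of_ae hφ hae ht
    have hs : (c i * bv (y i) t) ^ 2 ≤ ∑ j, (c j * bv (y j) t) ^ 2 :=
      Finset.single_le_sum (f := fun j => (c j * bv (y j) t) ^ 2) (fun j _ => sq_nonneg _)
        (Finset.mem_univ i)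
    rw [hbt, mul_one] at hs
    have hci := hc i
    nlinarith [h, hs]
  have hpi := Real.pi_pos
  intro i
  fin_cases i
  · exact key 0 (-(2 * π / 3)) ⟨by linarith, by linarith⟩ h0
  · exact key 1 (2 * π / 3) ⟨by linarith, by linarith⟩ h1
  · exact key 2 0 ⟨by linarith, by linarith⟩ h2

end Pool.Agent.FBM
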