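import Pool.Agent.FBM.StmtH

/-!
# FBM_H_CNV: a sequence of critical maps which converges to the limit map
-/

open MeasureTheory Set Filter Topology
open scoped Real

namespace Pool.Agent.FBM

namespace HCNV

lemma PD_nonneg (f x : ℝ → ℝ) : 0 ≤ PD f x := by
  unfold PD
  refine mul_nonneg (by positivity) (integral_nonneg fun p => ?_)
  exact mul_nonneg (J_nonneg _ _) (sq_nonneg _)

/-- a sequence whose squares tend to zero -/
lemma tendsto_of_sq_le {a d : ℕ → ℝ} (h : ∀ k, a k ^ 2 ≤ d k) (hd : Tendsto d atTop (𝓝 0)) :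
    Tendsto a atTop (𝓝 0) := by
  have h1 : Tendsto (fun k => a k ^ 2) atTop (𝓝 0) :=
    squeeze_zero (fun k => sq_nonneg _) h hd
  have h2 : Tendsto (fun k => Real.sqrt (a k ^ 2)) atTop (𝓝 (Real.sqrt 0)) :=
    (Real.continuous_sqrt.tendsto 0).comp h1
  simp only [Real.sqrt_sq_eq_abs, Real.sqrt_zero] at h2
  exact (tendsto_zero_iff_abs_tendsto_zero a).2 h2

end HCNV

open HCNV in
/-- CNV -/
theorem t_H_cnv (hgap : Stmt_H_gap) (hpro : Stmt_H_pro) (hzer : Stmt_H_zer) (hcle : Stmt_H_cle)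
    (hone : Stmt_H_one) (hnz : Stmt_H_nz) : Stmt_H_cnv := by
  intro hmax htm y lam T b hy hb hle hlim hpos
  obtain ⟨m₀, hm₀⟩ := eventually_atTop.1 (hlim.eventually_const_lt hpos)
  have hlev : ∀ k : ℕ, 0 < lev (m₀ + k) := fun k => hm₀ _ (Nat.le_add_right _ _)
  choose p hp X lam' T' hcrit hven using fun k : ℕ => hmax (m₀ + k) (hlev k)
  have hd : Tendsto (fun k : ℕ => ven y y - lev (m₀ + k)) atTop (𝓝 0) := by
    have h1 : Tendsto (fun k : ℕ => lev (m₀ + k)) atTop (𝓝 (ven y y)) :=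
      hlim.comp (tendsto_atTop_mono (fun k => Nat.le_add_left k m₀) tendsto_id)
    have h2 := (tendsto_const_nhds (x := ven y y) (f := atTop (α := ℕ))).sub h1
    rwa [sub_self] at h2
  have hG := fun k : ℕ => hgap y hy.el.oct (m₀ + k) (p k) (hp k) (htm _ _ (hp k)) (X k) (lam' k)
    (T' k) (hcrit k)
  have hXle : ∀ k, ven (X k) (X k) ≤ ven y y := fun k => by rw [hven k]; exact hle _
  have hPD : ∀ i, Tendsto (fun k => PD (y i) (X k i)) atTop (𝓝 0) := fun i =>
    squeeze_zero (fun k => PD_nonneg _ _) (fun k => by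
      have h3 := (hG k).2.1 i
      rwa [hven k] at h3) hd
  have hen : ∀ i, Tendsto (fun k => en (y i) (fun t => y i t * dfc (X k) t)) atTop (𝓝 0) := by
    intro i
    refine tendsto_of_sq_le (d := fun k => (ven y y - lev (m₀ + k))
      * (Real.sqrt (ven y y) + 2 * Real.sqrt (ven y y)) ^ 2) (fun k => ?_) ?_
    · refine ((hG k).2.2 i).trans ?_
      rw [← hven k]
      have h4 : Real.sqrt (ven (X k) (X k)) ≤ Real.sqrt (ven y y) := Real.sqrt_le_sqrt (hXle k)
      have h5 : 0 ≤ Real.sqrt (ven (X k) (X k)) := Real.sqrt_nonneg _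
      have h6 : 0 ≤ Real.sqrt (ven y y) := Real.sqrt_nonneg _
      exact mul_le_mul_of_nonneg_left
        (pow_le_pow_left₀ (by linarith) (by linarith) 2) (hG k).1
    · have h7 := hd.mul_const ((Real.sqrt (ven y y) + 2 * Real.sqrt (ven y y)) ^ 2)
      rwa [zero_mul] at h7
  have hyo := hy.el.oct
  obtain ⟨φ, c, hφ, hc0, hlimX, hc1⟩ := hpro y X (ven y y) hyo.adm.fe hyo.nonneg hyo.le_one
    (hnz Dlim y lam T (Or.inl rfl) hy) (fun k i => (hcrit k).el.oct.adm.fe i)
    (fun k i t => (hcrit k).el.oct.nonneg i t) (fun k t => (hcrit k).el.oct.le_one t) hXle hPD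
  have hz := hzer y (fun k => X (φ k)) (ven y y) c hyo.adm.fe hyo.nonneg hyo.le_one
    (fun k i => (hcrit _).el.oct.adm.fe i)
    (fun k i t => (hcrit _).el.oct.nonneg i t) (fun k t => (hcrit _).el.oct.le_one t)
    (fun k => hXle _) hlimX (fun i => (hen i).comp hφ.tendsto_atTop)
  have hcl := hcle y b c hyo hb hc0 hc1
  have hc := hone y lam T c hy hc0 hcl hz
  refine ⟨fun k => m₀ + φ k, fun k => p (φ k), fun k => X (φ k), fun k => lam' (φ k),
    fun k => T' (φ k), fun k => hp _, fun k => hcrit _, fun k => ?_, fun k => hXle _, fun i => ?_⟩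
  · rw [hven]
    exact hlev _
  · filter_upwards [hlimX i] with t ht
    rwa [hc i, one_mul] at ht

end Pool.Agent.FBM
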