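import Pool.Agent.FBM.StmtH

/-!
# H_cor: continuity of the limit map, values at the corners (MP_947d36_gt, block H)
-/

open MeasureTheory Set Filter Topology
open scoped Real

namespace Pool.Agent.FBM

namespace HCOR

theorem continuous_ci : Continuous ci := by
  unfold ci
  fun_prop

theorem norm_ci (t : ℝ) : ‖ci t‖ = 1 := by
  rw [ci, Complex.norm_exp_ofReal_mul_I]

theorem ci_per (t : ℝ) : ci (t + 2 * π) = ci t := by
  rw [ci, ci]
  push_cast
  rw [add_mul, Complex.exp_add, Complex.exp_two_pi_mul_I, mul_one]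

theorem continuous_bv {f : ℝ → ℝ} (h : ContinuousOn (Fx f) (Metric.closedBall 0 1)) :
    Continuous (bv f) := by
  have h1 : Continuous fun t => Fx f (ci t) := by
    rw [← continuousOn_univ]
    refine h.comp continuous_ci.continuousOn fun t _ => ?_
    rw [mem_closedBall_zero_iff, norm_ci]
  exact Complex.continuous_re.comp h1

theorem bv_per (f : ℝ → ℝ) : Function.Periodic (bv f) (2 * π) := fun t => by
  rw [bv, bv, ci_per]

/-- from one period to the line -/
theorem ae_of_ae_cm {p : ℝ → Prop} (hp : ∀ t, p (t + 2 * π) ↔ p t) (h : ∀ᵐ t ∂cm, p t) :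
    ∀ᵐ t, p t := by
  have hz : ∀ (n : ℤ) (t : ℝ), p (t + n * (2 * π)) ↔ p t := by
    intro n
    induction n using Int.induction_on with
    | zero => intro t; simp
    | succ k ih =>
      intro t
      have e : t + ((k : ℤ) + 1 : ℤ) * (2 * π) = (t + (k : ℤ) * (2 * π)) + 2 * π := by
        push_cast
        ring
      rw [e, hp, ih]
    | pred k ih =>
      intro t
      have e : t + (-(k : ℤ) : ℤ) * (2 * π) = (t + (-(k : ℤ) - 1 : ℤ) * (2 * π)) + 2 * π := by
        push_cast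
        ring
      rw [← hp, ← e, ih]
  rw [cm, ae_restrict_iff' measurableSet_Ioc] at h
  have h1 : ∀ n : ℤ, ∀ᵐ t : ℝ, t - n • (2 * π) ∈ Ioc (-π) π → p (t - n • (2 * π)) := fun n =>
    (measurePreserving_sub_right volume (n • (2 * π))).quasiMeasurePreserving.ae h
  rw [← ae_all_iff] at h1
  filter_upwards [h1] with t ht
  obtain ⟨n, hn, -⟩ := existsUnique_sub_zsmul_mem_Ioc Real.two_pi_pos t (-π)
  have h2 := ht n (by
    refine ⟨hn.1, hn.2.trans_eq ?_⟩
    ring)
  have e : t - n • (2 * π) = t + ((-n : ℤ) : ℝ) * (2 * π) := by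
    rw [zsmul_eq_mul]
    push_cast
    ring
  rw [e, hz] at h2
  exact h2

/-- inequalities between continuous functions which hold almost everywhere -/
theorem closure_of_ae {φ : ℝ → ℝ} (hφ : Continuous φ) {S : Set ℝ} (hS : IsOpen S)
    (h : ∀ᵐ t : ℝ, t ∈ S → 0 ≤ φ t) : ∀ t ∈ closure S, 0 ≤ φ t := by
  have h1 : IsOpen (S ∩ {t | φ t < 0}) := hS.inter (isOpen_lt hφ continuous_const)
  have h2 : volume (S ∩ {t | φ t < 0}) = 0 := by
    rw [ae_iff] at h
    refine measure_mono_null ?_ h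
    rintro t ⟨a, b⟩
    exact fun hc => absurd (hc a) (not_le.2 b)
  have h3 : S ∩ {t | φ t < 0} = ∅ := (h1.measure_eq_zero_iff volume).1 h2
  have h4 : S ⊆ {t | 0 ≤ φ t} := by
    intro t ht
    by_contra hc
    have hc' : ¬ 0 ≤ φ t := hc
    have h6 : φ t < 0 := not_le.1 hc'
    have h5 : t ∈ S ∩ {t | φ t < 0} := ⟨ht, h6⟩
    rw [h3] at h5
    exact h5
  exact closure_minimal h4 (isClosed_le continuous_const hφ)

theorem all_of_ae {φ : ℝ → ℝ} (hφ : Continuous φ) (h : ∀ᵐ t : ℝ, 0 ≤ φ t) : ∀ t, 0 ≤ φ t := by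
  intro t
  refine closure_of_ae hφ isOpen_univ (h.mono fun t ht _ => ht) t ?_
  rw [closure_univ]
  exact mem_univ t

theorem isOpen_pe {S : Set ℝ} (hS : IsOpen S) : IsOpen (pe S) := by
  have e : pe S = ⋃ n : ℤ, (fun t : ℝ => t + n * (2 * π)) ⁻¹' S := by
    ext t
    rw [mem_iUnion]
    exact Iff.rfl
  rw [e]
  exact isOpen_iUnion fun n => hS.preimage (continuous_id.add continuous_const)

theorem isOpen_side (i : Fin 3) : IsOpen (side i) := by
  fin_cases i
  · exact isOpen_pe isOpen_Ioo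
  · exact isOpen_pe isOpen_Ioo
  · exact isOpen_pe isOpen_Ioo

theorem mem0 {t : ℝ} (h : t ∈ Ioo 0 (2 * π / 3)) : t ∈ side 0 :=
  ⟨0, by simpa using h⟩

theorem mem1 {t : ℝ} (h : t ∈ Ioo (-(2 * π / 3)) 0) : t ∈ side 1 :=
  ⟨0, by simpa using h⟩

theorem mem2 {t : ℝ} (h : t ∈ Ioo (2 * π / 3) (4 * π / 3)) : t ∈ side 2 :=
  ⟨0, by simpa using h⟩

theorem mem2' {t : ℝ} (h : t ∈ Ioo (-(4 * π / 3)) (-(2 * π / 3))) : t ∈ side 2 := by
  refine ⟨1, ?_⟩
  rw [Int.cast_one, one_mul]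
  constructor
  · linarith [h.1]
  · linarith [h.2]

end HCOR

open HCOR in
theorem t_H_cor : Stmt_H_cor := by
  intro y b hO hB
  have hpi := Real.pi_pos
  have hc : ∀ i, Continuous (bv (y i)) := fun i => continuous_bv (hB i).cont
  have hae : ∀ i, ∀ᵐ t : ℝ, bv (y i) t = y i t := by
    intro i
    refine ae_of_ae_cm (fun t => ?_) (hB i).re
    rw [bv_per, (hO.adm.fe i).per]
  have hnn : ∀ i t, 0 ≤ bv (y i) t := by
    intro i
    refine all_of_ae (hc i) ?_
    filter_upwards [hae i] with t ht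
    rw [ht]
    exact hO.nonneg i t
  have hsc : Continuous fun t => ∑ i, bv (y i) t ^ 2 :=
    continuous_finsetSum _ fun i _ => (hc i).pow 2
  have hall : ∀ᵐ t : ℝ, ∀ i, bv (y i) t = y i t := ae_all_iff.2 hae
  have hle : ∀ t, ∑ i, bv (y i) t ^ 2 ≤ 1 := by
    intro t
    refine sub_nonneg.1 (all_of_ae (φ := fun t => 1 - ∑ i, bv (y i) t ^ 2)
      (continuous_const.sub hsc) ?_ t)
    filter_upwards [hall] with s hs
    simp only [hs]
    exact sub_nonneg.2 (hO.le_one s)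
  have hz : ∀ i, ∀ t ∈ closure (side i), bv (y i) t = 0 := by
    intro i t ht
    refine le_antisymm (neg_nonneg.1 ?_) (hnn i t)
    refine closure_of_ae (φ := fun t => -bv (y i) t) (hc i).neg (isOpen_side i) ?_ t ht
    filter_upwards [hae i] with s hs hsi
    rw [hs, hO.zeroE i s hsi, neg_zero]
  have hone : ∀ S : Set ℝ, IsOpen S → S ⊆ side 0 ∪ side 1 → S ⊆ Ioc (-π) π →
      ∀ t ∈ closure S, ∑ i, bv (y i) t ^ 2 = 1 := by
    intro S hS h1 h2 t ht
    refine le_antisymm (hle t) (sub_nonneg.1 ?_)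
    refine closure_of_ae (φ := fun t => ∑ i, bv (y i) t ^ 2 - 1) (hsc.sub continuous_const) hS ?_
      t ht
    have h3 := hO.adm.one
    rw [cm, ae_restrict_iff' measurableSet_Ioc] at h3
    filter_upwards [hall, h3] with s hs hs' hsS
    simp only [hs]
    exact sub_nonneg.2 (hs' (h2 hsS) (h1 hsS)).ge
  have hone' : ∀ t ∈ Icc (-(2 * π / 3)) (2 * π / 3), ∑ i, bv (y i) t ^ 2 = 1 := by
    rintro t ⟨h1, h2⟩
    rcases le_total 0 t with h | h
    · refine hone (Ioo 0 (2 * π / 3)) isOpen_Ioo (fun s hs => Or.inl (mem0 hs)) ?_ t ?_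
      · rintro s ⟨a, b⟩
        constructor <;> linarith
      · rw [closure_Ioo (by positivity)]
        exact ⟨h, h2⟩
    · refine hone (Ioo (-(2 * π / 3)) 0) isOpen_Ioo (fun s hs => Or.inr (mem1 hs)) ?_ t ?_
      · rintro s ⟨a, b⟩
        constructor <;> linarith
      · rw [closure_Ioo (by linarith)]
        exact ⟨h1, h⟩
  have cl : ∀ (i : Fin 3) (u v t : ℝ), u < v → Ioo u v ⊆ side i → t ∈ Icc u v →
      t ∈ closure (side i) := by
    intro i u v t huv hsub ht
    refine closure_mono hsub ?_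
    rw [closure_Ioo huv.ne]
    exact ht
  have sq1 : ∀ x : ℝ, 0 ≤ x → x ^ 2 = 1 → x = 1 := by
    intro x hx h
    nlinarith
  refine ⟨hc, fun i => bv_per (y i), hnn, hle, hz, hone', ?_, ?_, ?_⟩
  · have e0 := hz 0 0 (cl 0 0 (2 * π / 3) 0 (by positivity) (fun s hs => mem0 hs)
      ⟨le_rfl, by positivity⟩)
    have e1 := hz 1 0 (cl 1 (-(2 * π / 3)) 0 0 (by linarith) (fun s hs => mem1 hs)
      ⟨by linarith, le_rfl⟩)
    have h := hone' 0 ⟨by linarith, by linarith⟩
    rw [Fin.sum_univ_three, e0, e1] at h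
    exact sq1 _ (hnn 2 0) (by linarith)
  · have e0 := hz 0 (2 * π / 3) (cl 0 0 (2 * π / 3) _ (by positivity) (fun s hs => mem0 hs)
      ⟨by positivity, le_rfl⟩)
    have e2 := hz 2 (2 * π / 3) (cl 2 (2 * π / 3) (4 * π / 3) _ (by linarith)
      (fun s hs => mem2 hs) ⟨le_rfl, by linarith⟩)
    have h := hone' (2 * π / 3) ⟨by linarith, le_rfl⟩
    rw [Fin.sum_univ_three, e0, e2] at h
    exact sq1 _ (hnn 1 _) (by linarith)
  · have e1 := hz 1 (-(2 * π / 3)) (cl 1 (-(2 * π / 3)) 0 _ (by linarith) (fun s hs => mem1 hs)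
      ⟨le_rfl, by linarith⟩)
    have e2 := hz 2 (-(2 * π / 3)) (cl 2 (-(4 * π / 3)) (-(2 * π / 3)) _ (by linarith)
      (fun s hs => mem2' hs) ⟨by linarith, le_rfl⟩)
    have h := hone' (-(2 * π / 3)) ⟨le_rfl, by linarith⟩
    rw [Fin.sum_univ_three, e1, e2] at h
    exact sq1 _ (hnn 0 _) (by linarith)

end Pool.Agent.FBM
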