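import Pool.Agent.FBM.StmtH

/-!
# FBM, block H: Cauchy-Schwarz for the form `QQ lam`
-/

open MeasureTheory Set Filter Topology
open scoped Real

namespace Pool.Agent.FBM

namespace HCS

theorem int_lam {lam f g : ℝ → ℝ} (hl : Integrable lam cm) (hf : FE f) (hg : FE g) :
    Integrable (fun t => lam t * (f t * g t)) cm := by
  obtain ⟨C, hC⟩ := (hf.mul hg).bdd
  exact hl.mul_bdd (c := C) (hf.mul hg).meas.aestronglyMeasurable
    (Eventually.of_forall fun t => by rw [Real.norm_eq_abs]; exact hC t)

theorem QQ_expand {lam f g : ℝ → ℝ} (hl : Integrable lam cm) (hf : FE f) (hg : FE g) (x : ℝ) :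
    QQ lam (fun t => f t + x * g t) (fun t => f t + x * g t) =
      QQ lam g g * (x * x) + (2 * QQ lam f g) * x + QQ lam f f := by
  unfold QQ
  rw [en_add_self hf (hg.smul x), en_smul_right, en_smul_left, en_smul_right]
  have h : ∫ t, lam t * ((f t + x * g t) * (f t + x * g t)) ∂cm =
      (∫ t, lam t * (f t * f t) ∂cm) + (2 * x * (∫ t, lam t * (f t * g t) ∂cm) +
        x * x * ∫ t, lam t * (g t * g t) ∂cm) := by
    have i1 := int_lam hl hf hf
    have i2 := (int_lam hl hf hg).const_mul (2 * x)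
    have i3 := (int_lam hl hg hg).const_mul (x * x)
    have i4 : Integrable (fun t => 2 * x * (lam t * (f t * g t)) +
      x * x * (lam t * (g t * g t))) cm := i2.add i3
    rw [← integral_const_mul, ← integral_const_mul, ← integral_add i2 i3, ← integral_add i1 i4]
    refine integral_congr_ae (Eventually.of_forall fun t => ?_)
    simp only
    ring
  rw [h]
  ring

theorem PD_nonneg (f x : ℝ → ℝ) : 0 ≤ PD f x := by
  unfold PD
  refine mul_nonneg (by positivity) (integral_nonneg fun p => ?_)
  exact mul_nonneg (J_nonneg _ _) (sq_nonneg _)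

end HCS

theorem t_H_cs (hpic : Stmt_H_pic) : Stmt_H_cs := by
  intro D X lam T hD hel i hX f g hf hg hf0 hg0
  have key : ∀ u, FE u → (∀ᵐ t ∂cm, t ∈ D.Z i → u t = 0) → 0 ≤ QQ lam u u := by
    intro u hu hu0
    have h1 := (HCS.PD_nonneg u (X i)).trans (hpic D X lam T hD hel i hX u hu hu0)
    unfold QQ
    simp only [← sq]
    exact h1
  refine ⟨key f hf hf0, key g hg hg0, ?_⟩
  have h2 : ∀ x : ℝ, 0 ≤ QQ lam g g * (x * x) + (2 * QQ lam f g) * x + QQ lam f f := by
    intro x
    rw [← HCS.QQ_expand hel.lam_int hf hg x]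
    refine key _ (hf.add (hg.smul x)) ?_
    filter_upwards [hf0, hg0] with t h3 h4 ht
    rw [h3 ht, h4 ht]
    ring
  have h5 := discrim_le_zero h2
  unfold discrim at h5
  nlinarith

end Pool.Agent.FBM
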