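import Pool.Agent.FBM.StmtH

/-!
# FBM, block H, module DIV: by conformality the distance to the axis is large near the pole
-/

open MeasureTheory Set Filter Topology
open scoped Real

namespace Pool.Agent.FBM

namespace HDIV

theorem J0_nonneg (t : ℝ) : 0 ≤ J 0 t := by
  unfold J
  positivity

theorem J0_meas : Measurable (fun t => J 0 t) := by
  unfold J
  fun_prop

theorem J0_pos {t : ℝ} (h1 : -π < t) (h2 : t ≤ π) (h0 : t ≠ 0) : 0 < J 0 t := by
  have hs : Real.sin ((0 - t) / 2) ≠ 0 := by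
    rw [Ne, Real.sin_eq_zero_iff_of_lt_of_lt (by linarith) (by linarith)]
    intro h
    apply h0
    linarith
  unfold J
  positivity

theorem J0_le {t : ℝ} (h1 : -π < t) (h2 : t ≤ π) (h3 : 2 * π / 3 ≤ |t|) : J 0 t ≤ 1 / 3 := by
  have hp := Real.pi_pos
  have ha : |t| ≤ π := abs_le.2 ⟨h1.le, h2⟩
  have hs : Real.sin (π / 3) ≤ Real.sin (|t| / 2) :=
    Real.sin_le_sin_of_le_of_le_pi_div_two (by linarith) (by linarith) (by linarith)
  have hs0 : 0 ≤ Real.sin (π / 3) := by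
    rw [Real.sin_pi_div_three]
    positivity
  have h4 : Real.sin ((0 - t) / 2) ^ 2 = Real.sin (|t| / 2) ^ 2 := by
    rcases abs_cases t with ⟨h, -⟩ | ⟨h, -⟩
    · rw [h]
      have e : (0 - t) / 2 = -(t / 2) := by ring
      rw [e, Real.sin_neg]
      ring
    · rw [h]
      congr 2
      ring
  have h5 : (3 : ℝ) / 4 ≤ Real.sin ((0 - t) / 2) ^ 2 := by
    rw [h4]
    have h6 : Real.sin (π / 3) ^ 2 ≤ Real.sin (|t| / 2) ^ 2 := pow_le_pow_left₀ hs0 hs 2
    have h7 : Real.sin (π / 3) ^ 2 = 3 / 4 := by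
      rw [Real.sin_pi_div_three, div_pow, Real.sq_sqrt (by norm_num)]
      norm_num
    linarith
  unfold J
  exact one_div_le_one_div_of_le (by norm_num) (by linarith)

theorem mem_side0 {t : ℝ} (h1 : 0 < t) (h2 : t < 2 * π / 3) : t ∈ side 0 := by
  refine ⟨0, ?_⟩
  simpa using ⟨h1, h2⟩

theorem mem_side1 {t : ℝ} (h1 : -(2 * π / 3) < t) (h2 : t < 0) : t ∈ side 1 := by
  refine ⟨0, ?_⟩
  simpa using ⟨h1, h2⟩

theorem ci_ne {z : ℂ} (hz : ‖z‖ < 1) (t : ℝ) : ci t - z ≠ 0 := by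
  intro h
  have h1 : ci t = z := sub_eq_zero.1 h
  have h2 : ‖ci t‖ = 1 := Complex.norm_exp_ofReal_mul_I t
  rw [h1] at h2
  linarith

theorem ker_cont {z : ℂ} (hz : ‖z‖ < 1) :
    Continuous (fun t : ℝ => 2 * ci t / (ci t - z) ^ 2) := by
  have h1 : Continuous (fun t : ℝ => ci t) := by
    unfold ci
    fun_prop
  exact (continuous_const.mul h1).div ((h1.sub continuous_const).pow 2)
    fun t => pow_ne_zero 2 (ci_ne hz t)

theorem ker_int {z : ℂ} (hz : ‖z‖ < 1) {f : ℝ → ℝ} {C : ℝ} (hf : Measurable f)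
    (hC : ∀ t, |f t| ≤ C) :
    Integrable (fun t : ℝ => (2 * ci t / (ci t - z) ^ 2) * (f t : ℂ)) cm := by
  have h1 : Integrable (fun t : ℝ => 2 * ci t / (ci t - z) ^ 2) cm := by
    have : IntegrableOn (fun t : ℝ => 2 * ci t / (ci t - z) ^ 2) (Icc (-π) π) volume :=
      (ker_cont hz).continuousOn.integrableOn_Icc
    exact this.mono_set Ioc_subset_Icc_self
  refine h1.mul_bdd (c := C) (Complex.measurable_ofReal.comp hf).aestronglyMeasurable
    (Eventually.of_forall fun t => ?_)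
  simpa using hC t

/-- the derivative of the Herglotz integral of `1 - f` -/
theorem deriv_one_sub (hhzd : Stmt_H_hzd) (hmass : Stmt_H_mass) {f : ℝ → ℝ}
    (hf : Measurable f) (hC : ∀ t, |f t| ≤ 1) {z : ℂ} (hz1 : ‖z‖ < 1) :
    deriv (hz (fun t => 1 - f t)) z = - deriv (hz f) z := by
  have m1 : Measurable (fun t => 1 - f t) := measurable_const.sub hf
  have b1 : ∀ t, |1 - f t| ≤ 2 := fun t => by
    have := abs_le.1 (hC t)
    rw [abs_le]
    constructor <;> linarith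
  have m2 : Measurable (fun _ : ℝ => (1 : ℝ)) := measurable_const
  have b2 : ∀ t : ℝ, |(fun _ : ℝ => (1 : ℝ)) t| ≤ 1 := fun t => by simp
  have d1 := (hhzd (fun t => 1 - f t) 2 m1 b1 z hz1).1.deriv
  have d2 := (hhzd (fun _ => 1) 1 m2 b2 z hz1).1.deriv
  have d3 := (hhzd f 1 hf hC z hz1).1.deriv
  have e0 : deriv (hz (fun _ => 1)) z = 0 := by
    have h1 : hz (fun _ => 1) =ᶠ[𝓝 z] fun _ => 1 := by
      have : Metric.ball (0 : ℂ) 1 ∈ 𝓝 z := Metric.isOpen_ball.mem_nhds (by simpa using hz1)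
      filter_upwards [this] with w hw
      exact hmass w (by simpa using hw)
    rw [h1.deriv_eq]
    simp
  rw [e0] at d2
  rw [d1, d3]
  have e1 : ∫ t, (2 * ci t / (ci t - z) ^ 2) * ((1 - f t : ℝ) : ℂ) ∂cm
      = (∫ t, (2 * ci t / (ci t - z) ^ 2) * ((1 : ℝ) : ℂ) ∂cm)
        - ∫ t, (2 * ci t / (ci t - z) ^ 2) * (f t : ℂ) ∂cm := by
    rw [← integral_sub (ker_int hz1 m2 b2) (ker_int hz1 hf hC)]
    refine integral_congr_ae (Eventually.of_forall fun t => ?_)
    push_cast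
    ring
  rw [e1, mul_sub, ← d2]
  ring

end HDIV

open HDIV in
theorem t_H_div (hdvl : Stmt_H_dvl) (hhzd : Stmt_H_hzd) (hmass : Stmt_H_mass)
    (hnz : Stmt_H_nz) : Stmt_H_div := by
  intro y lam T hC hI
  have hO := hC.el.oct
  have hfe := hO.adm.fe
  have hn := hO.nonneg
  have hsq : ∀ i t, y i t ^ 2 ≤ 1 := fun i t =>
    (Finset.single_le_sum (f := fun i => y i t ^ 2) (fun j _ => sq_nonneg _)
      (Finset.mem_univ i)).trans (hO.le_one t)
  have hle : ∀ i t, y i t ≤ 1 := fun i t => by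
    have := hsq i t
    nlinarith [hn i t]
  have habs : ∀ i t, |y i t| ≤ 1 := fun i t => by
    rw [abs_of_nonneg (hn i t)]
    exact hle i t
  have : IsFiniteMeasure cm := by
    unfold cm
    infer_instance
  have hIp : ∀ t, 0 ≤ J 0 t * (y 0 t + y 1 t) := fun t =>
    mul_nonneg (J0_nonneg t) (add_nonneg (hn 0 t) (hn 1 t))
  -- integrability of the three functions
  have I0 : Integrable (fun t => J 0 t * y 0 t) cm := by
    refine hI.mono' (J0_meas.mul (hfe 0).meas).aestronglyMeasurable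
      (Eventually.of_forall fun t => ?_)
    rw [Real.norm_eq_abs, abs_of_nonneg (mul_nonneg (J0_nonneg t) (hn 0 t))]
    exact mul_le_mul_of_nonneg_left (by linarith [hn 1 t]) (J0_nonneg t)
  have I1 : Integrable (fun t => J 0 t * y 1 t) cm := by
    refine hI.mono' (J0_meas.mul (hfe 1).meas).aestronglyMeasurable
      (Eventually.of_forall fun t => ?_)
    rw [Real.norm_eq_abs, abs_of_nonneg (mul_nonneg (J0_nonneg t) (hn 1 t))]
    exact mul_le_mul_of_nonneg_left (by linarith [hn 0 t]) (J0_nonneg t)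
  have I2 : Integrable (fun t => J 0 t * (1 - y 2 t)) cm := by
    have hI' : Integrable (fun t => J 0 t * (y 0 t + y 1 t) + 1 / 3) cm :=
      hI.add (integrable_const _)
    refine hI'.mono' (J0_meas.mul (measurable_const.sub (hfe 2).meas)).aestronglyMeasurable ?_
    have hmem : ∀ᵐ t ∂cm, t ∈ Ioc (-π) π := ae_restrict_mem measurableSet_Ioc
    filter_upwards [hmem, hO.adm.one] with t ht h1
    have h2 : 0 ≤ 1 - y 2 t := by linarith [hle 2 t]
    rw [Real.norm_eq_abs, abs_of_nonneg (mul_nonneg (J0_nonneg t) h2)]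
    rcases le_or_gt (2 * π / 3) |t| with h3 | h3
    · have h4 := J0_le ht.1 ht.2 h3
      have h5 : J 0 t * (1 - y 2 t) ≤ J 0 t * 1 :=
        mul_le_mul_of_nonneg_left (by linarith [hn 2 t]) (J0_nonneg t)
      linarith [hIp t]
    · have h3' := abs_lt.1 h3
      rcases lt_trichotomy t 0 with h4 | h4 | h4
      · have hs : t ∈ side 1 := mem_side1 h3'.1 h4
        have h5 : y 1 t = 0 := hO.zeroE 1 t hs
        have h6 : ∑ i, y i t ^ 2 = 1 := h1 (Or.inr hs)
        rw [Fin.sum_univ_three, h5] at h6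
        have h7 : 1 - y 2 t ≤ y 0 t + y 1 t := by
          rw [h5]
          nlinarith [hn 0 t, hle 0 t, hn 2 t, hle 2 t]
        have h8 := mul_le_mul_of_nonneg_left h7 (J0_nonneg t)
        linarith
      · have h5 : J 0 t = 0 := by
          rw [h4]
          unfold J
          simp
        rw [h5]
        norm_num
      · have hs : t ∈ side 0 := mem_side0 h4 h3'.2
        have h5 : y 0 t = 0 := hO.zeroE 0 t hs
        have h6 : ∑ i, y i t ^ 2 = 1 := h1 (Or.inl hs)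
        rw [Fin.sum_univ_three, h5] at h6
        have h7 : 1 - y 2 t ≤ y 0 t + y 1 t := by
          rw [h5]
          nlinarith [hn 1 t, hle 1 t, hn 2 t, hle 2 t]
        have h8 := mul_le_mul_of_nonneg_left h7 (J0_nonneg t)
        linarith
  -- the limits of the derivatives
  have L0 := hdvl (y 0) 1 (hfe 0).meas (habs 0) I0
  have L1 := hdvl (y 1) 1 (hfe 1).meas (habs 1) I1
  have b2 : ∀ t, |1 - y 2 t| ≤ 1 := fun t => by
    rw [abs_of_nonneg (by linarith [hle 2 t])]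
    linarith [hn 2 t]
  have L2 := hdvl (fun t => 1 - y 2 t) 1 (measurable_const.sub (hfe 2).meas) b2 I2
  set a0 : ℝ := -(1 / π) * ∫ t, J 0 t * y 0 t ∂cm with ha0
  set a1 : ℝ := -(1 / π) * ∫ t, J 0 t * y 1 t ∂cm with ha1
  set a2 : ℝ := -(1 / π) * ∫ t, J 0 t * (1 - y 2 t) ∂cm with ha2
  have hS : Tendsto (fun r : ℝ => (deriv (hz (y 0)) (r : ℂ)) ^ 2
      + (deriv (hz (y 1)) (r : ℂ)) ^ 2 + (deriv (hz (fun t => 1 - y 2 t)) (r : ℂ)) ^ 2)
      (𝓝[<] 1) (𝓝 ((a0 : ℂ) ^ 2 + (a1 : ℂ) ^ 2 + (a2 : ℂ) ^ 2)) :=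
    ((L0.pow 2).add (L1.pow 2)).add (L2.pow 2)
  have hev : ∀ᶠ r : ℝ in 𝓝[<] 1, (deriv (hz (y 0)) (r : ℂ)) ^ 2
      + (deriv (hz (y 1)) (r : ℂ)) ^ 2 + (deriv (hz (fun t => 1 - y 2 t)) (r : ℂ)) ^ 2 = 0 := by
    have h1 : Ioo (0 : ℝ) 1 ∈ 𝓝[<] (1 : ℝ) := Ioo_mem_nhdsLT (by norm_num)
    filter_upwards [h1] with r hr
    have hr1 : ‖(r : ℂ)‖ < 1 := by
      rw [Complex.norm_real, Real.norm_eq_abs, abs_of_pos hr.1]
      exact hr.2
    have h2 := hC.conf (r : ℂ) hr1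
    rw [Fin.sum_univ_three] at h2
    rw [deriv_one_sub hhzd hmass (hfe 2).meas (habs 2) hr1]
    rw [neg_sq]
    exact h2
  have hzero : ((a0 : ℂ) ^ 2 + (a1 : ℂ) ^ 2 + (a2 : ℂ) ^ 2) = 0 :=
    tendsto_nhds_unique hS (tendsto_const_nhds.congr' (hev.mono fun r hr => hr.symm))
  have hreal : a0 ^ 2 + a1 ^ 2 + a2 ^ 2 = 0 := by
    exact_mod_cast hzero
  have ha00 : a0 = 0 := by
    have h1 : a0 ^ 2 = 0 := by nlinarith [sq_nonneg a0, sq_nonneg a1, sq_nonneg a2]
    exact pow_eq_zero_iff (two_ne_zero) |>.1 h1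
  have hint : ∫ t, J 0 t * y 0 t ∂cm = 0 := by
    have h1 : -(1 / π) ≠ 0 := by
      have h2 := Real.pi_pos
      have h3 : (0 : ℝ) < 1 / π := by positivity
      exact neg_ne_zero.2 h3.ne'
    rcases mul_eq_zero.1 (ha0 ▸ ha00) with h | h
    · exact absurd h h1
    · exact h
  have hae : (fun t => J 0 t * y 0 t) =ᵐ[cm] 0 :=
    (integral_eq_zero_iff_of_nonneg (fun t => mul_nonneg (J0_nonneg t) (hn 0 t)) I0).1 hint
  refine hnz Dlim y lam T (Or.inl rfl) hC 0 ?_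
  have hmem : ∀ᵐ t ∂cm, t ∈ Ioc (-π) π := ae_restrict_mem measurableSet_Ioc
  have hne : ∀ᵐ t ∂cm, t ≠ (0 : ℝ) := by
    have : ∀ᵐ t : ℝ ∂volume, t ≠ (0 : ℝ) := by
      rw [ae_iff]
      simp
    exact ae_restrict_of_ae this
  filter_upwards [hae, hmem, hne] with t h1 h2 h3
  have h4 : J 0 t * y 0 t = 0 := h1
  rcases mul_eq_zero.1 h4 with h | h
  · exact absurd h (J0_pos h2.1 h2.2 h3).ne'
  · exact h

end Pool.Agent.FBM
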