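import Pool.Agent.FBM.StmtH

/-!
# FAT: lower semicontinuity of the conformal areas
-/

open MeasureTheory Set Filter Topology
open scoped Real

namespace Pool.Agent.FBM

namespace HFAT

/-- the denominator of `lc` -/
noncomputable def dn (c : ℝ) (x : Fin 3 → ℝ) : ℝ := 1 - 2 * c * x 2 + c ^ 2 * ∑ i, x i ^ 2

theorem lc_eq (c : ℝ) (x : Fin 3 → ℝ) : lc c x = (1 - c ^ 2) / dn c x := rfl

theorem dn_pos {c : ℝ} {x : Fin 3 → ℝ} (hc : 0 < c) (hc1 : c < 1) (hx : ∑ i, x i ^ 2 ≤ 1) :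
    0 < dn c x := by
  have h1 : x 2 ≤ 1 := by
    rw [Fin.sum_univ_three] at hx
    nlinarith [sq_nonneg (x 0), sq_nonneg (x 1), sq_nonneg (x 2 - 1)]
  have h2 : dn c x = (1 - c * x 2) ^ 2 + c ^ 2 * (x 0 ^ 2 + x 1 ^ 2) := by
    unfold dn
    rw [Fin.sum_univ_three]
    ring
  have h3 : 0 < 1 - c * x 2 := by nlinarith
  rw [h2]
  have h4 : 0 ≤ c ^ 2 * (x 0 ^ 2 + x 1 ^ 2) := by positivity
  have h5 : 0 < (1 - c * x 2) ^ 2 := pow_pos h3 2
  linarith

theorem abs_le_one {x : Fin 3 → ℝ} (hx : ∑ i, x i ^ 2 ≤ 1) (i : Fin 3) : |x i| ≤ 1 := by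
  have h1 : x i ^ 2 ≤ 1 :=
    (Finset.single_le_sum (f := fun i => x i ^ 2) (fun j _ => sq_nonneg _)
      (Finset.mem_univ i)).trans hx
  have h2 := Real.sqrt_le_sqrt h1
  rw [Real.sqrt_sq_eq_abs, Real.sqrt_one] at h2
  exact h2

theorem tendsto_sum {f : ℕ → Fin 3 → ℝ} {g : Fin 3 → ℝ}
    (h : ∀ i, Tendsto (fun k => f k i) atTop (𝓝 (g i))) :
    Tendsto (fun k => ∑ i, f k i) atTop (𝓝 (∑ i, g i)) :=
  tendsto_finsetSum _ fun i _ => h i

theorem lc_tendsto {c : ℝ} {x : ℕ → Fin 3 → ℝ} {y : Fin 3 → ℝ}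
    (h : ∀ i, Tendsto (fun k => x k i) atTop (𝓝 (y i))) (h0 : dn c y ≠ 0) :
    Tendsto (fun k => lc c (x k)) atTop (𝓝 (lc c y)) := by
  simp only [lc_eq]
  refine Tendsto.div tendsto_const_nhds ?_ h0
  unfold dn
  exact (tendsto_const_nhds.sub ((h 2).const_mul _)).add
    ((tendsto_sum fun i => (h i).pow 2).const_mul _)

theorem diffOn (hhzd : Stmt_H_hzd) {f : ℝ → ℝ} {C : ℝ} (hf : Measurable f)
    (hC : ∀ t, |f t| ≤ C) : DifferentiableOn ℂ (hz f) (Metric.ball 0 1) := fun z hz =>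
  ((hhzd f C hf hC z (mem_ball_zero_iff.1 hz)).1).differentiableAt.differentiableWithinAt

theorem contOn (hhzd : Stmt_H_hzd) (hpte : Stmt_H_pte) {c : ℝ} (hc : 0 < c) (hc1 : c < 1)
    {X : Fin 3 → ℝ → ℝ} (hm : ∀ i, Measurable (X i)) (h0 : ∀ i t, 0 ≤ X i t)
    (h1 : ∀ t, ∑ i, X i t ^ 2 ≤ 1) :
    ContinuousOn (fun z => ENNReal.ofReal (lc c (pt X z) ^ 2 * dens X z / 2))
      (Metric.ball (0 : ℂ) 1) := by
  have hd : ∀ i, DifferentiableOn ℂ (hz (X i)) (Metric.ball 0 1) := fun i =>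
    diffOn hhzd (hm i) fun t => abs_le_one (h1 t) i
  have hpt : ∀ i, ContinuousOn (fun z => pt X z i) (Metric.ball (0 : ℂ) 1) := by
    intro i
    refine (Complex.continuous_re.comp_continuousOn (hd i).continuousOn).congr fun z hz => ?_
    exact (hpte X hm h0 h1 z (mem_ball_zero_iff.1 hz)).1 i
  have hde : ContinuousOn (fun z => dens X z) (Metric.ball (0 : ℂ) 1) := by
    unfold dens
    refine continuousOn_finsetSum _ fun i _ => ?_
    exact ((hd i).deriv Metric.isOpen_ball).continuousOn.norm.pow 2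
  have hlc : ContinuousOn (fun z => lc c (pt X z)) (Metric.ball (0 : ℂ) 1) := by
    simp only [lc_eq]
    refine continuousOn_const.div ?_ fun z hz => ?_
    · unfold dn
      exact (continuousOn_const.sub (continuousOn_const.mul (hpt 2))).add
        (continuousOn_const.mul (continuousOn_finsetSum _ fun i _ => (hpt i).pow 2))
    · exact (dn_pos hc hc1 (hpte X hm h0 h1 z (mem_ball_zero_iff.1 hz)).2.2).ne'
  exact ENNReal.continuous_ofReal.comp_continuousOn (((hlc.pow 2).mul hde).div_const 2)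

end HFAT

open HFAT in
theorem t_H_fat (hhzd : Stmt_H_hzd) (hhzl : Stmt_H_hzl) (hpte : Stmt_H_pte) : Stmt_H_fat := by
  intro y X c A hc hc1 hym hy0 hy1 hXm hX0 hX1 hlim hA
  -- pointwise convergence
  have hconv : ∀ z ∈ Metric.ball (0 : ℂ) 1, Tendsto
      (fun k => ENNReal.ofReal (lc c (pt (X k) z) ^ 2 * dens (X k) z / 2)) atTop
      (𝓝 (ENNReal.ofReal (lc c (pt y z) ^ 2 * dens y z / 2))) := by
    intro z hz
    have hz' : ‖z‖ < 1 := mem_ball_zero_iff.1 hz
    have hl : ∀ i, _ := fun i => hhzl (fun k => X k i) (y i) 1 (fun k => hXm k i)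
      (fun k t => abs_le_one (hX1 k t) i) (hym i) (fun t => abs_le_one (hy1 t) i) (hlim i) z hz'
    have hpt : ∀ i, Tendsto (fun k => pt (X k) z i) atTop (𝓝 (pt y z i)) := by
      intro i
      have e1 : (fun k => pt (X k) z i) = fun k => (Pool.Agent.FBM.hz (X k i) z).re := by
        funext k
        exact (hpte (X k) (hXm k) (hX0 k) (hX1 k) z hz').1 i
      have e2 : pt y z i = (Pool.Agent.FBM.hz (y i) z).re := (hpte y hym hy0 hy1 z hz').1 i
      rw [e1, e2]
      exact (Complex.continuous_re.tendsto _).comp (hl i).1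
    have hde : Tendsto (fun k => dens (X k) z) atTop (𝓝 (dens y z)) := by
      unfold dens
      exact tendsto_sum fun i => ((hl i).2.norm).pow 2
    have hlc := lc_tendsto (c := c) hpt (dn_pos hc hc1 (hpte y hym hy0 hy1 z hz').2.2).ne'
    exact (ENNReal.continuous_ofReal.tendsto _).comp (((hlc.pow 2).mul hde).div_const 2)
  have hmeas : ∀ k, AEMeasurable
      (fun z => ENNReal.ofReal (lc c (pt (X k) z) ^ 2 * dens (X k) z / 2))
      (volume.restrict (Metric.ball (0 : ℂ) 1)) := fun k =>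
    (contOn hhzd hpte hc hc1 (hXm k) (hX0 k) (hX1 k)).aemeasurable Metric.isOpen_ball.measurableSet
  have hfat := lintegral_liminf_le' (u := atTop) hmeas
  have heq : ∫⁻ z in Metric.ball (0 : ℂ) 1,
      ENNReal.ofReal (lc c (pt y z) ^ 2 * dens y z / 2) =
      ∫⁻ z in Metric.ball (0 : ℂ) 1, liminf
        (fun k => ENNReal.ofReal (lc c (pt (X k) z) ^ 2 * dens (X k) z / 2)) atTop := by
    refine setLIntegral_congr_fun Metric.isOpen_ball.measurableSet fun z hz => ?_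
    exact (hconv z hz).liminf_eq.symm
  rw [heq] at hA
  exact eventually_lt_of_lt_liminf (hA.trans_le hfat)

end Pool.Agent.FBM
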