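import Mathlib
import Pool.Agent.FBM.StmtH

/-!
# FLA: the limit map is tangent to the sphere at the pole
-/

set_option autoImplicit false

open MeasureTheory Set Filter Topology
open scoped Real

namespace Pool.Agent.FBM

namespace HFLA

/-- the Poisson kernel -/
noncomputable def pk0 (z : ℂ) (t : ℝ) : ℝ := (1 - ‖z‖ ^ 2) / ‖ci t - z‖ ^ 2

lemma norm_ci (t : ℝ) : ‖ci t‖ = 1 := Complex.norm_exp_ofReal_mul_I t

lemma cont_ci : Continuous ci := by
  unfold ci
  fun_prop

lemma dist_pos {z : ℂ} (hz : ‖z‖ < 1) (t : ℝ) : 1 - ‖z‖ ≤ ‖ci t - z‖ := by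
  have h := norm_sub_norm_le (ci t) z
  rw [norm_ci] at h
  exact h

lemma pk0_nonneg {z : ℂ} (hz : ‖z‖ < 1) (t : ℝ) : 0 ≤ pk0 z t := by
  unfold pk0
  have h := norm_nonneg z
  have : 0 ≤ 1 - ‖z‖ ^ 2 := by nlinarith
  positivity

lemma pk0_int {z : ℂ} (hz : ‖z‖ < 1) {f : ℝ → ℝ} (hf : Measurable f) {C : ℝ}
    (hC : ∀ t, |f t| ≤ C) : Integrable (fun t => pk0 z t * f t) cm := by
  have h0 : 0 < 1 - ‖z‖ := by linarith
  have hz0 := norm_nonneg z
  have h1 : 0 ≤ 1 - ‖z‖ ^ 2 := by nlinarith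
  have hm : Measurable (pk0 z) := by
    unfold pk0
    have : Measurable fun t => ‖ci t - z‖ ^ 2 :=
      ((cont_ci.sub continuous_const).norm.pow 2).measurable
    exact this.const_div _
  refine (integrable_const ((1 - ‖z‖ ^ 2) / (1 - ‖z‖) ^ 2 * C)).mono'
    (hm.mul hf).aestronglyMeasurable (Eventually.of_forall fun t => ?_)
  rw [Real.norm_eq_abs, abs_mul, abs_of_nonneg (pk0_nonneg hz t)]
  refine mul_le_mul ?_ (hC t) (abs_nonneg _) (by positivity)
  unfold pk0
  exact div_le_div_of_nonneg_left h1 (by positivity)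
    (pow_le_pow_left₀ h0.le (dist_pos hz t) 2)

lemma hx_eq (hhzd : Stmt_H_hzd) {z : ℂ} (hz : ‖z‖ < 1) {f : ℝ → ℝ} (hf : Measurable f) {C : ℝ}
    (hC : ∀ t, |f t| ≤ C) : hx f z = (1 / (2 * π)) * ∫ t, pk0 z t * f t ∂cm :=
  (hhzd f C hf hC z hz).2

lemma cm_real : cm.real univ = 2 * π := by
  have hpi := Real.pi_pos
  rw [measureReal_def, cm_univ, ENNReal.toReal_ofReal (by positivity)]

end HFLA

open HFLA

/-- The limit map is tangent to the sphere at the pole. -/
theorem t_H_fla (hhzd : Stmt_H_hzd) (hmass : Stmt_H_mass) (hcor : Stmt_H_cor)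
    (hdiv : Stmt_H_div) (hrat : Stmt_H_rat) : Stmt_H_fla := by
  intro y lam T b hC hb ε hε
  have hpi := Real.pi_pos
  have hoct := hC.el.oct
  obtain ⟨hcont, -, hbv0, hbvle, -, -, h20, -, -⟩ := hcor y b hoct hb
  have hfe : ∀ i, FE (y i) := hoct.adm.fe
  have hy0 : ∀ i t, 0 ≤ y i t := hoct.nonneg
  have hyle : ∀ t, ∑ i, y i t ^ 2 ≤ 1 := hoct.le_one
  have hy1 : ∀ i t, y i t ≤ 1 := by
    intro i t
    have h1 : y i t ^ 2 ≤ 1 :=
      (Finset.single_le_sum (f := fun j => y j t ^ 2) (fun j _ => sq_nonneg _)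
        (Finset.mem_univ i)).trans (hyle t)
    nlinarith [hy0 i t]
  have habs : ∀ i t, |y i t| ≤ 1 := fun i t => by
    rw [abs_of_nonneg (hy0 i t)]; exact hy1 i t
  -- values at the pole
  have h00 : bv (y 0) 0 = 0 ∧ bv (y 1) 0 = 0 := by
    have h := hbvle 0
    rw [Fin.sum_univ_three, h20] at h
    constructor
    · nlinarith [sq_nonneg (bv (y 0) 0), sq_nonneg (bv (y 1) 0)]
    · nlinarith [sq_nonneg (bv (y 0) 0), sq_nonneg (bv (y 1) 0)]
  -- continuity at the pole
  obtain ⟨η, hη, hηpi, hηb⟩ : ∃ η > 0, η < 2 * π / 3 ∧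
      ∀ t : ℝ, |t| < η → bv (y 0) t + bv (y 1) t ≤ ε / 2 := by
    have hc : ContinuousAt (fun t => bv (y 0) t + bv (y 1) t) 0 :=
      ((hcont 0).add (hcont 1)).continuousAt
    rw [Metric.continuousAt_iff] at hc
    obtain ⟨η1, hη1, h1⟩ := hc (ε / 2) (by positivity)
    refine ⟨min η1 1, lt_min hη1 one_pos,
      lt_of_le_of_lt (min_le_right _ _) (by linarith [Real.pi_gt_three]), fun t ht => ?_⟩
    have h2 := h1 (x := t) (by
      rw [Real.dist_eq, sub_zero]; exact lt_of_lt_of_le ht (min_le_left _ _))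
    rw [Real.dist_eq, h00.1, h00.2, add_zero, sub_zero] at h2
    exact (le_abs_self _).trans h2.le
  set s : ℝ := Real.sin (η / 2) with hs
  have hs0 : 0 < s := Real.sin_pos_of_pos_of_lt_pi (by positivity) (by linarith)
  -- the function g
  set g : ℝ → ℝ := fun t => y 0 t + y 1 t with hg
  have hgm : Measurable g := (hfe 0).meas.add (hfe 1).meas
  have hg0 : ∀ t, 0 ≤ g t := fun t => add_nonneg (hy0 0 t) (hy0 1 t)
  have hg2 : ∀ t, g t ≤ 2 := fun t => by
    have h1 := hy1 0 t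
    have h2 := hy1 1 t
    simp only [hg]
    linarith
  have hgabs : ∀ t, |g t| ≤ 2 := fun t => by rw [abs_of_nonneg (hg0 t)]; exact hg2 t
  obtain ⟨δ1, hδ1, hK⟩ := hrat g 2 hgm hg0 hg2 (hdiv y lam T hC) (2 / (ε * s ^ 2))
  refine ⟨min δ1 s, lt_min hδ1 hs0, fun z hz hz1 => ?_⟩
  have hzδ : ‖z - 1‖ < δ1 := lt_of_lt_of_le hz1 (min_le_left _ _)
  have hzs : ‖z - 1‖ < s := lt_of_lt_of_le hz1 (min_le_right _ _)
  have hKz := hK z hz hzδ
  have hz0 := norm_nonneg z
  have hq : 0 ≤ 1 - ‖z‖ ^ 2 := by nlinarith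
  -- the pointwise bound
  have hpt : ∀ᵐ t ∂cm, pk0 z t * (1 - y 2 t) ≤ ε / 2 * (pk0 z t * g t) + (1 - ‖z‖ ^ 2) / s ^ 2 := by
    have e0 : ∀ᵐ t ∂cm, t ∈ Ioc (-π) π := ae_restrict_mem measurableSet_Ioc
    have e1 : ∀ᵐ t ∂cm, t ≠ 0 := by
      have : ∀ᵐ t : ℝ, t ∉ ({0} : Set ℝ) := (countable_singleton 0).ae_notMem volume
      exact ae_restrict_of_ae (this.mono fun t ht h => ht (by simp [h]))
    filter_upwards [e0, e1, (hb 0).re, (hb 1).re, hoct.adm.one] with t ht ht0 hr0 hr1 hone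
    have hp := pk0_nonneg hz t
    have hpos : 0 ≤ (1 - ‖z‖ ^ 2) / s ^ 2 := by positivity
    by_cases htη : |t| < η
    · -- near the pole
      have h1 : g t ≤ ε / 2 := by
        have := hηb t htη
        rw [hr0, hr1] at this
        exact this
      have h2 : t ∈ side 0 ∨ t ∈ side 1 := by
        rw [abs_lt] at htη
        rcases lt_or_gt_of_ne ht0 with h | h
        · right
          exact ⟨0, by
            simp only [Int.cast_zero, zero_mul, add_zero, mem_Ioo]
            exact ⟨by linarith, h⟩⟩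
        · left
          exact ⟨0, by
            simp only [Int.cast_zero, zero_mul, add_zero, mem_Ioo]
            exact ⟨h, by linarith⟩⟩
      have h3 : ∑ i, y i t ^ 2 = 1 := hone h2
      rw [Fin.sum_univ_three] at h3
      have h4 : y 0 t * y 1 t = 0 := by
        rcases h2 with h | h
        · rw [hoct.zeroE 0 t h, zero_mul]
        · rw [hoct.zeroE 1 t h, mul_zero]
      have h5 : 1 - y 2 t ≤ ε / 2 * g t := by
        have h6 : g t ^ 2 = 1 - y 2 t ^ 2 := by
          simp only [hg]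
          nlinarith
        have h7 : g t ^ 2 ≤ ε / 2 * g t := by
          rw [sq]
          exact mul_le_mul_of_nonneg_right h1 (hg0 t)
        have h8 := hy0 2 t
        have h9 := hy1 2 t
        nlinarith
      have h6 := mul_le_mul_of_nonneg_left h5 hp
      nlinarith
    · -- far from the pole
      rw [not_lt] at htη
      have h1 : |t| ≤ π := by
        rw [abs_le]
        exact ⟨ht.1.le, ht.2⟩
      have h2 : s ≤ |Real.sin (t / 2)| := by
        have h3 : |Real.sin (t / 2)| = Real.sin (|t| / 2) := by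
          have h5 : 0 ≤ Real.sin (|t| / 2) :=
            Real.sin_nonneg_of_nonneg_of_le_pi (by positivity) (by linarith [abs_nonneg t])
          have h4 : Real.sin (|t| / 2) = |Real.sin (|t| / 2)| := (abs_of_nonneg h5).symm
          rw [h4]
          rcases abs_choice t with h | h
          · rw [h]
          · rw [h, neg_div, Real.sin_neg, abs_neg]
        rw [h3, hs]
        exact Real.sin_le_sin_of_le_of_le_pi_div_two (by linarith) (by linarith) (by linarith [htη])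
      have h3 : ‖ci t - 1‖ = 2 * |Real.sin (t / 2)| := by
        unfold ci
        rw [mul_comm, Complex.norm_exp_I_mul_ofReal_sub_one, Real.norm_eq_abs, abs_mul,
          abs_of_pos (by norm_num : (0 : ℝ) < 2)]
      have h4 : s ≤ ‖ci t - z‖ := by
        have h5 : ‖ci t - 1‖ ≤ ‖ci t - z‖ + ‖z - 1‖ := by
          have : ci t - 1 = (ci t - z) + (z - 1) := by ring
          rw [this]
          exact norm_add_le _ _
        linarith
      have h5 : pk0 z t ≤ (1 - ‖z‖ ^ 2) / s ^ 2 := by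
        unfold pk0
        exact div_le_div_of_nonneg_left hq (by positivity) (pow_le_pow_left₀ hs0.le h4 2)
      have h6 : pk0 z t * (1 - y 2 t) ≤ pk0 z t := by
        have := mul_nonneg hp (hy0 2 t)
        nlinarith
      have h7 : 0 ≤ ε / 2 * (pk0 z t * g t) :=
        mul_nonneg (by positivity) (mul_nonneg hp (hg0 t))
      linarith
  -- integrals
  have i2 := pk0_int hz (hfe 2).meas (habs 2)
  have i1 : Integrable (fun t => pk0 z t * 1) cm :=
    pk0_int hz measurable_const (C := 1) (fun _ => by norm_num)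
  have ig := pk0_int hz hgm hgabs
  have i12 : Integrable (fun t => pk0 z t * (1 - y 2 t)) cm := by
    refine (i1.sub i2).congr (Eventually.of_forall fun t => ?_)
    simp only [Pi.sub_apply]
    ring
  have e1 : 1 - hx (y 2) z = (1 / (2 * π)) * ∫ t, pk0 z t * (1 - y 2 t) ∂cm := by
    have h1 : hx (fun _ => 1) z = 1 := by
      unfold hx
      rw [hmass z hz, Complex.one_re]
    have h2 : (∫ t, pk0 z t * (1 - y 2 t) ∂cm) = (∫ t, pk0 z t * 1 ∂cm) - ∫ t, pk0 z t * y 2 t ∂cm := by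
      rw [← integral_sub i1 i2]
      refine integral_congr_ae (Eventually.of_forall fun t => ?_)
      simp only
      ring
    have h3 : hx (fun _ => 1) z = (1 / (2 * π)) * ∫ t, pk0 z t * 1 ∂cm :=
      hx_eq hhzd hz measurable_const (C := 1) (fun _ => by norm_num)
    rw [h2, mul_sub, ← h3, h1, ← hx_eq hhzd hz (hfe 2).meas (habs 2)]
  have e2 : hx g z = hx (y 0) z + hx (y 1) z := by
    have i0 := pk0_int hz (hfe 0).meas (habs 0)
    have i1' := pk0_int hz (hfe 1).meas (habs 1)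
    rw [hx_eq hhzd hz hgm hgabs, hx_eq hhzd hz (hfe 0).meas (habs 0),
      hx_eq hhzd hz (hfe 1).meas (habs 1), ← mul_add, ← integral_add i0 i1']
    congr 1
    refine integral_congr_ae (Eventually.of_forall fun t => ?_)
    simp only [hg]
    ring
  have e3 : ∫ t, pk0 z t * (1 - y 2 t) ∂cm ≤
      ε / 2 * ∫ t, pk0 z t * g t ∂cm + (1 - ‖z‖ ^ 2) / s ^ 2 * (2 * π) := by
    have h1 := integral_mono_ae i12 ((ig.const_mul (ε / 2)).add
      (integrable_const ((1 - ‖z‖ ^ 2) / s ^ 2))) hpt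
    have h2 : ∫ t, (ε / 2 * (pk0 z t * g t) + (1 - ‖z‖ ^ 2) / s ^ 2) ∂cm =
        ε / 2 * ∫ t, pk0 z t * g t ∂cm + (1 - ‖z‖ ^ 2) / s ^ 2 * (2 * π) := by
      rw [integral_add (ig.const_mul (ε / 2)) (integrable_const _), integral_const_mul,
        integral_const, cm_real, smul_eq_mul, mul_comm (2 * π)]
    rw [← h2]
    exact h1
  rw [e1, ← e2]
  have e4 : (1 / (2 * π)) * ∫ t, pk0 z t * (1 - y 2 t) ∂cm ≤
      (1 / (2 * π)) * (ε / 2 * ∫ t, pk0 z t * g t ∂cm + (1 - ‖z‖ ^ 2) / s ^ 2 * (2 * π)) :=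
    mul_le_mul_of_nonneg_left e3 (by positivity)
  have e5 : (1 / (2 * π)) * (ε / 2 * ∫ t, pk0 z t * g t ∂cm + (1 - ‖z‖ ^ 2) / s ^ 2 * (2 * π)) =
      ε / 2 * hx g z + (1 - ‖z‖ ^ 2) / s ^ 2 := by
    rw [hx_eq hhzd hz hgm hgabs]
    field_simp
  have e6 : (1 - ‖z‖ ^ 2) / s ^ 2 = ε / 2 * (2 / (ε * s ^ 2) * (1 - ‖z‖ ^ 2)) := by
    field_simp
  have e7 := mul_le_mul_of_nonneg_left hKz (by positivity : (0 : ℝ) ≤ ε / 2)
  rw [← e6] at e7
  linarith

end Pool.Agent.FBM
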