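import Pool.Agent.FBM.StmtH

/-!
# FLU: the flux through circles near the boundary is at least `π - η`
-/

open MeasureTheory Set Filter Topology
open scoped Real

namespace Pool.Agent.FBM

namespace HFLU

lemma ci_cont : Continuous ci := by
  unfold ci
  fun_prop

lemma ci_norm (t : ℝ) : ‖ci t‖ = 1 := Complex.norm_exp_ofReal_mul_I t

lemma ci_re (t : ℝ) : (ci t).re = Real.cos t := Complex.exp_ofReal_mul_I_re t

lemma bv_cont {f : ℝ → ℝ} {b : ℝ → ℂ} (h : BdH f b) : Continuous (bv f) := by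
  have h1 : Continuous (fun t => Fx f (ci t)) :=
    h.cont.comp_continuous ci_cont fun t => by
      rw [mem_closedBall_zero_iff, ci_norm]
  exact Complex.continuous_re.comp h1

/-- periodic functions integrable over one period are integrable over every interval -/
lemma ii_of_per {b : ℝ → ℂ} (hp : Function.Periodic b (2 * π)) (hi : Integrable b cm)
    (x y : ℝ) : IntervalIntegrable b volume x y := by
  refine hp.intervalIntegrable (t := -π) (by positivity) ?_ x y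
  have e : -π + 2 * π = π := by ring
  rw [e, intervalIntegrable_iff_integrableOn_Ioc_of_le (by linarith [Real.pi_pos])]
  exact hi

/-- on side 2 the points are far from `1` -/
lemma far {t : ℝ} (h1 : 2 * π / 3 ≤ t) (h2 : t ≤ 4 * π / 3) : 1 / 2 ≤ ‖ci t - 1‖ := by
  have hc : Real.cos t ≤ 0 := by
    refine Real.cos_nonpos_of_pi_div_two_le_of_le ?_ ?_
    · linarith [Real.pi_pos]
    · linarith [Real.pi_pos]
  have h3 : |(ci t - 1).re| ≤ ‖ci t - 1‖ := Complex.abs_re_le_norm _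
  rw [Complex.sub_re, ci_re, Complex.one_re] at h3
  have h4 : 1 - Real.cos t ≤ |Real.cos t - 1| := by
    rw [abs_sub_comm]
    exact le_abs_self _
  linarith

/-- the quotient -/
lemma quo {s₀ s u : ℝ} (h0 : 0 < s₀) (hs : s₀ ≤ s) (hu : u ^ 2 ≤ s) :
    |u| / s ≤ (1 + 1 / s₀) / 2 := by
  have hs' : 0 < s := lt_of_lt_of_le h0 hs
  have h1 : |u| ≤ (s + 1) / 2 := by
    have h2 : |u| ^ 2 ≤ s := by rwa [sq_abs]
    nlinarith [sq_nonneg (|u| - 1)]
  have h3 : 1 / s ≤ 1 / s₀ := one_div_le_one_div_of_le h0 hs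
  calc |u| / s ≤ ((s + 1) / 2) / s := by
        exact div_le_div_of_nonneg_right h1 hs'.le
    _ = (1 + 1 / s) / 2 := by
        field_simp
    _ ≤ (1 + 1 / s₀) / 2 := by linarith

/-- the bounds of the form `ob` -/
lemma key {s₀ u v d : ℝ} {a b : ℂ} (h0 : 0 < s₀) (hs : s₀ ≤ u ^ 2 + v ^ 2) (hd : 0 ≤ d) :
    |2 * (u * b.re - v * a.re) / (d ^ 2 + (u ^ 2 + v ^ 2))|
        ≤ (1 + 1 / s₀) * (‖a‖ + ‖b‖) ∧
    |2 * (u * b.re - v * a.re) / (d ^ 2 + (u ^ 2 + v ^ 2))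
        - 2 * (u * b.re - v * a.re) / ((0 : ℝ) ^ 2 + (u ^ 2 + v ^ 2))|
      ≤ (1 + 1 / s₀) * (‖a‖ + ‖b‖) * (d ^ 2 / s₀) := by
  set s : ℝ := u ^ 2 + v ^ 2 with hsd
  have hs' : 0 < s := lt_of_lt_of_le h0 hs
  have hu : |u| / s ≤ (1 + 1 / s₀) / 2 := quo h0 hs (by rw [hsd]; nlinarith [sq_nonneg v])
  have hv : |v| / s ≤ (1 + 1 / s₀) / 2 := quo h0 hs (by rw [hsd]; nlinarith [sq_nonneg u])
  have ha : |a.re| ≤ ‖a‖ := Complex.abs_re_le_norm a
  have hb : |b.re| ≤ ‖b‖ := Complex.abs_re_le_norm b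
  have hM : 0 ≤ (1 + 1 / s₀) / 2 := by positivity
  set w : ℝ := u * b.re - v * a.re with hw
  have h1 : |w| / s ≤ (1 + 1 / s₀) / 2 * (‖a‖ + ‖b‖) := by
    have h2 : |w| ≤ |u| * |b.re| + |v| * |a.re| := by
      rw [hw, ← abs_mul, ← abs_mul]
      exact abs_sub _ _
    calc |w| / s ≤ (|u| * |b.re| + |v| * |a.re|) / s := div_le_div_of_nonneg_right h2 hs'.le
      _ = |u| / s * |b.re| + |v| / s * |a.re| := by ring
      _ ≤ (1 + 1 / s₀) / 2 * ‖b‖ + (1 + 1 / s₀) / 2 * ‖a‖ := by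
          refine add_le_add ?_ ?_
          · exact mul_le_mul hu hb (abs_nonneg _) hM
          · exact mul_le_mul hv ha (abs_nonneg _) hM
      _ = (1 + 1 / s₀) / 2 * (‖a‖ + ‖b‖) := by ring
  have hd2 : 0 ≤ d ^ 2 := sq_nonneg d
  have hds : 0 < d ^ 2 + s := by linarith
  have h3 : |2 * w / (d ^ 2 + s)| ≤ 2 * (|w| / s) := by
    rw [abs_div, abs_mul, abs_two, abs_of_pos hds, mul_div_assoc]
    refine mul_le_mul_of_nonneg_left ?_ (by norm_num)
    exact div_le_div_of_nonneg_left (abs_nonneg _) hs' (by linarith)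
  refine ⟨?_, ?_⟩
  · calc |2 * w / (d ^ 2 + s)| ≤ 2 * (|w| / s) := h3
      _ ≤ 2 * ((1 + 1 / s₀) / 2 * (‖a‖ + ‖b‖)) := by linarith
      _ = (1 + 1 / s₀) * (‖a‖ + ‖b‖) := by ring
  · have e : 2 * w / (d ^ 2 + s) - 2 * w / ((0 : ℝ) ^ 2 + s) =
        -(2 * (w / s) * (d ^ 2 / (d ^ 2 + s))) := by
      field_simp
      ring
    have h4 : d ^ 2 / (d ^ 2 + s) ≤ d ^ 2 / s₀ :=
      div_le_div_of_nonneg_left hd2 h0 (by linarith)
    have h5 : 0 ≤ d ^ 2 / (d ^ 2 + s) := div_nonneg hd2 hds.le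
    rw [e, abs_neg, abs_mul, abs_mul, abs_two, abs_div, abs_of_pos hs', abs_of_nonneg h5]
    refine mul_le_mul ?_ h4 h5 (by positivity)
    linarith

end HFLU

open HFLU in
/-- FLU: the flux. -/
theorem t_H_flu (hsid : Stmt_H_sid) (harg : Stmt_H_arg) (hmin : Stmt_H_min)
    (homl : Stmt_H_oml) : Stmt_H_flu := by
  intro y lam T b hc hb η hη
  obtain ⟨ρ, hρ, hρ'⟩ := hmin y lam T b hc hb (1 / 2) (by norm_num)
  have h0 := harg y lam T b hc hb
  set u : ℝ → ℝ := bv (y 0) with hu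
  set v : ℝ → ℝ := bv (y 1) with hv
  have huc : Continuous u := bv_cont (hb 0)
  have hvc : Continuous v := bv_cont (hb 1)
  set s₀ : ℝ := ρ ^ 2 / 2 with hs₀
  have hs₀' : 0 < s₀ := by positivity
  have hle : 2 * π / 3 ≤ 4 * π / 3 := by linarith [Real.pi_pos]
  -- the lower bound on side 2
  have hs : ∀ t : ℝ, 2 * π / 3 ≤ t → t ≤ 4 * π / 3 → s₀ ≤ u t ^ 2 + v t ^ 2 := by
    intro t h1 h2
    have h3 : ρ ≤ u t + v t := hρ' (ci t) (ci_norm t).le (far h1 h2)
    rw [hs₀]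
    nlinarith [sq_nonneg (u t - v t)]
  -- integrability on side 2
  have ia := ii_of_per (hb 0).per (hb 0).int (2 * π / 3) (4 * π / 3)
  have ib := ii_of_per (hb 1).per (hb 1).int (2 * π / 3) (4 * π / 3)
  have ig : IntervalIntegrable (fun t => ‖b 0 t‖ + ‖b 1 t‖) volume (2 * π / 3) (4 * π / 3) :=
    ia.norm.add ib.norm
  have hob : ∀ d : ℝ, 0 ≤ d → IntervalIntegrable (fun t => ob d u v (b 0) (b 1) t) volume
      (2 * π / 3) (4 * π / 3) := by
    intro d hd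
    rw [intervalIntegrable_iff_integrableOn_Ioc_of_le hle] at ia ib ig ⊢
    refine Integrable.mono' (ig.const_mul (1 + 1 / s₀)) ?_ ?_
    · have m1 := Complex.continuous_re.comp_aestronglyMeasurable ia.aestronglyMeasurable
      have m2 := Complex.continuous_re.comp_aestronglyMeasurable ib.aestronglyMeasurable
      have n1 := huc.aestronglyMeasurable (μ := volume.restrict (Ioc (2 * π / 3) (4 * π / 3)))
      have n2 := hvc.aestronglyMeasurable (μ := volume.restrict (Ioc (2 * π / 3) (4 * π / 3)))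
      have n3 : AEStronglyMeasurable (fun t => d ^ 2 + (u t ^ 2 + v t ^ 2))
          (volume.restrict (Ioc (2 * π / 3) (4 * π / 3))) :=
        (continuous_const.add ((huc.pow 2).add (hvc.pow 2))).aestronglyMeasurable
      have n4 : AEStronglyMeasurable (fun t => 2 * (u t * (b 1 t).re - v t * (b 0 t).re))
          (volume.restrict (Ioc (2 * π / 3) (4 * π / 3))) :=
        ((n1.mul m2).sub (n2.mul m1)).const_mul 2
      exact (n4.aemeasurable.div n3.aemeasurable).aestronglyMeasurable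
    · refine (ae_restrict_iff' measurableSet_Ioc).2 (Eventually.of_forall fun t ht => ?_)
      rw [Real.norm_eq_abs]
      exact (key hs₀' (hs t ht.1.le ht.2) hd).1
  -- the difference
  set C : ℝ := ∫ t in (2 * π / 3)..(4 * π / 3), (1 + 1 / s₀) * (‖b 0 t‖ + ‖b 1 t‖) / s₀ with hC
  have hC0 : 0 ≤ C := by
    refine intervalIntegral.integral_nonneg hle fun t _ => ?_
    positivity
  have hdiff : ∀ d : ℝ, 0 < d →
      |(∫ t in (2 * π / 3)..(4 * π / 3), ob d u v (b 0) (b 1) t) - -π| ≤ C * d ^ 2 := by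
    intro d hd
    rw [← h0, ← intervalIntegral.integral_sub (hob d hd.le) (hob 0 le_rfl), ← Real.norm_eq_abs]
    have e : C * d ^ 2 = ∫ t in (2 * π / 3)..(4 * π / 3),
        (1 + 1 / s₀) * (‖b 0 t‖ + ‖b 1 t‖) * (d ^ 2 / s₀) := by
      rw [hC, ← intervalIntegral.integral_mul_const]
      refine intervalIntegral.integral_congr fun t _ => ?_
      change (1 + 1 / s₀) * (‖b 0 t‖ + ‖b 1 t‖) / s₀ * d ^ 2 =
        (1 + 1 / s₀) * (‖b 0 t‖ + ‖b 1 t‖) * (d ^ 2 / s₀)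
      ring
    rw [e]
    refine intervalIntegral.norm_integral_le_of_norm_le hle
      (Eventually.of_forall fun t ht => ?_) ((ig.const_mul _).mul_const _)
    rw [Real.norm_eq_abs]
    exact (key hs₀' (hs t ht.1.le ht.2) hd.le).2
  refine ⟨min 1 (η / (2 * (C + 1))), by positivity, fun d hd hd' => ?_⟩
  have hd1 : d < 1 := lt_of_lt_of_le hd' (min_le_left _ _)
  have hd2 : d < η / (2 * (C + 1)) := lt_of_lt_of_le hd' (min_le_right _ _)
  have hCd : C * d ^ 2 ≤ η / 2 := by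
    have h1 : (C + 1) * d ≤ η / 2 := by
      rw [lt_div_iff₀ (by positivity)] at hd2
      nlinarith
    have h2 : C * d ^ 2 ≤ (C + 1) * d := by
      have h3 : d ^ 2 ≤ d := by nlinarith
      have h4 : C * d ^ 2 ≤ C * d := mul_le_mul_of_nonneg_left h3 hC0
      nlinarith
    linarith
  have hI := hdiff d hd
  have hS := hsid y b hc.el.oct hb d hd
  have hL := homl (y 0) (y 1) (b 0) (b 1) (hb 0) (hb 1) d hd
  have hev := (Metric.tendsto_nhds.1 hL) (η / 2) (by positivity)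
  have hpos : ∀ᶠ r : ℝ in 𝓝[<] (1 : ℝ), 0 < r := by
    have : ∀ᶠ r : ℝ in 𝓝 (1 : ℝ), 0 < r := lt_mem_nhds one_pos
    exact this.filter_mono nhdsWithin_le_nhds
  have hlt : ∀ᶠ r : ℝ in 𝓝[<] (1 : ℝ), r < 1 := eventually_mem_nhdsWithin
  obtain ⟨r, hr1, hr2, hr3⟩ := (hev.and (hpos.and hlt)).exists
  refine ⟨r, hr2, hr3, ?_⟩
  rw [hS, Real.dist_eq] at hr1
  have h6 : |(∫ t, om d (hz (y 0)) (hz (y 1)) r t ∂cm) - -π| ≤ η := by
    have h7 := abs_sub_le (∫ t, om d (hz (y 0)) (hz (y 1)) r t ∂cm)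
      (∫ t in (2 * π / 3)..(4 * π / 3), ob d u v (b 0) (b 1) t) (-π)
    linarith [hr1.le]
  have h8 := (abs_le.1 h6).2
  have h9 := neg_abs_le (∫ t, om d (hz (y 0)) (hz (y 1)) r t ∂cm)
  have h10 : -(∫ t, om d (hz (y 0)) (hz (y 1)) r t ∂cm) ≤
      |∫ t, om d (hz (y 0)) (hz (y 1)) r t ∂cm| := neg_le_abs _
  linarith

end Pool.Agent.FBM
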