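import Pool.Agent.FBM.StmtH

/-!
# FBM, block H, GAP: the energy gap bounds the Picone defect and the mixed energies
-/

open MeasureTheory Set Filter Topology
open scoped Real

namespace Pool.Agent.FBM

namespace HGAP

lemma int_lam {lam f : ℝ → ℝ} (hl : Integrable lam cm) (hm : Measurable f) {C : ℝ}
    (hC : ∀ t, |f t| ≤ C) : Integrable (fun t => lam t * f t) cm := by
  refine (hl.norm.mul_const C).mono' (hl.aestronglyMeasurable.mul hm.aestronglyMeasurable)
    (Eventually.of_forall fun t => ?_)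
  rw [norm_mul]
  exact mul_le_mul_of_nonneg_left (hC t) (norm_nonneg _)

lemma abs_le_one {y : Fin 3 → ℝ → ℝ} (h0 : ∀ i t, 0 ≤ y i t) (h1 : ∀ t, ∑ i, y i t ^ 2 ≤ 1)
    (i : Fin 3) (t : ℝ) : |y i t| ≤ 1 := by
  have h2 : y i t ^ 2 ≤ ∑ j, y j t ^ 2 :=
    Finset.single_le_sum (f := fun j => y j t ^ 2) (fun j _ => sq_nonneg (y j t))
      (Finset.mem_univ i)
  rw [abs_of_nonneg (h0 i t)]
  nlinarith [h0 i t, h1 t]

lemma en_le_ven (y : Fin 3 → ℝ → ℝ) (i : Fin 3) : en (y i) (y i) ≤ ven y y :=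
  Finset.single_le_sum (f := fun j => en (y j) (y j)) (fun j _ => en_self_nonneg (y j))
    (Finset.mem_univ i)

end HGAP

open HGAP

theorem t_H_gap (hpic : Stmt_H_pic) (hcs : Stmt_H_cs) (hadm : Stmt_H_adm) (hnz : Stmt_H_nz)
    (hdfc : Stmt_H_dfc) (hprod : Stmt_A_prod) : Stmt_H_gap := by
  intro y hy m p hp hTm X lam T hc
  have hel := hc.el
  have hEX : ∀ i, FE (X i) := hel.oct.adm.fe
  have hEy : ∀ i, FE (y i) := hy.adm.fe
  obtain ⟨hz, hone⟩ := hadm y hy m p hp
  have hnzX := hnz (Dcfg m p.1 p.2) X lam T (Or.inr ⟨m, p, hp, rfl⟩) hc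
  have hzero : ∀ i, ∀ᵐ t ∂cm, t ∈ (Dcfg m p.1 p.2).Z i → y i t = 0 :=
    fun i => Eventually.of_forall (hz i)
  have hy1 : ∀ i t, |y i t| ≤ 1 := abs_le_one hy.nonneg hy.le_one
  have hyy : ∀ i t, |y i t * y i t| ≤ 1 := by
    intro i t
    rw [abs_mul]
    nlinarith [hy1 i t, abs_nonneg (y i t)]
  have hint : ∀ i, Integrable (fun t => lam t * (y i t * y i t)) cm := fun i =>
    int_lam hel.lam_int ((hEy i).meas.mul (hEy i).meas) (hyy i)
  have hsum : ∑ i, QQ lam (y i) (y i) = ven y y - ven X X := by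
    unfold QQ
    rw [Finset.sum_sub_distrib, ← integral_finsetSum Finset.univ (fun i _ => hint i)]
    have e1 : ∫ t, ∑ i, lam t * (y i t * y i t) ∂cm = ∫ t, lam t ∂cm := by
      refine integral_congr_ae ?_
      filter_upwards [hone] with t ht
      by_cases hH : t ∈ (Dcfg m p.1 p.2).H
      · have h1 := ht hH
        rw [← Finset.mul_sum]
        have h2 : ∑ i, y i t * y i t = 1 := by
          rw [← h1]
          refine Finset.sum_congr rfl fun i _ => ?_
          ring
        rw [h2, mul_one]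
      · rw [hel.lam_off t hH]
        simp
    rw [e1, hel.lam_tot]
    rfl
  have hq : ∀ i, 0 ≤ QQ lam (y i) (y i) := fun i =>
    (hcs (Dcfg m p.1 p.2) X lam T hTm hel i (hnzX i) (y i) (y i) (hEy i) (hEy i) (hzero i)
      (hzero i)).1
  have hqe : ∀ i, QQ lam (y i) (y i) ≤ ven y y - ven X X := by
    intro i
    rw [← hsum]
    exact Finset.single_le_sum (f := fun j => QQ lam (y j) (y j)) (fun j _ => hq j)
      (Finset.mem_univ i)
  have he0 : 0 ≤ ven y y - ven X X := (hq 0).trans (hqe 0)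
  refine ⟨he0, fun i => ?_, fun i => ?_⟩
  · refine le_trans ?_ (hqe i)
    have h1 := hpic (Dcfg m p.1 p.2) X lam T hTm hel i (hnzX i) (y i) (hEy i) (hzero i)
    have e2 : ∀ t, lam t * y i t ^ 2 = lam t * (y i t * y i t) := fun t => by ring
    simp only [e2] at h1
    exact h1
  · have hd := hdfc X hEX hel.oct.le_one
    have hgE : FE (fun t => y i t * dfc X t) := (hEy i).mul hd.1
    have hgz : ∀ᵐ t ∂cm, t ∈ (Dcfg m p.1 p.2).Z i → y i t * dfc X t = 0 := by
      filter_upwards [hzero i] with t ht hZ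
      rw [ht hZ, zero_mul]
    have h1 := hcs (Dcfg m p.1 p.2) X lam T hTm hel i (hnzX i) (y i)
      (fun t => y i t * dfc X t) (hEy i) hgE (hzero i) hgz
    have e3 : QQ lam (y i) (fun t => y i t * dfc X t) = en (y i) (fun t => y i t * dfc X t) := by
      unfold QQ
      have : ∫ t, lam t * (y i t * (y i t * dfc X t)) ∂cm = 0 := by
        rw [← integral_zero ℝ ℝ (μ := cm)]
        refine integral_congr_ae ?_
        filter_upwards [hel.oct.adm.one] with t ht
        by_cases hH : t ∈ (Dcfg m p.1 p.2).H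
        · have h2 := ht hH
          have h3 : dfc X t = 0 := by unfold dfc; linarith
          rw [h3]; ring
        · rw [hel.lam_off t hH]; ring
      rw [this, sub_zero]
    have h4 : QQ lam (fun t => y i t * dfc X t) (fun t => y i t * dfc X t)
        ≤ en (fun t => y i t * dfc X t) (fun t => y i t * dfc X t) := by
      unfold QQ
      have : 0 ≤ ∫ t, lam t * ((y i t * dfc X t) * (y i t * dfc X t)) ∂cm :=
        integral_nonneg fun t => mul_nonneg (hel.lam_nonneg t) (mul_self_nonneg _)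
      linarith
    have hd1 : ∀ t, |dfc X t| ≤ 1 := fun t => by
      rw [abs_of_nonneg (hd.2.1 t).1]; exact (hd.2.1 t).2
    have h5 := hprod (y i) (dfc X) (hEy i) hd.1 (hy1 i) hd1
    have h6 : Real.sqrt (en (y i) (y i)) ≤ Real.sqrt (ven y y) :=
      Real.sqrt_le_sqrt (en_le_ven y i)
    have h7 : Real.sqrt (en (dfc X) (dfc X)) ≤ 2 * Real.sqrt (ven X X) := by
      have h8 : Real.sqrt (en (dfc X) (dfc X)) ≤ Real.sqrt (4 * ven X X) :=
        Real.sqrt_le_sqrt hd.2.2
      have h9 : Real.sqrt (4 * ven X X) = 2 * Real.sqrt (ven X X) := by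
        rw [Real.sqrt_mul (by norm_num : (0 : ℝ) ≤ 4)]
        congr 1
        rw [show (4 : ℝ) = 2 ^ 2 by norm_num, Real.sqrt_sq (by norm_num)]
      rw [h9] at h8
      exact h8
    have h10 : (Real.sqrt (en (y i) (y i)) + Real.sqrt (en (dfc X) (dfc X))) ^ 2
        ≤ (Real.sqrt (ven y y) + 2 * Real.sqrt (ven X X)) ^ 2 :=
      pow_le_pow_left₀ (add_nonneg (Real.sqrt_nonneg _) (Real.sqrt_nonneg _))
        (add_le_add h6 h7) 2
    have h11 := h1.2.2
    rw [e3] at h11
    refine h11.trans ?_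
    exact mul_le_mul (hqe i) (h4.trans (h5.trans h10)) h1.2.1 he0

end Pool.Agent.FBM
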