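import Pool.Agent.FBM.StmtH

/-!
# FBM, block H: Green's formula in polar coordinates
-/

open MeasureTheory Set Filter Topology
open scoped Real

namespace Pool.Agent.FBM

namespace HGRD

lemma dci (t : ℝ) : HasDerivAt ci (Complex.I * ci t) t := by
  have h1 : HasDerivAt (fun u : ℝ => (u : ℂ) * Complex.I) (1 * Complex.I) t :=
    (hasDerivAt_id t).ofReal_comp.mul_const _
  have h2 : HasDerivAt (fun u : ℝ => Complex.exp ((u : ℂ) * Complex.I)) _ t := h1.cexp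
  have e : Complex.exp ((t : ℂ) * Complex.I) * (1 * Complex.I) = Complex.I * ci t := by
    unfold ci; ring
  rw [e] at h2
  exact h2

lemma norm_ci (t : ℝ) : ‖ci t‖ = 1 := by
  unfold ci
  exact Complex.norm_exp_ofReal_mul_I t

lemma mem {s t : ℝ} (hs : |s| < 1) : ((s : ℂ) * ci t) ∈ Metric.ball (0 : ℂ) 1 := by
  rw [mem_ball_zero_iff, norm_mul, norm_ci, Complex.norm_real, mul_one]
  exact hs

lemma dRe {F : ℂ → ℂ} {F' : ℂ} {γ : ℝ → ℂ} {γ' : ℂ} {u : ℝ} (hF : HasDerivAt F F' (γ u))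
    (hγ : HasDerivAt γ γ' u) : HasDerivAt (fun v => (F (γ v)).re) ((F' * γ').re) u :=
  Complex.reCLM.hasFDerivAt.comp_hasDerivAt u (hF.comp u hγ)

lemma dRe2 {F : ℂ → ℂ} {F' : ℂ} {γ w : ℝ → ℂ} {γ' w' : ℂ} {u : ℝ} (hF : HasDerivAt F F' (γ u))
    (hγ : HasDerivAt γ γ' u) (hw : HasDerivAt w w' u) :
    HasDerivAt (fun v => (w v * F (γ v)).re) ((w' * F (γ u) + w u * (F' * γ')).re) u :=
  Complex.reCLM.hasFDerivAt.comp_hasDerivAt u (hw.mul (hF.comp u hγ))

/-- one variable quotient rule in the form used here -/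
lemma dQ {d : ℝ} (hd : 0 < d) {x0 x1 p0 p1 : ℝ → ℝ} {x0' x1' p0' p1' u : ℝ}
    (h0 : HasDerivAt x0 x0' u) (h1 : HasDerivAt x1 x1' u) (k0 : HasDerivAt p0 p0' u)
    (k1 : HasDerivAt p1 p1' u) :
    HasDerivAt (fun v => 2 * (x0 v * p1 v - x1 v * p0 v) / (d ^ 2 + (x0 v ^ 2 + x1 v ^ 2)))
      ((2 * ((x0' * p1 u + x0 u * p1') - (x1' * p0 u + x1 u * p0')) *
        (d ^ 2 + (x0 u ^ 2 + x1 u ^ 2)) - 2 * (x0 u * p1 u - x1 u * p0 u) *
        (2 * x0 u * x0' + 2 * x1 u * x1')) / (d ^ 2 + (x0 u ^ 2 + x1 u ^ 2)) ^ 2) u := by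
  have hD : d ^ 2 + (x0 u ^ 2 + x1 u ^ 2) ≠ 0 := by positivity
  have n1 := ((h0.mul k1).sub (h1.mul k0)).const_mul (2 : ℝ)
  have n2 : HasDerivAt (fun v => d ^ 2 + (x0 v ^ 2 + x1 v ^ 2))
      (2 * x0 u * x0' + 2 * x1 u * x1') u := by
    have := ((h0.pow 2).add (h1.pow 2)).const_add (d ^ 2)
    refine this.congr_deriv ?_
    simp
  exact n1.div n2 hD

variable {F0 F1 : ℂ → ℂ} {d : ℝ}

/-- the radial form -/
noncomputable def rB (d : ℝ) (F0 F1 : ℂ → ℂ) (s t : ℝ) : ℝ :=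
  2 * ((F0 (s * ci t)).re * (ci t * deriv F1 (s * ci t)).re
      - (F1 (s * ci t)).re * (ci t * deriv F0 (s * ci t)).re)
    / (d ^ 2 + rs F0 F1 (s * ci t))

lemma alg (D x0 x1 q0 q1 p0 p1 m0 m1 dd : ℝ) (hDD : D = dd ^ 2 + (x0 ^ 2 + x1 ^ 2)) :
    (2 * ((q0 * p1 + x0 * m1) - (q1 * p0 + x1 * m0)) * D
        - 2 * (x0 * p1 - x1 * p0) * (2 * x0 * q0 + 2 * x1 * q1)) / D ^ 2
      - (2 * ((p0 * q1 + x0 * m1) - (p1 * q0 + x1 * m0)) * D
        - 2 * (x0 * q1 - x1 * q0) * (2 * x0 * p0 + 2 * x1 * p1)) / D ^ 2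
      = 4 * dd ^ 2 / D ^ 2 * (q0 * p1 - q1 * p0) := by
  rw [← sub_div, div_mul_eq_mul_div]
  congr 1
  rw [hDD]; ring

lemma wedge (c P Q : ℂ) (s : ℝ) (hc : ‖c‖ = 1) :
    (P * c).re * (Complex.I * (s * c) * Q).re - (Q * c).re * (Complex.I * (s * c) * P).re
      = s * (P * (starRingEnd ℂ) Q).im := by
  have h : c.re ^ 2 + c.im ^ 2 = 1 := by
    have := Complex.sq_norm c
    rw [hc, Complex.normSq_apply] at this
    nlinarith
  simp only [Complex.mul_re, Complex.mul_im, Complex.I_re, Complex.I_im, Complex.ofReal_re,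
    Complex.ofReal_im, Complex.conj_re, Complex.conj_im]
  linear_combination (s * (P.im * Q.re - P.re * Q.im)) * h

/-- the pointwise identity -/
lemma key (h0 : DifferentiableOn ℂ F0 (Metric.ball 0 1))
    (h1 : DifferentiableOn ℂ F1 (Metric.ball 0 1)) (hd : 0 < d) {s t : ℝ} (hs : |s| < 1) :
    ∃ a b : ℝ, HasDerivAt (fun u => om d F0 F1 u t) a s ∧ HasDerivAt (fun u => rB d F0 F1 s u) b t ∧
      a - b = s * (kd d (rs F0 F1 (s * ci t)) * jc F0 F1 (s * ci t)) := by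
  have hz := mem (t := t) hs
  have hnb : Metric.ball (0 : ℂ) 1 ∈ 𝓝 ((s : ℂ) * ci t) := Metric.isOpen_ball.mem_nhds hz
  have a0 : HasDerivAt F0 (deriv F0 (s * ci t)) (s * ci t) := (h0.differentiableAt hnb).hasDerivAt
  have a1 : HasDerivAt F1 (deriv F1 (s * ci t)) (s * ci t) := (h1.differentiableAt hnb).hasDerivAt
  have b0 : HasDerivAt (deriv F0) (deriv (deriv F0) (s * ci t)) (s * ci t) :=
    ((h0.deriv Metric.isOpen_ball).differentiableAt hnb).hasDerivAt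
  have b1 : HasDerivAt (deriv F1) (deriv (deriv F1) (s * ci t)) (s * ci t) :=
    ((h1.deriv Metric.isOpen_ball).differentiableAt hnb).hasDerivAt
  -- the two curves
  have g1 : HasDerivAt (fun u : ℝ => (u : ℂ) * ci t) (1 * ci t) s :=
    (hasDerivAt_id s).ofReal_comp.mul_const _
  have g2 : HasDerivAt (fun u : ℝ => (s : ℂ) * ci u) ((s : ℂ) * (Complex.I * ci t)) t :=
    (dci t).const_mul _
  have w1 : HasDerivAt (fun u : ℝ => Complex.I * ((u : ℂ) * ci t)) (Complex.I * (1 * ci t)) s :=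
    g1.const_mul _
  -- radial direction
  have A0 := dRe (u := s) (γ := fun u : ℝ => (u : ℂ) * ci t) a0 g1
  have A1 := dRe (u := s) (γ := fun u : ℝ => (u : ℂ) * ci t) a1 g1
  have P0 := dRe2 (u := s) (γ := fun u : ℝ => (u : ℂ) * ci t) b0 g1 w1
  have P1 := dRe2 (u := s) (γ := fun u : ℝ => (u : ℂ) * ci t) b1 g1 w1
  have R := dQ hd A0 A1 P0 P1
  -- angular direction
  have B0 := dRe (u := t) (γ := fun u : ℝ => (s : ℂ) * ci u) a0 g2
  have B1 := dRe (u := t) (γ := fun u : ℝ => (s : ℂ) * ci u) a1 g2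
  have Q0 := dRe2 (u := t) (γ := fun u : ℝ => (s : ℂ) * ci u) b0 g2 (dci t)
  have Q1 := dRe2 (u := t) (γ := fun u : ℝ => (s : ℂ) * ci u) b1 g2 (dci t)
  have S := dQ hd B0 B1 Q0 Q1
  refine ⟨_, _, R, S, ?_⟩
  have hm0 : (Complex.I * ci t * deriv F0 (s * ci t) +
      ci t * (deriv (deriv F0) (s * ci t) * ((s : ℂ) * (Complex.I * ci t)))).re
      = (Complex.I * (1 * ci t) * deriv F0 (s * ci t) +
      Complex.I * (s * ci t) * (deriv (deriv F0) (s * ci t) * (1 * ci t))).re := by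
    congr 1; ring
  have hm1 : (Complex.I * ci t * deriv F1 (s * ci t) +
      ci t * (deriv (deriv F1) (s * ci t) * ((s : ℂ) * (Complex.I * ci t)))).re
      = (Complex.I * (1 * ci t) * deriv F1 (s * ci t) +
      Complex.I * (s * ci t) * (deriv (deriv F1) (s * ci t) * (1 * ci t))).re := by
    congr 1; ring
  rw [hm0, hm1]
  have hq0 : (ci t * deriv F0 (s * ci t)).re = (deriv F0 (s * ci t) * (1 * ci t)).re := by
    congr 1; ring
  have hq1 : (ci t * deriv F1 (s * ci t)).re = (deriv F1 (s * ci t) * (1 * ci t)).re := by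
    congr 1; ring
  have hp0 : (deriv F0 (s * ci t) * ((s : ℂ) * (Complex.I * ci t))).re
      = (Complex.I * (s * ci t) * deriv F0 (s * ci t)).re := by
    congr 1; ring
  have hp1 : (deriv F1 (s * ci t) * ((s : ℂ) * (Complex.I * ci t))).re
      = (Complex.I * (s * ci t) * deriv F1 (s * ci t)).re := by
    congr 1; ring
  rw [hq0, hq1, hp0, hp1]
  rw [alg _ _ _ _ _ _ _ _ _ d rfl]
  have hw := wedge (ci t) (deriv F0 (s * ci t)) (deriv F1 (s * ci t)) s (norm_ci t)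
  rw [one_mul, hw]
  unfold kd rs jc
  ring

/-- polar coordinates -/
noncomputable def zz (p : ℝ × ℝ) : ℂ := (p.1 : ℂ) * ci p.2

lemma zz_diff : Differentiable ℝ zz := by
  have h1 : Differentiable ℝ (fun p : ℝ × ℝ => (p.1 : ℂ)) :=
    Complex.ofRealCLM.differentiable.comp differentiable_fst
  have h2 : Differentiable ℝ (fun p : ℝ × ℝ => ci p.2) :=
    fun p => (dci p.2).differentiableAt.comp p differentiableAt_snd
  exact h1.mul h2

lemma ci_diff : Differentiable ℝ (fun p : ℝ × ℝ => ci p.2) :=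
  fun p => (dci p.2).differentiableAt.comp p differentiableAt_snd

lemma comp_diff {F : ℂ → ℂ} (hF : DifferentiableOn ℂ F (Metric.ball 0 1)) {p : ℝ × ℝ}
    (hp : |p.1| < 1) : DifferentiableAt ℝ (fun q => F (zz q)) p := by
  have hz : zz p ∈ Metric.ball (0 : ℂ) 1 := mem hp
  have h1 : DifferentiableAt ℂ F (zz p) := hF.differentiableAt (Metric.isOpen_ball.mem_nhds hz)
  exact (h1.restrictScalars ℝ).comp p (zz_diff p)

lemma re_diff {f : ℝ × ℝ → ℂ} {p : ℝ × ℝ} (hf : DifferentiableAt ℝ f p) :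
    DifferentiableAt ℝ (fun q => (f q).re) p :=
  Complex.reCLM.differentiableAt.comp p hf

lemma om_diff (h0 : DifferentiableOn ℂ F0 (Metric.ball 0 1))
    (h1 : DifferentiableOn ℂ F1 (Metric.ball 0 1)) (hd : 0 < d) {p : ℝ × ℝ} (hp : |p.1| < 1) :
    DifferentiableAt ℝ (fun q : ℝ × ℝ => om d F0 F1 q.1 q.2) p := by
  have e0 := re_diff (comp_diff h0 hp)
  have e1 := re_diff (comp_diff h1 hp)
  have f0 := comp_diff (h0.deriv Metric.isOpen_ball) hp
  have f1 := comp_diff (h1.deriv Metric.isOpen_ball) hp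
  have hI : DifferentiableAt ℝ (fun q : ℝ × ℝ => Complex.I * zz q) p :=
    (zz_diff p).const_mul Complex.I
  have g0 := re_diff (hI.mul f0)
  have g1 := re_diff (hI.mul f1)
  have hD : DifferentiableAt ℝ
      (fun q => d ^ 2 + ((F0 (zz q)).re ^ 2 + (F1 (zz q)).re ^ 2)) p :=
    ((e0.pow 2).add (e1.pow 2)).const_add (d ^ 2)
  have hN := (((e0.mul g1).sub (e1.mul g0)).const_mul (2 : ℝ)).mul (hD.inv (by positivity))
  refine hN.congr_of_eventuallyEq (Eventually.of_forall fun q => ?_)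
  show om d F0 F1 q.1 q.2 = _
  unfold om rs
  rw [div_eq_mul_inv]
  rfl

lemma rB_diff (h0 : DifferentiableOn ℂ F0 (Metric.ball 0 1))
    (h1 : DifferentiableOn ℂ F1 (Metric.ball 0 1)) (hd : 0 < d) {p : ℝ × ℝ} (hp : |p.1| < 1) :
    DifferentiableAt ℝ (fun q : ℝ × ℝ => rB d F0 F1 q.1 q.2) p := by
  have e0 := re_diff (comp_diff h0 hp)
  have e1 := re_diff (comp_diff h1 hp)
  have f0 := comp_diff (h0.deriv Metric.isOpen_ball) hp
  have f1 := comp_diff (h1.deriv Metric.isOpen_ball) hp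
  have g0 := re_diff ((ci_diff p).mul f0)
  have g1 := re_diff ((ci_diff p).mul f1)
  have hD : DifferentiableAt ℝ
      (fun q => d ^ 2 + ((F0 (zz q)).re ^ 2 + (F1 (zz q)).re ^ 2)) p :=
    ((e0.pow 2).add (e1.pow 2)).const_add (d ^ 2)
  have hN := (((e0.mul g1).sub (e1.mul g0)).const_mul (2 : ℝ)).mul (hD.inv (by positivity))
  refine hN.congr_of_eventuallyEq (Eventually.of_forall fun q => ?_)
  show rB d F0 F1 q.1 q.2 = _
  unfold rB rs
  rw [div_eq_mul_inv]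
  rfl

lemma fd_eq (h0 : DifferentiableOn ℂ F0 (Metric.ball 0 1))
    (h1 : DifferentiableOn ℂ F1 (Metric.ball 0 1)) (hd : 0 < d) {p : ℝ × ℝ} (hp : |p.1| < 1) :
    fderiv ℝ (fun q : ℝ × ℝ => om d F0 F1 q.1 q.2) p (1, 0)
      + (-fderiv ℝ (fun q : ℝ × ℝ => rB d F0 F1 q.1 q.2) p) (0, 1)
      = p.1 * (kd d (rs F0 F1 (p.1 * ci p.2)) * jc F0 F1 (p.1 * ci p.2)) := by
  obtain ⟨s, t⟩ := p
  obtain ⟨a, b, ha, hb, hab⟩ := key (t := t) h0 h1 hd hp
  have hA := (om_diff h0 h1 hd hp).hasFDerivAt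
  have hB := (rB_diff h0 h1 hd hp).hasFDerivAt
  have c1 : HasDerivAt (fun u : ℝ => ((u, t) : ℝ × ℝ)) ((1 : ℝ), (0 : ℝ)) s :=
    (hasDerivAt_id s).prodMk (hasDerivAt_const s t)
  have c2 : HasDerivAt (fun u : ℝ => ((s, u) : ℝ × ℝ)) ((0 : ℝ), (1 : ℝ)) t :=
    (hasDerivAt_const t s).prodMk (hasDerivAt_id t)
  have hA' := hA.comp_hasDerivAt s c1
  have hB' := hB.comp_hasDerivAt t c2
  have ea := ha.unique hA'
  have eb := hb.unique hB'
  rw [_root_.neg_apply, ← ea, ← eb, ← sub_eq_add_neg]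
  exact hab

lemma cont (h0 : DifferentiableOn ℂ F0 (Metric.ball 0 1))
    (h1 : DifferentiableOn ℂ F1 (Metric.ball 0 1)) (hd : 0 < d) {K : Set (ℝ × ℝ)}
    (hK : ∀ p ∈ K, |p.1| < 1) :
    ContinuousOn (fun p : ℝ × ℝ => p.1 * (kd d (rs F0 F1 (p.1 * ci p.2))
      * jc F0 F1 (p.1 * ci p.2))) K := by
  have hz : ContinuousOn zz K := zz_diff.continuous.continuousOn
  have hm : MapsTo zz K (Metric.ball (0 : ℂ) 1) := fun p hp => mem (hK p hp)
  have e0 : ContinuousOn (fun p => F0 (zz p)) K := h0.continuousOn.comp hz hm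
  have e1 : ContinuousOn (fun p => F1 (zz p)) K := h1.continuousOn.comp hz hm
  have f0 : ContinuousOn (fun p => deriv F0 (zz p)) K :=
    (h0.deriv Metric.isOpen_ball).continuousOn.comp hz hm
  have f1 : ContinuousOn (fun p => deriv F1 (zz p)) K :=
    (h1.deriv Metric.isOpen_ball).continuousOn.comp hz hm
  have r0 : ContinuousOn (fun p => (F0 (zz p)).re) K := Complex.continuous_re.comp_continuousOn e0
  have r1 : ContinuousOn (fun p => (F1 (zz p)).re) K := Complex.continuous_re.comp_continuousOn e1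
  have hk : ContinuousOn (fun p => kd d (rs F0 F1 (zz p))) K := by
    unfold kd rs
    refine ContinuousOn.div continuousOn_const
      ((continuousOn_const.add ((r0.pow 2).add (r1.pow 2))).pow 2) ?_
    intro p _
    positivity
  have hj : ContinuousOn (fun p => jc F0 F1 (zz p)) K := by
    unfold jc
    exact Complex.continuous_im.comp_continuousOn
      (f0.mul (Complex.continuous_conj.comp_continuousOn f1))
  exact continuousOn_fst.mul (hk.mul hj)

lemma cm_int (g : ℝ → ℝ) : ∫ t, g t ∂cm = ∫ t in (-π)..π, g t := by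
  rw [intervalIntegral.integral_of_le (by linarith [Real.pi_pos])]
  rfl

lemma ci_pi : ci (-π) = ci π := by
  unfold ci
  rw [Complex.exp_pi_mul_I]
  push_cast
  rw [neg_mul, Complex.exp_neg, Complex.exp_pi_mul_I]
  norm_num

end HGRD

/-- Green's formula in polar coordinates. -/
theorem t_H_grd : Stmt_H_grd := by
  intro F0 F1 h0 h1 d r hd hr0 hr1
  have hK : ∀ p ∈ uIcc (0 : ℝ) r ×ˢ uIcc (-π) π, |p.1| < 1 := by
    rintro ⟨s, t⟩ ⟨hs, _⟩
    rw [uIcc_of_le hr0.le] at hs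
    show |s| < 1
    rw [abs_lt]
    constructor <;> linarith [hs.1, hs.2]
  have hK' : ∀ p ∈ (Ioo (min (0 : ℝ) r) (max 0 r) ×ˢ Ioo (min (-π) π) (max (-π) π)) \ (∅ : Set (ℝ × ℝ)),
      |p.1| < 1 := by
    rintro ⟨s, t⟩ ⟨⟨hs, _⟩, _⟩
    rw [min_eq_left hr0.le, max_eq_right hr0.le] at hs
    show |s| < 1
    rw [abs_lt]
    constructor <;> linarith [hs.1, hs.2]
  have hcomp : IsCompact (uIcc (0 : ℝ) r ×ˢ uIcc (-π) π) := isCompact_uIcc.prod isCompact_uIcc
  have hc := HGRD.cont h0 h1 hd hK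
  have main := integral2_divergence_prod_of_hasFDerivAt_off_countable
    (fun q : ℝ × ℝ => om d F0 F1 q.1 q.2) (fun q : ℝ × ℝ => - HGRD.rB d F0 F1 q.1 q.2)
    (fun p => fderiv ℝ (fun q : ℝ × ℝ => om d F0 F1 q.1 q.2) p)
    (fun p => - fderiv ℝ (fun q : ℝ × ℝ => HGRD.rB d F0 F1 q.1 q.2) p)
    0 (-π) r π ∅ countable_empty
    (fun p hp => (HGRD.om_diff h0 h1 hd (hK p hp)).continuousAt.continuousWithinAt)
    (fun p hp => (HGRD.rB_diff h0 h1 hd (hK p hp)).neg.continuousAt.continuousWithinAt)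
    (fun p hp => (HGRD.om_diff h0 h1 hd (hK' p hp)).hasFDerivAt)
    (fun p hp => (HGRD.rB_diff h0 h1 hd (hK' p hp)).hasFDerivAt.neg)
    ((hc.integrableOn_compact hcomp).congr_fun
      (fun p hp => (HGRD.fd_eq h0 h1 hd (hK p hp)).symm) hcomp.measurableSet)
  have hL : ∫ x in (0 : ℝ)..r, ∫ y in (-π)..π,
      (fderiv ℝ (fun q : ℝ × ℝ => om d F0 F1 q.1 q.2) (x, y) (1, 0)
        + (- fderiv ℝ (fun q : ℝ × ℝ => HGRD.rB d F0 F1 q.1 q.2) (x, y)) (0, 1))
      = ∫ s in (0 : ℝ)..r, ∫ t, s * (kd d (rs F0 F1 (s * ci t)) * jc F0 F1 (s * ci t)) ∂cm := by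
    refine intervalIntegral.integral_congr fun x hx => ?_
    rw [HGRD.cm_int]
    refine intervalIntegral.integral_congr fun y hy => ?_
    exact HGRD.fd_eq (p := (x, y)) h0 h1 hd (hK (x, y) ⟨hx, hy⟩)
  rw [← hL]
  refine Eq.trans ?_ main.symm
  have z1 : ∀ x : ℝ, - HGRD.rB d F0 F1 x (-π) = - HGRD.rB d F0 F1 x π := by
    intro x
    unfold HGRD.rB
    rw [HGRD.ci_pi]
  have z2 : ∀ y : ℝ, om d F0 F1 0 y = 0 := by
    intro y
    unfold om
    simp
  rw [HGRD.cm_int]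
  simp only [z1, z2, sub_self, zero_add, intervalIntegral.integral_zero, sub_zero]

end Pool.Agent.FBM
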