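import Pool.Agent.FBM.StmtH

/-!
# FBM, block H: Green's formula on the disc
-/

open MeasureTheory Set Filter Topology
open scoped Real

namespace Pool.Agent.FBM

namespace HGRE

lemma cont (F0 F1 : ℂ → ℂ) (h0 : DifferentiableOn ℂ F0 (Metric.ball 0 1))
    (h1 : DifferentiableOn ℂ F1 (Metric.ball 0 1)) (d : ℝ) (hd : 0 < d) :
    ContinuousOn (fun z => kd d (rs F0 F1 z) * jc F0 F1 z) (Metric.ball 0 1) := by
  have d0 : ContinuousOn (deriv F0) (Metric.ball 0 1) :=
    (h0.deriv Metric.isOpen_ball).continuousOn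
  have d1 : ContinuousOn (deriv F1) (Metric.ball 0 1) :=
    (h1.deriv Metric.isOpen_ball).continuousOn
  have c0 : ContinuousOn F0 (Metric.ball 0 1) := h0.continuousOn
  have c1 : ContinuousOn F1 (Metric.ball 0 1) := h1.continuousOn
  have r0 : ContinuousOn (fun z => (F0 z).re) (Metric.ball 0 1) :=
    Complex.continuous_re.comp_continuousOn c0
  have r1 : ContinuousOn (fun z => (F1 z).re) (Metric.ball 0 1) :=
    Complex.continuous_re.comp_continuousOn c1
  have hrs : ContinuousOn (fun z => rs F0 F1 z) (Metric.ball 0 1) := by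
    unfold rs
    exact (r0.pow 2).add (r1.pow 2)
  have hjc : ContinuousOn (fun z => jc F0 F1 z) (Metric.ball 0 1) := by
    unfold jc
    exact Complex.continuous_im.comp_continuousOn
      (d0.mul (Complex.continuous_conj.comp_continuousOn d1))
  refine ContinuousOn.mul ?_ hjc
  unfold kd
  refine ContinuousOn.div continuousOn_const ((continuousOn_const.add hrs).pow 2) ?_
  intro z _
  have : 0 ≤ rs F0 F1 z := by unfold rs; positivity
  positivity

end HGRE

theorem t_H_gre (hgrp : Stmt_H_grp) (hgrd : Stmt_H_grd) : Stmt_H_gre := by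
  intro F0 F1 h0 h1 d r hd hr hr1
  have hc : ContinuousOn (fun z => kd d (rs F0 F1 z) * jc F0 F1 z) (Metric.closedBall 0 r) :=
    (HGRE.cont F0 F1 h0 h1 d hd).mono (Metric.closedBall_subset_ball hr1)
  refine ⟨?_, ?_⟩
  · exact (hc.integrableOn_compact (isCompact_closedBall 0 r)).mono_set
      Metric.ball_subset_closedBall
  · rw [hgrd F0 F1 h0 h1 d r hd hr hr1, hgrp _ r hr hc]

end Pool.Agent.FBM
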