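import Pool.Agent.FBM.StmtH

/-!
# FBM, block H: polar coordinates on a disc
-/

open MeasureTheory Set Filter Topology
open scoped Real

namespace Pool.Agent.FBM

namespace HGRP

lemma norm_ci (t : ℝ) : ‖ci t‖ = 1 := Complex.norm_exp_ofReal_mul_I t

lemma continuous_ci : Continuous ci := by
  unfold ci
  fun_prop

lemma symm_eq (p : ℝ × ℝ) : Complex.polarCoord.symm p = (p.1 : ℂ) * ci p.2 := by
  rw [Complex.polarCoord_symm_apply]
  unfold ci
  rw [Complex.exp_mul_I]
  push_cast
  rfl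

lemma norm_mul_ci {s : ℝ} (hs : 0 ≤ s) (t : ℝ) : ‖(s : ℂ) * ci t‖ = s := by
  rw [norm_mul, norm_ci, mul_one, Complex.norm_real, Real.norm_eq_abs, abs_of_nonneg hs]

end HGRP

open HGRP

theorem t_H_grp : Stmt_H_grp := by
  intro g r hr hg
  have hint : IntegrableOn (fun p : ℝ × ℝ => p.1 * g ((p.1 : ℂ) * ci p.2))
      (Ioo 0 r ×ˢ Ioo (-π) π) ((volume : Measure ℝ).prod volume) := by
    have hc : ContinuousOn (fun p : ℝ × ℝ => p.1 * g ((p.1 : ℂ) * ci p.2))
        (Icc 0 r ×ˢ Icc (-π) π) := by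
      refine continuousOn_fst.mul (hg.comp ?_ ?_)
      · have h1 : Continuous (fun p : ℝ × ℝ => (p.1 : ℂ) * ci p.2) :=
          (Complex.continuous_ofReal.comp continuous_fst).mul (continuous_ci.comp continuous_snd)
        exact h1.continuousOn
      · rintro ⟨s, t⟩ ⟨hs, -⟩
        rw [mem_closedBall_zero_iff]
        simp only
        rw [norm_mul_ci hs.1]
        exact hs.2
    have hcp : IsCompact (Icc (0 : ℝ) r ×ˢ Icc (-π) π) := isCompact_Icc.prod isCompact_Icc
    exact (hc.integrableOn_compact hcp).mono_set (prod_mono Ioo_subset_Icc_self Ioo_subset_Icc_self)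
  have h1 : ∫ z in Metric.ball (0 : ℂ) r, g z
      = ∫ p in Ioo 0 r ×ˢ Ioo (-π) π, p.1 * g ((p.1 : ℂ) * ci p.2)
        ∂((volume : Measure ℝ).prod volume) := by
    rw [← integral_indicator Metric.isOpen_ball.measurableSet,
      ← Complex.integral_comp_polarCoord_symm]
    have hm : MeasurableSet (Ioo (0 : ℝ) r ×ˢ Ioo (-π) π) := measurableSet_Ioo.prod measurableSet_Ioo
    have hmt : MeasurableSet polarCoord.target := polarCoord.open_target.measurableSet
    have e1 : ∫ p in polarCoord.target,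
        p.1 • (Metric.ball (0 : ℂ) r).indicator g (Complex.polarCoord.symm p)
        = ∫ p in polarCoord.target, (Ioo (0 : ℝ) r ×ˢ Ioo (-π) π).indicator
          (fun p : ℝ × ℝ => p.1 * g ((p.1 : ℂ) * ci p.2)) p := by
      refine setIntegral_congr_fun hmt ?_
      rintro ⟨s, t⟩ hp
      have hs : 0 < s := hp.1
      have ht : t ∈ Ioo (-π) π := hp.2
      simp only [symm_eq, smul_eq_mul]
      by_cases hsr : s < r
      · rw [indicator_of_mem (show (s : ℂ) * ci t ∈ Metric.ball (0 : ℂ) r by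
          rw [mem_ball_zero_iff, norm_mul_ci hs.le]; exact hsr),
          indicator_of_mem (show (s, t) ∈ Ioo (0 : ℝ) r ×ˢ Ioo (-π) π from ⟨⟨hs, hsr⟩, ht⟩)]
      · rw [indicator_of_notMem (show (s : ℂ) * ci t ∉ Metric.ball (0 : ℂ) r by
          rw [mem_ball_zero_iff, norm_mul_ci hs.le]; exact hsr),
          indicator_of_notMem (show (s, t) ∉ Ioo (0 : ℝ) r ×ˢ Ioo (-π) π from
            fun h => hsr h.1.2), mul_zero]
    rw [e1, setIntegral_indicator hm]
    have e2 : polarCoord.target ∩ (Ioo (0 : ℝ) r ×ˢ Ioo (-π) π) = Ioo (0 : ℝ) r ×ˢ Ioo (-π) π := by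
      apply inter_eq_self_of_subset_right
      rintro ⟨s, t⟩ h
      exact ⟨h.1.1, h.2⟩
    rw [e2]
    rfl
  rw [h1, setIntegral_prod _ hint, intervalIntegral.integral_of_le hr.le,
    integral_Ioc_eq_integral_Ioo]
  refine setIntegral_congr_fun measurableSet_Ioo fun s _ => ?_
  unfold cm
  simp only
  rw [integral_Ioc_eq_integral_Ioo]

end Pool.Agent.FBM
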