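import Pool.Agent.FBM.StmtH

/-!
# HZD: derivative and real part of the Herglotz integral
-/

open MeasureTheory Set Filter Topology
open scoped Real

namespace Pool.Agent.FBM

namespace HHZD

theorem measurable_ci : Measurable ci := by
  have : Continuous ci := by
    unfold ci
    fun_prop
  exact this.measurable

theorem norm_ci (t : ℝ) : ‖ci t‖ = 1 := Complex.norm_exp_ofReal_mul_I t

theorem dist_le {x : ℂ} (t : ℝ) : 1 - ‖x‖ ≤ ‖ci t - x‖ := by
  have h := norm_sub_norm_le (ci t) x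
  rwa [norm_ci] at h

theorem ne {x : ℂ} (hx : ‖x‖ < 1) (t : ℝ) : ci t - x ≠ 0 := by
  rw [← norm_pos_iff]
  have := dist_le (x := x) t
  linarith

/-- The integrand. -/
noncomputable def F (f : ℝ → ℝ) (x : ℂ) (t : ℝ) : ℂ :=
  ((ci t + x) / (ci t - x)) * (f t : ℂ)

/-- Its derivative. -/
noncomputable def F' (f : ℝ → ℝ) (x : ℂ) (t : ℝ) : ℂ :=
  (2 * ci t / (ci t - x) ^ 2) * (f t : ℂ)

theorem meas_F {f : ℝ → ℝ} (hf : Measurable f) (x : ℂ) : Measurable (F f x) :=
  ((measurable_ci.add_const x).div (measurable_ci.sub_const x)).mul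
    (Complex.measurable_ofReal.comp hf)

theorem meas_F' {f : ℝ → ℝ} (hf : Measurable f) (x : ℂ) : Measurable (F' f x) :=
  ((measurable_ci.const_mul 2).div ((measurable_ci.sub_const x).pow_const 2)).mul
    (Complex.measurable_ofReal.comp hf)

theorem norm_F_le {f : ℝ → ℝ} {C : ℝ} (hC : ∀ t, |f t| ≤ C) {x : ℂ} (hx : ‖x‖ < 1) (t : ℝ) :
    ‖F f x t‖ ≤ 2 / (1 - ‖x‖) * C := by
  unfold F
  rw [norm_mul, norm_div, Complex.norm_real, Real.norm_eq_abs]
  have h1 : 0 < 1 - ‖x‖ := by linarith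
  have h2 : 1 - ‖x‖ ≤ ‖ci t - x‖ := dist_le t
  have h3 : ‖ci t + x‖ ≤ 2 := by
    refine (norm_add_le _ _).trans ?_
    rw [norm_ci]
    linarith
  have h4 : ‖ci t + x‖ / ‖ci t - x‖ ≤ 2 / (1 - ‖x‖) :=
    div_le_div₀ (by norm_num) h3 h1 h2
  exact mul_le_mul h4 (hC t) (abs_nonneg _) (by positivity)

theorem norm_F'_le {f : ℝ → ℝ} {C : ℝ} (hC : ∀ t, |f t| ≤ C) {d : ℝ} (hd : 0 < d) {x : ℂ}
    (hx : d ≤ 1 - ‖x‖) (t : ℝ) : ‖F' f x t‖ ≤ 2 / d ^ 2 * C := by
  unfold F'
  rw [norm_mul, norm_div, norm_mul, norm_ci, norm_pow, Complex.norm_real, Real.norm_eq_abs,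
    Complex.norm_ofNat, mul_one]
  have h2 : d ≤ ‖ci t - x‖ := hx.trans (dist_le t)
  have h4 : 2 / ‖ci t - x‖ ^ 2 ≤ 2 / d ^ 2 :=
    div_le_div_of_nonneg_left (by norm_num) (by positivity) (pow_le_pow_left₀ hd.le h2 2)
  exact mul_le_mul h4 (hC t) (abs_nonneg _) (by positivity)

theorem hasDeriv {f : ℝ → ℝ} {x : ℂ} (hx : ‖x‖ < 1) (t : ℝ) :
    HasDerivAt (fun w => F f w t) (F' f x t) x := by
  have h0 := ne hx t
  have h1 : HasDerivAt (fun w : ℂ => ci t + w) 1 x := (hasDerivAt_id x).const_add (ci t)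
  have h2 : HasDerivAt (fun w : ℂ => ci t - w) (-1) x := (hasDerivAt_id x).const_sub (ci t)
  have h3 := (h1.div h2 h0).mul_const (f t : ℂ)
  have h4 : (1 * (ci t - x) - (ci t + x) * -1) / (ci t - x) ^ 2 * (f t : ℂ) = F' f x t := by
    unfold F'
    ring
  rw [h4] at h3
  exact h3

theorem re_F (f : ℝ → ℝ) (z : ℂ) (t : ℝ) :
    (F f z t).re = (1 - ‖z‖ ^ 2) / ‖ci t - z‖ ^ 2 * f t := by
  unfold F
  rw [Complex.re_mul_ofReal, Complex.div_re, ← add_div, ← Complex.normSq_eq_norm_sq,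
    ← Complex.normSq_eq_norm_sq]
  congr 2
  have h1 : Complex.normSq (ci t) = 1 := by
    rw [Complex.normSq_eq_norm_sq, norm_ci, one_pow]
  rw [Complex.normSq_apply] at h1 ⊢
  rw [Complex.add_re, Complex.sub_re, Complex.add_im, Complex.sub_im]
  linear_combination h1

end HHZD

open HHZD in
theorem t_H_hzd : Stmt_H_hzd := by
  intro f C hf hC z hz1
  have hfin : IsFiniteMeasure cm := by
    unfold cm
    infer_instance
  have hd : 0 < (1 - ‖z‖) / 2 := by linarith
  have hball : ∀ x ∈ Metric.ball z ((1 - ‖z‖) / 2), (1 - ‖z‖) / 2 ≤ 1 - ‖x‖ := by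
    intro x hx
    rw [Metric.mem_ball, dist_eq_norm] at hx
    have := norm_sub_norm_le x z
    linarith
  have hint : ∀ x : ℂ, ‖x‖ < 1 → Integrable (F f x) cm := fun x hx =>
    Integrable.of_bound (meas_F hf x).aestronglyMeasurable (2 / (1 - ‖x‖) * C)
      (Eventually.of_forall fun t => norm_F_le hC hx t)
  have hder := (hasDerivAt_integral_of_dominated_loc_of_deriv_le (μ := cm) (F := F f) (F' := F' f)
    (x₀ := z) (bound := fun _ => 2 / ((1 - ‖z‖) / 2) ^ 2 * C) (Metric.ball_mem_nhds z hd)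
    (Eventually.of_forall fun x => (meas_F hf x).aestronglyMeasurable) (hint z hz1)
    (meas_F' hf z).aestronglyMeasurable
    (Eventually.of_forall fun t x hx => norm_F'_le hC hd (hball x hx) t)
    (integrable_const _)
    (Eventually.of_forall fun t x hx => hasDeriv (by have := hball x hx; linarith) t)).2
  constructor
  · exact hder.const_mul (1 / (2 * π) : ℂ)
  · unfold hx hz
    have h1 : (1 / (2 * π) : ℂ) = ((1 / (2 * π) : ℝ) : ℂ) := by push_cast; ring
    rw [h1, Complex.re_ofReal_mul]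
    congr 1
    have h2 := Complex.reCLM.integral_comp_comm (hint z hz1)
    change _ = (∫ t, F f z t ∂cm).re at h2
    change (∫ t, F f z t ∂cm).re = _
    rw [← h2]
    exact integral_congr_ae (Eventually.of_forall fun t => re_F f z t)

end Pool.Agent.FBM
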