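import Pool.Agent.FBM.StmtH

/-!
# Pointwise convergence in the disc (FBM, block H)
-/

set_option autoImplicit false

open MeasureTheory Set Filter Topology
open scoped Real

namespace Pool.Agent.FBM

namespace HHZL

theorem ci_sub_ne (z : ℂ) (t : ℝ) : 1 - ‖z‖ ≤ ‖ci t - z‖ := by
  have h1 : ‖ci t‖ = 1 := by
    simp [ci, Complex.norm_exp_ofReal_mul_I]
  have h2 := norm_sub_norm_le (ci t) z
  rw [h1] at h2
  exact h2

/-- dominated convergence with a bounded kernel -/
theorem lim (k : ℝ → ℂ) (hk : Measurable k) (K : ℝ) (hK : ∀ t, ‖k t‖ ≤ K) (f : ℕ → ℝ → ℝ)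
    (g : ℝ → ℝ) (C : ℝ) (hf : ∀ n, Measurable (f n)) (hC : ∀ n t, |f n t| ≤ C)
    (hl : ∀ᵐ t ∂cm, Tendsto (fun n => f n t) atTop (𝓝 (g t))) :
    Tendsto (fun n => ∫ t, k t * (f n t : ℂ) ∂cm) atTop (𝓝 (∫ t, k t * (g t : ℂ) ∂cm)) := by
  refine tendsto_integral_of_dominated_convergence (fun _ => K * C) (fun n => ?_) ?_
    (fun n => ?_) ?_
  · exact (hk.mul (Complex.measurable_ofReal.comp (hf n))).aestronglyMeasurable
  · exact integrable_const _
  · refine Eventually.of_forall fun t => ?_
    rw [norm_mul, Complex.norm_real, Real.norm_eq_abs]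
    exact mul_le_mul (hK t) (hC n t) (abs_nonneg _) ((norm_nonneg _).trans (hK t))
  · filter_upwards [hl] with t ht
    exact (((Complex.continuous_ofReal.tendsto _).comp ht).const_mul (k t))

end HHZL

open HHZL in
theorem t_H_hzl (hhzd : Stmt_H_hzd) : Stmt_H_hzl := by
  intro f g C hf hC hg hgC hl z hz
  have hpos : 0 < 1 - ‖z‖ := by linarith
  have hci : Measurable ci := by
    unfold ci
    fun_prop
  have hn : ∀ t, ‖ci t‖ = 1 := fun t => by simp [ci, Complex.norm_exp_ofReal_mul_I]
  constructor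
  · have h1 := lim (fun t => (ci t + z) / (ci t - z)) ((hci.add_const z).div (hci.sub_const z))
      (2 / (1 - ‖z‖)) (fun t => by
        rw [norm_div]
        refine div_le_div₀ (by norm_num) ?_ hpos (ci_sub_ne z t)
        have h := norm_add_le (ci t) z
        rw [hn t] at h
        linarith) f g C hf hC hl
    exact h1.const_mul _
  · have h1 := lim (fun t => 2 * ci t / (ci t - z) ^ 2)
      ((hci.const_mul 2).div ((hci.sub_const z).pow_const 2))
      (2 / (1 - ‖z‖) ^ 2) (fun t => by
        rw [norm_div, norm_mul, norm_pow, hn t]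
        refine div_le_div₀ (by norm_num) (by simp) (by positivity) ?_
        exact pow_le_pow_left₀ hpos.le (ci_sub_ne z t) 2) f g C hf hC hl
    have h2 := h1.const_mul (1 / (2 * π) : ℂ)
    rw [((hhzd g C hg hgC z hz).1).deriv]
    refine h2.congr fun n => ?_
    rw [((hhzd (f n) C (hf n) (hC n) z hz).1).deriv]

end Pool.Agent.FBM
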