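import Pool.Agent.FBM.StmtH

/-!
# FBM, block H: products of a uniformly convergent and an `L^1`-convergent family
-/

open MeasureTheory Set Filter Topology
open scoped Real

namespace Pool.Agent.FBM

namespace HL1

/-- the basic estimate -/
lemma est {μ : Measure ℝ} {U u V v : ℝ → ℝ} {C ε : ℝ} (hU : AEStronglyMeasurable U μ)
    (hUC : ∀ᵐ t ∂μ, |U t| ≤ C) (hUu : ∀ᵐ t ∂μ, |U t - u t| ≤ ε)
    (hu : AEStronglyMeasurable u μ) (hV : Integrable V μ) (hv : Integrable v μ)
    (huv : Integrable (fun t => u t * v t) μ) :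
    |(∫ t, U t * V t ∂μ) - ∫ t, u t * v t ∂μ| ≤ C * ∫ t, |V t - v t| ∂μ + ε * ∫ t, |v t| ∂μ := by
  have hUb : ∀ᵐ t ∂μ, ‖U t‖ ≤ C := hUC
  have hdb : ∀ᵐ t ∂μ, ‖(U t - u t)‖ ≤ ε := hUu
  have i1 : Integrable (fun t => U t * V t) μ := hV.bdd_mul hU hUb
  have i2 : Integrable (fun t => U t * (V t - v t)) μ := (hV.sub hv).bdd_mul hU hUb
  have i3 : Integrable (fun t => (U t - u t) * v t) μ := hv.bdd_mul (hU.sub hu) hdb
  have e1 : (∫ t, U t * V t ∂μ) - ∫ t, u t * v t ∂μ =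
      (∫ t, U t * (V t - v t) ∂μ) + ∫ t, (U t - u t) * v t ∂μ := by
    rw [← integral_sub i1 huv, ← integral_add i2 i3]
    apply integral_congr_ae
    exact ae_of_all _ fun t => by
      change U t * V t - u t * v t = U t * (V t - v t) + (U t - u t) * v t
      ring
  have b1 : |∫ t, U t * (V t - v t) ∂μ| ≤ C * ∫ t, |V t - v t| ∂μ := by
    rw [← integral_const_mul]
    calc |∫ t, U t * (V t - v t) ∂μ| ≤ ∫ t, |U t * (V t - v t)| ∂μ := abs_integral_le_integral_abs
      _ ≤ ∫ t, C * |V t - v t| ∂μ := by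
          apply integral_mono_ae i2.abs ((hV.sub hv).abs.const_mul C)
          filter_upwards [hUC] with t ht
          change |U t * (V t - v t)| ≤ C * |V t - v t|
          rw [abs_mul]
          exact mul_le_mul_of_nonneg_right ht (abs_nonneg _)
  have b2 : |∫ t, (U t - u t) * v t ∂μ| ≤ ε * ∫ t, |v t| ∂μ := by
    rw [← integral_const_mul]
    calc |∫ t, (U t - u t) * v t ∂μ| ≤ ∫ t, |(U t - u t) * v t| ∂μ := abs_integral_le_integral_abs
      _ ≤ ∫ t, ε * |v t| ∂μ := by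
          apply integral_mono_ae i3.abs (hv.abs.const_mul ε)
          filter_upwards [hUu] with t ht
          change |(U t - u t) * v t| ≤ ε * |v t|
          rw [abs_mul]
          exact mul_le_mul_of_nonneg_right ht (abs_nonneg _)
  rw [e1]
  exact (abs_add_le _ _).trans (add_le_add b1 b2)

end HL1

theorem t_H_l1 : Stmt_H_l1 := by
  intro μ hμ U V u v C hU hUC hUu hu hV hv hlim
  -- `u` is bounded
  have huv : Integrable (fun t => u t * v t) μ := by
    obtain ⟨r, h1, h2⟩ := (hUC.and (hUu 1 one_pos)).exists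
    have hub : ∀ᵐ t ∂μ, ‖u t‖ ≤ C + 1 := by
      filter_upwards [h1, h2] with t ht1 ht2
      rw [Real.norm_eq_abs, abs_le]
      rw [abs_le] at ht1 ht2
      constructor <;> linarith [ht1.1, ht1.2, ht2.1, ht2.2]
    exact hv.bdd_mul hu hub
  rw [Metric.tendsto_nhds]
  intro η hη
  have hI : 0 ≤ ∫ t, |v t| ∂μ := integral_nonneg fun t => abs_nonneg _
  have hε : 0 < η / (2 * ((∫ t, |v t| ∂μ) + 1)) := by positivity
  have hlim2 : ∀ᶠ r in 𝓝[<] (1 : ℝ), C * ∫ t, |V r t - v t| ∂μ < η / 2 := by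
    have h1 : Tendsto (fun r => C * ∫ t, |V r t - v t| ∂μ) (𝓝[<] (1 : ℝ)) (𝓝 (C * 0)) :=
      hlim.const_mul C
    rw [mul_zero] at h1
    exact h1.eventually_lt_const (by positivity)
  filter_upwards [hU, hUC, hUu _ hε, hV, hlim2] with r h1 h2 h3 h4 h5
  rw [Real.dist_eq]
  refine (HL1.est h1 h2 h3 hu h4 hv huv).trans_lt ?_
  have h6 : η / (2 * ((∫ t, |v t| ∂μ) + 1)) * ∫ t, |v t| ∂μ ≤ η / 2 := by
    rw [div_mul_eq_mul_div, div_le_div_iff₀ (by positivity) (by positivity)]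
    nlinarith
  linarith

end Pool.Agent.FBM
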