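import Pool.Agent.FBM.StmtH
import Pool.Agent.FBM.Top

/-!
# FBM, block H: assembly
-/

open MeasureTheory Set Filter Topology
open scoped Real

namespace Pool.Agent.FBM

namespace HMAIN

lemma bdh_of_bdc {f T : ℝ → ℝ} {b : ℝ → ℂ} (h : BdC f T b) : BdH f b :=
  ⟨h.cont, h.eq, h.an, h.re, h.per, h.int, h.ftc, h.lim⟩

lemma lint_dens (hdir : Stmt_A_dir) {D : Dat} {X : Fin 3 → ℝ → ℝ} (hX : Adm D X) :
    ∫⁻ z in Metric.ball (0 : ℂ) 1, ENNReal.ofReal (dens X z) = ENNReal.ofReal (ven X X) := by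
  have h1 : ∀ z : ℂ, ENNReal.ofReal (dens X z)
      = ∑ i, ENNReal.ofReal (‖deriv (hz (X i)) z‖ ^ 2) := fun z => by
    unfold dens
    exact ENNReal.ofReal_sum_of_nonneg fun i _ => by positivity
  simp only [h1]
  rw [lintegral_finset_sum']
  · unfold ven
    rw [ENNReal.ofReal_sum_of_nonneg fun i _ => en_self_nonneg _]
    exact Finset.sum_congr rfl fun i _ => hdir (X i) (hX.fe i)
  · intro i _
    have hm : Measurable (deriv (hz (X i))) := measurable_deriv _
    exact (ENNReal.measurable_ofReal.comp ((hm.norm).pow_const 2)).aemeasurable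

end HMAIN

open HMAIN in
/-- H7, from the statements of block H and the inputs of the other blocks. -/
theorem t_H_main (hmax : Stmt_C_max) (hedge : Stmt_C_edge) (hlim : Stmt_C_lim) (hlev : Stmt_C_lev)
    (hnum : Stmt_C_num)
    (hbd : ∀ (D : Dat) (X : Fin 3 → ℝ → ℝ) (lam : ℝ → ℝ) (T : Fin 3 → ℝ → ℝ),
      D.Tm → Crit D X lam T → ∀ i, ∃ b, BdH (X i) b)
    (hdir : Stmt_A_dir) (hcnv : Stmt_H_cnv) (hfat : Stmt_H_fat) (hpol : Stmt_H_pol) :
    Stmt_H_main := by
  obtain ⟨y, l0, T0, hy, hymin, hye, hTm⟩ := hlim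
  choose b hb using fun i => hbd Dlim y l0 T0 hTm hy i
  obtain ⟨hle, htend, hpos⟩ := hlev
  rw [← hye] at htend hpos
  obtain ⟨m, p, X, lam, T, hc⟩ := hcnv hmax (fun m p hp => (hedge m p hp).1) y l0 T0 b hy hb
    (fun m => by rw [hye]; exact hle m) htend hpos
  obtain ⟨c, hc0, hc1, hA⟩ := hpol y l0 T0 b hy hb 3.03 (by have := Real.pi_gt_d2; linarith)
  have hoct := hy.el.oct
  have hev := hfat y X c _ hc0 hc1 (fun i => (hoct.adm.fe i).meas) hoct.nonneg hoct.le_one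
    (fun k i => ((hc.crit k).el.oct.adm.fe i).meas) (fun k => (hc.crit k).el.oct.nonneg)
    (fun k => (hc.crit k).el.oct.le_one) hc.lim hA
  obtain ⟨k, hk⟩ := hev.exists
  refine ⟨m k, p k, X k, lam k, T k, c, hc.par k, hc.crit k, hc.pos k, hc0, hc1, ?_, ?_⟩
  · rw [lint_dens hdir (hc.crit k).el.oct.adm]
    refine lt_of_le_of_lt (ENNReal.ofReal_le_ofReal ?_) hk
    exact (hc.le k).trans (by rw [hye]; exact hnum)
  · rw [lint_dens hdir (hc.crit k).el.oct.adm]
    exact ENNReal.ofReal_ne_top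

end Pool.Agent.FBM
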