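import Pool.Agent.FBM.StmtH

/-!
# FBM, module MASS: `hz 1 = 1` in the disc
-/

open MeasureTheory Set Filter Topology
open scoped Real

namespace Pool.Agent.FBM

namespace HMASS

theorem sub_ne {z : ℂ} (hz : ‖z‖ < 1) (t : ℝ) : Complex.exp (t * Complex.I) - z ≠ 0 := by
  intro h
  have h1 : Complex.exp (t * Complex.I) = z := sub_eq_zero.1 h
  have h2 : ‖Complex.exp (t * Complex.I)‖ = 1 := Complex.norm_exp_ofReal_mul_I t
  rw [h1] at h2
  linarith

theorem cont {z : ℂ} (hz : ‖z‖ < 1) :
    Continuous fun t : ℝ => (Complex.exp (t * Complex.I))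
      / (Complex.exp (t * Complex.I) - z) := by
  refine Continuous.div (by fun_prop) (by fun_prop) (fun t => sub_ne hz t)

/-- the Cauchy integral, over a period starting at `0` -/
theorem cauchy {z : ℂ} (hz : ‖z‖ < 1) :
    ∫ t : ℝ in (0:ℝ)..(2 * π), (Complex.exp (t * Complex.I))
      / (Complex.exp (t * Complex.I) - z) = 2 * π := by
  have h := circleIntegral.integral_sub_inv_of_mem_ball (c := 0) (w := z) (R := 1)
    (by simpa using hz)
  rw [circleIntegral] at h
  have e : ∀ t : ℝ, deriv (circleMap 0 1) t • (circleMap 0 1 t - z)⁻¹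
      = Complex.I * (Complex.exp (t * Complex.I) / (Complex.exp (t * Complex.I) - z)) := by
    intro t
    rw [deriv_circleMap, circleMap]
    simp only [Complex.ofReal_one, one_mul, zero_add, smul_eq_mul]
    rw [div_eq_mul_inv]
    ring
  simp only [e] at h
  rw [intervalIntegral.integral_const_mul] at h
  have hI : Complex.I ≠ 0 := Complex.I_ne_zero
  apply mul_left_cancel₀ hI
  rw [h]
  ring

theorem shift {z : ℂ} :
    ∫ t : ℝ in (-π)..π, (Complex.exp (t * Complex.I))
      / (Complex.exp (t * Complex.I) - z)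
    = ∫ t : ℝ in (0:ℝ)..(2 * π), (Complex.exp (t * Complex.I))
      / (Complex.exp (t * Complex.I) - z) := by
  have hp : Function.Periodic (fun t : ℝ => (Complex.exp (t * Complex.I))
      / (Complex.exp (t * Complex.I) - z)) (2 * π) := by
    intro t
    have : Complex.exp (((t + 2 * π : ℝ) : ℂ) * Complex.I) = Complex.exp (t * Complex.I) := by
      push_cast
      rw [add_mul, Complex.exp_add, Complex.exp_two_pi_mul_I, mul_one]
    simp only [this]
  have h := hp.intervalIntegral_add_eq (-π) 0
  rw [show -π + 2 * π = π by ring, zero_add] at h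
  exact h

theorem kern {z : ℂ} (hz : ‖z‖ < 1) (t : ℝ) :
    ((Complex.exp (t * Complex.I) + z) / (Complex.exp (t * Complex.I) - z))
      * (((fun _ : ℝ => (1:ℝ)) t : ℝ) : ℂ)
    = 2 * ((Complex.exp (t * Complex.I)) / (Complex.exp (t * Complex.I) - z)) - 1 := by
  have h := sub_ne hz t
  simp only [Complex.ofReal_one, mul_one]
  field_simp
  ring

end HMASS

open HMASS in
theorem t_H_mass : Stmt_H_mass := by
  intro z hz1
  unfold hz
  simp only [kern hz1]
  have hle : (-π) ≤ π := by linarith [Real.pi_pos]
  have hi : ∫ t : ℝ, (2 * ((Complex.exp (t * Complex.I)) / (Complex.exp (t * Complex.I) - z)) - 1)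
      ∂cm = 2 * π := by
    unfold cm
    rw [← intervalIntegral.integral_of_le hle, intervalIntegral.integral_sub
      (((cont hz1).const_mul 2).intervalIntegrable _ _) (by simp),
      intervalIntegral.integral_const_mul, shift, cauchy hz1]
    simp only [intervalIntegral.integral_const, sub_neg_eq_add, Complex.real_smul,
      Complex.ofReal_add, mul_one]
    ring
  rw [hi]
  have hpi : (π : ℂ) ≠ 0 := by exact_mod_cast Real.pi_pos.ne'
  field_simp

end Pool.Agent.FBM
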