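import Pool.Agent.FBM.StmtH

/-!
# FBM, block H, module MIN: away from the pole the limit map stays away from the axis
-/

open MeasureTheory Set Filter Topology
open scoped Real

namespace Pool.Agent.FBM

namespace HMIN

theorem norm_ci (t : ℝ) : ‖ci t‖ = 1 := by
  unfold ci
  exact Complex.norm_exp_ofReal_mul_I t

theorem continuous_ci : Continuous ci := by
  unfold ci
  fun_prop

/-- the Poisson integral of a nonnegative function which is not zero a.e. is positive -/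
theorem interior_pos (hhzd : Stmt_H_hzd) {f : ℝ → ℝ} (hm : Measurable f) (h0 : ∀ t, 0 ≤ f t)
    (h1 : ∀ t, f t ≤ 1) (hne : ¬ ∀ᵐ t ∂cm, f t = 0) {z : ℂ} (hz' : ‖z‖ < 1) : 0 < hx f z := by
  have hd : ∀ t, 1 - ‖z‖ ≤ ‖ci t - z‖ := by
    intro t
    have h := norm_sub_norm_le (ci t) z
    rwa [norm_ci] at h
  have hd0 : ∀ t, 0 < ‖ci t - z‖ := fun t => lt_of_lt_of_le (by linarith) (hd t)
  have hk : 0 < 1 - ‖z‖ ^ 2 := by
    have := norm_nonneg z
    nlinarith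
  have hker : ∀ t, 0 < (1 - ‖z‖ ^ 2) / ‖ci t - z‖ ^ 2 := fun t =>
    div_pos hk (pow_pos (hd0 t) 2)
  rw [(hhzd f 1 hm (fun t => by rw [abs_of_nonneg (h0 t)]; exact h1 t) z hz').2]
  have hnn : ∀ t, 0 ≤ (1 - ‖z‖ ^ 2) / ‖ci t - z‖ ^ 2 * f t := fun t =>
    mul_nonneg (hker t).le (h0 t)
  have hcont : Continuous fun t => (1 - ‖z‖ ^ 2) / ‖ci t - z‖ ^ 2 :=
    continuous_const.div ((continuous_ci.sub continuous_const).norm.pow 2)
      fun t => (pow_pos (hd0 t) 2).ne'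
  have hint : Integrable (fun t => (1 - ‖z‖ ^ 2) / ‖ci t - z‖ ^ 2 * f t) cm := by
    refine Integrable.mono' (integrable_const ((1 - ‖z‖ ^ 2) / (1 - ‖z‖) ^ 2))
      (hcont.measurable.mul hm).aestronglyMeasurable (Eventually.of_forall fun t => ?_)
    rw [Real.norm_eq_abs, abs_of_nonneg (hnn t)]
    have h2 : (1 - ‖z‖ ^ 2) / ‖ci t - z‖ ^ 2 ≤ (1 - ‖z‖ ^ 2) / (1 - ‖z‖) ^ 2 :=
      div_le_div_of_nonneg_left hk.le (pow_pos (by linarith) 2)
        (pow_le_pow_left₀ (by linarith) (hd t) 2)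
    calc (1 - ‖z‖ ^ 2) / ‖ci t - z‖ ^ 2 * f t ≤ (1 - ‖z‖ ^ 2) / ‖ci t - z‖ ^ 2 * 1 :=
          mul_le_mul_of_nonneg_left (h1 t) (hker t).le
      _ ≤ _ := by rw [mul_one]; exact h2
  have hpos : 0 < ∫ t, (1 - ‖z‖ ^ 2) / ‖ci t - z‖ ^ 2 * f t ∂cm := by
    refine lt_of_le_of_ne (integral_nonneg hnn) fun h => hne ?_
    have h3 := (integral_eq_zero_iff_of_nonneg hnn hint).1 h.symm
    filter_upwards [h3] with t ht
    rcases mul_eq_zero.1 (show (1 - ‖z‖ ^ 2) / ‖ci t - z‖ ^ 2 * f t = 0 from ht) with h4 | h4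
    · exact absurd h4 (hker t).ne'
    · exact h4
  exact mul_pos (by positivity) hpos

/-- lower bounds a.e. give lower bounds of the boundary values -/
theorem bv_ge {f : ℝ → ℝ} (hc : Continuous (bv f)) (hre : ∀ᵐ t : ℝ ∂cm, bv f t = f t)
    {t m δ : ℝ} (ht1 : -π < t) (ht2 : t ≤ π) (hδ : 0 < δ)
    (h : ∀ᵐ s : ℝ, |s - t| < δ → m ≤ f s) : m ≤ bv f t := by
  by_contra hlt
  rw [not_le] at hlt
  have h1 : ∀ᶠ s in 𝓝 t, bv f s < m := hc.continuousAt.eventually_lt continuousAt_const hlt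
  obtain ⟨η, hη, h2⟩ := Metric.eventually_nhds_iff.1 h1
  obtain ⟨r, hr0, hrη, hrδ, hrt⟩ : ∃ r > 0, r ≤ η ∧ r ≤ δ ∧ r ≤ t + π :=
    ⟨min (min η δ) (t + π), lt_min (lt_min hη hδ) (by linarith),
      (min_le_left _ _).trans (min_le_left _ _), (min_le_left _ _).trans (min_le_right _ _),
      min_le_right _ _⟩
  have hre' : ∀ᵐ s : ℝ, s ∈ Ioc (-π) π → bv f s = f s := by
    have := hre
    rw [cm, ae_restrict_iff' measurableSet_Ioc] at this
    exact this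
  have hfalse : ∀ᵐ s : ℝ, ¬ s ∈ Ioo (t - r) t := by
    filter_upwards [h, hre'] with s hs1 hs2 hs
    have h3 : |s - t| < r := by
      rw [abs_lt]
      constructor <;> linarith [hs.1, hs.2]
    have h4 := hs1 (lt_of_lt_of_le h3 hrδ)
    have h5 := hs2 ⟨by linarith [hs.1], by linarith [hs.2]⟩
    have h6 : bv f s < m := h2 (by rw [Real.dist_eq]; exact lt_of_lt_of_le h3 hrη)
    linarith
  rw [ae_iff] at hfalse
  simp only [not_not] at hfalse
  have h7 : volume (Ioo (t - r) t) = 0 := hfalse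
  rw [Real.volume_Ioo, ENNReal.ofReal_eq_zero] at h7
  linarith

theorem not_mem_closure_one {t : ℝ} (h1 : 0 < t) (h2 : t ≤ π) : t ∉ closure (side 1) := by
  intro h
  have h3 : Ioo 0 (4 * π / 3) ∈ 𝓝 t :=
    isOpen_Ioo.mem_nhds ⟨h1, by linarith [Real.pi_pos]⟩
  obtain ⟨s, hs1, hs2⟩ := mem_closure_iff_nhds.1 h _ h3
  obtain ⟨n, hn1, hn2⟩ : ∃ n : ℤ, s + n * (2 * π) ∈ Ioo (-(2 * π / 3)) 0 := hs2
  have hπ := Real.pi_pos
  rcases le_or_gt 0 n with h | h
  · have h4 : (0 : ℝ) ≤ n := by exact_mod_cast h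
    nlinarith [hs1.1]
  · have h4 : (n : ℝ) ≤ -1 := by exact_mod_cast Int.le_sub_one_of_lt h
    nlinarith [hs1.2]

theorem not_mem_closure_zero {t : ℝ} (h1 : -π < t) (h2 : t < 0) : t ∉ closure (side 0) := by
  intro h
  have h3 : Ioo (-(4 * π / 3)) 0 ∈ 𝓝 t :=
    isOpen_Ioo.mem_nhds ⟨by linarith [Real.pi_pos], h2⟩
  obtain ⟨s, hs1, hs2⟩ := mem_closure_iff_nhds.1 h _ h3
  obtain ⟨n, hn1, hn2⟩ : ∃ n : ℤ, s + n * (2 * π) ∈ Ioo 0 (2 * π / 3) := hs2
  have hπ := Real.pi_pos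
  rcases le_or_gt n 0 with h | h
  · have h4 : (n : ℝ) ≤ 0 := by exact_mod_cast h
    nlinarith [hs1.2]
  · have h4 : (1 : ℝ) ≤ n := by exact_mod_cast h
    nlinarith [hs1.1]

theorem le_one {X : Fin 3 → ℝ → ℝ} (h0 : ∀ i t, 0 ≤ X i t) (h1 : ∀ t, ∑ i, X i t ^ 2 ≤ 1)
    (i : Fin 3) (t : ℝ) : X i t ≤ 1 := by
  have h2 : X i t ^ 2 ≤ ∑ j, X j t ^ 2 :=
    Finset.single_le_sum (f := fun j => X j t ^ 2) (fun j _ => sq_nonneg _) (Finset.mem_univ i)
  have h3 := h1 t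
  have h4 := h0 i t
  nlinarith

end HMIN

open HMIN in
theorem t_H_min (hhzd : Stmt_H_hzd) (hnz : Stmt_H_nz) (hcor : Stmt_H_cor) : Stmt_H_min := by
  intro y lam T b hC hb δ hδ
  have hO := hC.el.oct
  have hz0 := hnz Dlim y lam T (Or.inl rfl) hC
  obtain ⟨hc, -, hnn, -, -, -, -, -, -⟩ := hcor y b hO hb
  have hpos : ∀ z : ℂ, ‖z‖ ≤ 1 → z ≠ 1 → 0 < (Fx (y 0) z).re + (Fx (y 1) z).re := by
    intro z hz1 hz2
    rcases hz1.lt_or_eq with hlt | heq
    · have h : ∀ i, 0 < (Fx (y i) z).re := by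
        intro i
        rw [(hb i).eq z hlt]
        exact interior_pos hhzd (hO.adm.fe i).meas (hO.nonneg i)
          (le_one hO.nonneg hO.le_one i) (hz0 i) hlt
      exact add_pos (h 0) (h 1)
    · have h1 : z = ci (Complex.arg z) := by
        have := Complex.norm_mul_exp_arg_mul_I z
        rw [heq] at this
        rw [ci]
        simpa using this.symm
      have ht1 := Complex.neg_pi_lt_arg z
      have ht2 := Complex.arg_le_pi z
      have ht0 : Complex.arg z ≠ 0 := by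
        intro h
        rw [h] at h1
        apply hz2
        rw [h1, ci]
        simp
      have h0 : ∀ i, 0 ≤ (Fx (y i) z).re := by
        intro i
        have := hnn i (Complex.arg z)
        rwa [bv, ← h1] at this
      have h2 : ∀ i, Complex.arg z ∉ closure (side i) → 0 < (Fx (y i) z).re := by
        intro i hi
        obtain ⟨m, hm, δ', hδ', hae⟩ := hC.pos i _ hi
        have := bv_ge (hc i) (hb i).re ht1 ht2 hδ' hae
        rw [bv, ← h1] at this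
        linarith
      rcases lt_or_gt_of_ne ht0 with h | h
      · have h3 := h2 0 (not_mem_closure_zero ht1 h)
        have h4 := h0 1
        linarith
      · have h3 := h2 1 (not_mem_closure_one h ht2)
        have h4 := h0 0
        linarith
  have hK : IsCompact {z : ℂ | ‖z‖ ≤ 1 ∧ δ ≤ ‖z - 1‖} := by
    have h1 : {z : ℂ | ‖z‖ ≤ 1 ∧ δ ≤ ‖z - 1‖} = Metric.closedBall 0 1 ∩ {z | δ ≤ ‖z - 1‖} := by
      ext z
      simp
    rw [h1]
    exact (isCompact_closedBall 0 1).inter_right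
      (isClosed_le continuous_const (continuous_id.sub continuous_const).norm)
  have hcu : ContinuousOn (fun z => (Fx (y 0) z).re + (Fx (y 1) z).re)
      {z : ℂ | ‖z‖ ≤ 1 ∧ δ ≤ ‖z - 1‖} := by
    have h : ∀ i, ContinuousOn (fun z => (Fx (y i) z).re) {z : ℂ | ‖z‖ ≤ 1 ∧ δ ≤ ‖z - 1‖} :=
      fun i => Complex.continuous_re.comp_continuousOn
        ((hb i).cont.mono fun z hz => by simpa using hz.1)
    exact (h 0).add (h 1)
  rcases Set.eq_empty_or_nonempty {z : ℂ | ‖z‖ ≤ 1 ∧ δ ≤ ‖z - 1‖} with he | hne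
  · refine ⟨1, one_pos, fun z h1 h2 => ?_⟩
    have : z ∈ {z : ℂ | ‖z‖ ≤ 1 ∧ δ ≤ ‖z - 1‖} := ⟨h1, h2⟩
    rw [he] at this
    exact absurd this (Set.notMem_empty z)
  · obtain ⟨z0, hz0, hmin⟩ := hK.exists_isMinOn hne hcu
    refine ⟨_, hpos z0 hz0.1 ?_, fun z h1 h2 => hmin ⟨h1, h2⟩⟩
    rintro rfl
    have := hz0.2
    rw [sub_self, norm_zero] at this
    linarith

end Pool.Agent.FBM
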