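import Pool.Agent.FBM.StmtH

/-!
# FBM, block H, module NZ: critical maps have no component which vanishes almost everywhere

Proof in the doc-string of `Stmt_H_nz` in `Pool/Agent/FBM/StmtH.lean`.
-/

open MeasureTheory Set Filter Topology
open scoped Real

namespace Pool.Agent.FBM

namespace HNZ

/-- centre of an arc which does not meet `side i` -/
noncomputable def cen (i : Fin 3) : ℝ :=
  match i with
  | 0 => -(π / 3)
  | 1 => π / 3
  | 2 => 0

theorem cen_mem (i : Fin 3) : |cen i| ≤ π / 3 := by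
  have hπ := Real.pi_pos
  fin_cases i
  · change |-(π / 3)| ≤ π / 3
    rw [abs_neg, abs_of_pos (by positivity)]
  · change |π / 3| ≤ π / 3
    rw [abs_of_pos (by positivity)]
  · change |(0 : ℝ)| ≤ π / 3
    rw [abs_zero]; positivity

/-- the arc around `cen i` does not meet `side i` -/
theorem side_disj (i : Fin 3) {t : ℝ} (ht : |t - cen i| < π / 3) : t ∉ side i := by
  have hπ := Real.pi_pos
  rw [abs_lt] at ht
  obtain ⟨h1, h2⟩ := ht
  fin_cases i
  · change -(π / 3) < t - -(π / 3) at h1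
    change t - -(π / 3) < π / 3 at h2
    rintro ⟨n, h3, h4⟩
    rcases le_or_gt n 0 with hn | hn
    · have h5 : (n : ℝ) ≤ 0 := by exact_mod_cast hn
      nlinarith
    · have h5 : (1 : ℝ) ≤ n := by exact_mod_cast hn
      nlinarith
  · change -(π / 3) < t - π / 3 at h1
    change t - π / 3 < π / 3 at h2
    rintro ⟨n, h3, h4⟩
    rcases lt_or_ge n 0 with hn | hn
    · have h5 : (n : ℝ) ≤ -1 := by exact_mod_cast (Int.le_sub_one_of_lt hn)
      nlinarith
    · have h5 : (0 : ℝ) ≤ n := by exact_mod_cast hn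
      nlinarith
  · change -(π / 3) < t - 0 at h1
    change t - 0 < π / 3 at h2
    rintro ⟨n, h3, h4⟩
    rcases le_or_gt n 0 with hn | hn
    · have h5 : (n : ℝ) ≤ 0 := by exact_mod_cast hn
      nlinarith
    · have h5 : (1 : ℝ) ≤ n := by exact_mod_cast hn
      nlinarith

/-- the zero sets are contained in the sides -/
theorem sub_side {D : Dat} (hD : D = Dlim ∨ ∃ m, ∃ p ∈ Par m, D = Dcfg m p.1 p.2) (i : Fin 3) :
    D.Z i ⊆ side i := by
  rcases hD with rfl | ⟨m, p, -, rfl⟩
  · exact subset_rfl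
  · fin_cases i
    · exact diff_subset
    · exact diff_subset
    · exact subset_rfl

theorem cen_notMem {D : Dat} (hD : D = Dlim ∨ ∃ m, ∃ p ∈ Par m, D = Dcfg m p.1 p.2)
    (i : Fin 3) : cen i ∉ closure (D.Z i) := by
  intro h
  rw [Metric.mem_closure_iff] at h
  obtain ⟨b, hb, hd⟩ := h (π / 3) (by positivity)
  rw [dist_comm, Real.dist_eq] at hd
  exact side_disj i hd (sub_side hD i hb)

end HNZ

/-- NZ: critical maps have no component which vanishes almost everywhere. -/
theorem t_H_nz : Stmt_H_nz := by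
  intro D X lam T hD hX i h0
  have hπ := Real.pi_pos
  obtain ⟨m, hm, δ, hδ, h1⟩ := hX.pos i _ (HNZ.cen_notMem hD i)
  have hc := abs_le.1 (HNZ.cen_mem i)
  have h2 : ∀ᵐ t, t ∈ Ioc (-π) π → X i t = 0 := by
    have h3 : ∀ᵐ t ∂(volume.restrict (Ioc (-π) π)), X i t = 0 := h0
    exact (ae_restrict_iff' measurableSet_Ioc).1 h3
  have hr : 0 < min δ (π / 3) := lt_min hδ (by positivity)
  have h4 : ∀ᵐ t, t ∉ Ioo (HNZ.cen i - min δ (π / 3)) (HNZ.cen i + min δ (π / 3)) := by
    filter_upwards [h1, h2] with t h5 h6 h7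
    have h8 : min δ (π / 3) ≤ δ := min_le_left _ _
    have h9 : min δ (π / 3) ≤ π / 3 := min_le_right _ _
    have h10 : X i t = 0 := h6 ⟨by linarith [h7.1], by linarith [h7.2]⟩
    have h11 : |t - HNZ.cen i| < δ := by
      rw [abs_lt]
      exact ⟨by linarith [h7.1], by linarith [h7.2]⟩
    have h12 := h5 h11
    linarith
  have h5 : volume (Ioo (HNZ.cen i - min δ (π / 3)) (HNZ.cen i + min δ (π / 3))) = 0 :=
    measure_eq_zero_iff_ae_notMem.2 h4
  rw [Real.volume_Ioo, ENNReal.ofReal_eq_zero] at h5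
  linarith

end Pool.Agent.FBM
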