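import Pool.Agent.FBM.StmtH

/-!
# FBM, block H: the boundary term for `r → 1`
-/

open MeasureTheory Set Filter Topology
open scoped Real

namespace Pool.Agent.FBM
namespace HOML

theorem norm_ci (t : ℝ) : ‖ci t‖ = 1 := by
  unfold ci
  exact Complex.norm_exp_ofReal_mul_I t

theorem cont_ci : Continuous ci := by
  unfold ci
  fun_prop

theorem mem_ball {r : ℝ} (h0 : 0 < r) (h1 : r < 1) (t : ℝ) :
    (r * ci t : ℂ) ∈ Metric.ball (0 : ℂ) 1 := by
  rw [mem_ball_zero_iff, norm_mul, norm_ci, mul_one, Complex.norm_real, Real.norm_eq_abs,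
    abs_of_pos h0]
  exact h1

theorem cont_comp {F : ℂ → ℂ} (hF : ContinuousOn F (Metric.ball 0 1)) {r : ℝ} (h0 : 0 < r)
    (h1 : r < 1) : Continuous (fun t : ℝ => F (r * ci t)) := by
  rw [← continuousOn_univ]
  have h2 : Continuous (fun t : ℝ => (r * ci t : ℂ)) := continuous_const.mul cont_ci
  exact hF.comp h2.continuousOn (fun t _ => mem_ball h0 h1 t)

theorem unif (d C : ℝ) (hd : 0 < d) (ε : ℝ) (hε : 0 < ε) : ∃ δ > 0, ∀ x y x' y' : ℝ,
    |x| ≤ C → |y| ≤ C → |x'| ≤ C → |y'| ≤ C → |x - x'| ≤ δ → |y - y'| ≤ δ →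
    |2 * x / (d ^ 2 + (x ^ 2 + y ^ 2)) - 2 * x' / (d ^ 2 + (x' ^ 2 + y' ^ 2))| ≤ ε := by
  have hK : IsCompact (Icc (-C) C ×ˢ Icc (-C) C) := isCompact_Icc.prod isCompact_Icc
  have hcont : ContinuousOn (fun p : ℝ × ℝ => 2 * p.1 / (d ^ 2 + (p.1 ^ 2 + p.2 ^ 2)))
      (Icc (-C) C ×ˢ Icc (-C) C) := by
    refine Continuous.continuousOn ?_
    refine Continuous.div (by fun_prop) (by fun_prop) ?_
    intro p
    positivity
  have huc := hK.uniformContinuousOn_of_continuous hcont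
  rw [Metric.uniformContinuousOn_iff] at huc
  obtain ⟨δ, hδ, h⟩ := huc ε hε
  refine ⟨δ / 2, by positivity, ?_⟩
  intro x y x' y' hx hy hx' hy' h1 h2
  have := h (x, y) ⟨abs_le.1 hx, abs_le.1 hy⟩ (x', y') ⟨abs_le.1 hx', abs_le.1 hy'⟩ (by
    rw [Prod.dist_eq]
    simp only [Real.dist_eq]
    exact max_lt (by linarith) (by linarith))
  rw [Real.dist_eq] at this
  exact this.le

theorem bound (d C x y : ℝ) (hd : 0 < d) (hx : |x| ≤ C) :
    |2 * x / (d ^ 2 + (x ^ 2 + y ^ 2))| ≤ 2 * C / d ^ 2 := by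
  have h1 : 0 < d ^ 2 := by positivity
  have h2 : d ^ 2 ≤ d ^ 2 + (x ^ 2 + y ^ 2) := by nlinarith [sq_nonneg x, sq_nonneg y]
  have h3 : 0 < d ^ 2 + (x ^ 2 + y ^ 2) := lt_of_lt_of_le h1 h2
  rw [abs_div, abs_mul, abs_of_pos h3, abs_two]
  have h4 : 0 ≤ |x| := abs_nonneg x
  calc 2 * |x| / (d ^ 2 + (x ^ 2 + y ^ 2)) ≤ 2 * |x| / d ^ 2 := by gcongr
    _ ≤ 2 * C / d ^ 2 := by gcongr

theorem cont_u (huni : Stmt_H_uni) {f g : ℝ → ℝ} {a b : ℝ → ℂ} (hf : BdH f a) (hg : BdH g b)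
    {d : ℝ} (hd : 0 < d) :
    Continuous (fun t => 2 * bv f t / (d ^ 2 + (bv f t ^ 2 + bv g t ^ 2))) := by
  have h1 := (huni f a hf).2.2.1
  have h2 := (huni g b hg).2.2.1
  refine Continuous.div (by fun_prop) (by fun_prop) ?_
  intro t
  positivity

theorem cont_U {f g : ℝ → ℝ} {a b : ℝ → ℂ} (hf : BdH f a) (hg : BdH g b)
    {d : ℝ} (hd : 0 < d) {r : ℝ} (h0 : 0 < r) (h1 : r < 1) :
    Continuous (fun t => 2 * hx f (r * ci t) /
      (d ^ 2 + (hx f (r * ci t) ^ 2 + hx g (r * ci t) ^ 2))) := by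
  have h2 : Continuous (fun t : ℝ => hx f (r * ci t)) :=
    Complex.continuous_re.comp (cont_comp hf.an.continuousOn h0 h1)
  have h3 : Continuous (fun t : ℝ => hx g (r * ci t)) :=
    Complex.continuous_re.comp (cont_comp hg.an.continuousOn h0 h1)
  refine Continuous.div (by fun_prop) (by fun_prop) ?_
  intro t
  positivity

theorem cont_Vc {h : ℝ → ℝ} {c : ℝ → ℂ} (hh : BdH h c) {r : ℝ} (h0 : 0 < r) (h1 : r < 1) :
    Continuous (fun t : ℝ => Complex.I * (r * ci t) * deriv (hz h) (r * ci t)) := by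
  have h2 : Continuous (fun t : ℝ => deriv (hz h) (r * ci t)) :=
    cont_comp (hh.an.deriv Metric.isOpen_ball).continuousOn h0 h1
  have h3 := cont_ci
  fun_prop

theorem int_cont {E : Type*} [NormedAddCommGroup E] {F : ℝ → E} (hF : Continuous F) :
    Integrable F cm :=
  hF.integrableOn_Ioc

theorem ev_Ioo : ∀ᶠ r : ℝ in 𝓝[<] (1 : ℝ), 0 < r ∧ r < 1 := by
  have h1 : Ioo (0 : ℝ) 1 ∈ 𝓝[<] (1 : ℝ) := Ioo_mem_nhdsLT zero_lt_one
  exact h1

theorem half (huni : Stmt_H_uni) (hl1 : Stmt_H_l1) {f g h : ℝ → ℝ} {a b c : ℝ → ℂ}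
    (hf : BdH f a) (hg : BdH g b) (hh : BdH h c) {d : ℝ} (hd : 0 < d) :
    Tendsto (fun r : ℝ => ∫ t, 2 * hx f (r * ci t) /
      (d ^ 2 + (hx f (r * ci t) ^ 2 + hx g (r * ci t) ^ 2)) *
        (Complex.I * (r * ci t) * deriv (hz h) (r * ci t)).re ∂cm) (𝓝[<] 1)
    (𝓝 (∫ t, 2 * bv f t / (d ^ 2 + (bv f t ^ 2 + bv g t ^ 2)) * (c t).re ∂cm)) := by
  obtain ⟨hf1, ⟨C1, hC1, hC1'⟩, hf3, hf4⟩ := huni f a hf
  obtain ⟨hg1, ⟨C2, hC2, hC2'⟩, hg3, hg4⟩ := huni g b hg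
  set C := max C1 C2 with hC
  refine hl1 cm inferInstance
    (fun r t => 2 * hx f (r * ci t) / (d ^ 2 + (hx f (r * ci t) ^ 2 + hx g (r * ci t) ^ 2)))
    (fun r t => (Complex.I * (r * ci t) * deriv (hz h) (r * ci t)).re)
    (fun t => 2 * bv f t / (d ^ 2 + (bv f t ^ 2 + bv g t ^ 2)))
    (fun t => (c t).re) (2 * C / d ^ 2) ?_ ?_ ?_ ?_ ?_ ?_ ?_
  · filter_upwards [ev_Ioo] with r hr
    exact (cont_U hf hg hd hr.1 hr.2).aestronglyMeasurable
  · filter_upwards [ev_Ioo] with r hr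
    refine Filter.Eventually.of_forall (fun t => ?_)
    refine bound d C _ _ hd ?_
    exact (hC1 _ (by simpa using mem_ball hr.1 hr.2 t)).trans (le_max_left _ _)
  · intro ε hε
    obtain ⟨δ, hδ, hu⟩ := unif d C hd ε hε
    obtain ⟨r1, hr1, hr1', hu1⟩ := hf1 δ hδ
    obtain ⟨r2, hr2, hr2', hu2⟩ := hg1 δ hδ
    have h1 : Ioo (max r1 r2) 1 ∈ 𝓝[<] (1 : ℝ) := Ioo_mem_nhdsLT (max_lt hr1' hr2')
    filter_upwards [h1, ev_Ioo] with r hr hr'
    refine Filter.Eventually.of_forall (fun t => ?_)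
    have hm : ‖(r * ci t : ℂ)‖ < 1 := by simpa using mem_ball hr'.1 hr'.2 t
    exact hu _ _ _ _ ((hC1 _ hm).trans (le_max_left _ _)) ((hC2 _ hm).trans (le_max_right _ _))
      ((hC1' t).trans (le_max_left _ _)) ((hC2' t).trans (le_max_right _ _))
      (hu1 r t (lt_of_le_of_lt (le_max_left _ _) hr.1) hr.2)
      (hu2 r t (lt_of_le_of_lt (le_max_right _ _) hr.1) hr.2)
  · exact (cont_u huni hf hg hd).aestronglyMeasurable
  · filter_upwards [ev_Ioo] with r hr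
    exact int_cont (Complex.continuous_re.comp (cont_Vc hh hr.1 hr.2))
  · exact hh.int.re
  · refine squeeze_zero' ?_ ?_ hh.lim
    · exact Filter.Eventually.of_forall (fun r => integral_nonneg (fun t => abs_nonneg _))
    · filter_upwards [ev_Ioo] with r hr
      refine integral_mono_of_nonneg (Filter.Eventually.of_forall (fun t => abs_nonneg _)) ?_
        (Filter.Eventually.of_forall (fun t => ?_))
      · exact ((int_cont (cont_Vc hh hr.1 hr.2)).sub hh.int).norm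
      · simp only
        rw [← Complex.sub_re]
        exact Complex.abs_re_le_norm _

end HOML

/-- OML: the boundary term for `r → 1`. -/
theorem t_H_oml (huni : Stmt_H_uni) (hl1 : Stmt_H_l1) : Stmt_H_oml := by
  intro f g a b hf hg d hd
  have h1 := HOML.half huni hl1 hf hg hg hd
  have h2 := HOML.half huni hl1 hg hf hf hd
  have h3 := h1.sub h2
  have huc1 := HOML.cont_u huni hf hg hd
  have huc2 := HOML.cont_u huni hg hf hd
  have hlim : (∫ t, ob d (bv f) (bv g) a b t ∂cm) =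
      (∫ t, 2 * bv f t / (d ^ 2 + (bv f t ^ 2 + bv g t ^ 2)) * (b t).re ∂cm) -
      ∫ t, 2 * bv g t / (d ^ 2 + (bv g t ^ 2 + bv f t ^ 2)) * (a t).re ∂cm := by
    obtain ⟨_, ⟨C1, hC1, hC1'⟩, _, _⟩ := huni f a hf
    obtain ⟨_, ⟨C2, hC2, hC2'⟩, _, _⟩ := huni g b hg
    rw [← integral_sub]
    · refine integral_congr_ae (Filter.Eventually.of_forall (fun t => ?_))
      simp only [ob]
      rw [add_comm (bv g t ^ 2) (bv f t ^ 2)]
      have : d ^ 2 + (bv f t ^ 2 + bv g t ^ 2) ≠ 0 := by positivity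
      field_simp
    · refine hg.int.re.bdd_mul (c := 2 * C1 / d ^ 2) huc1.aestronglyMeasurable
        (Filter.Eventually.of_forall (fun t => ?_))
      rw [Real.norm_eq_abs]
      exact HOML.bound d C1 _ _ hd (hC1' t)
    · refine hf.int.re.bdd_mul (c := 2 * C2 / d ^ 2) huc2.aestronglyMeasurable
        (Filter.Eventually.of_forall (fun t => ?_))
      rw [Real.norm_eq_abs]
      exact HOML.bound d C2 _ _ hd (hC2' t)
  rw [hlim]
  refine h3.congr' ?_
  filter_upwards [HOML.ev_Ioo] with r hr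
  rw [← integral_sub]
  · refine integral_congr_ae (Filter.Eventually.of_forall (fun t => ?_))
    simp only [om, rs, hx]
    rw [add_comm ((hz g (r * ci t)).re ^ 2) ((hz f (r * ci t)).re ^ 2)]
    have : d ^ 2 + ((hz f (r * ci t)).re ^ 2 + (hz g (r * ci t)).re ^ 2) ≠ 0 := by positivity
    field_simp
  · exact HOML.int_cont ((HOML.cont_U hf hg hd hr.1 hr.2).mul
      (Complex.continuous_re.comp (HOML.cont_Vc hg hr.1 hr.2)))
  · exact HOML.int_cont ((HOML.cont_U hg hf hd hr.1 hr.2).mul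
      (Complex.continuous_re.comp (HOML.cont_Vc hf hr.1 hr.2)))

end Pool.Agent.FBM
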