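import Pool.Agent.FBM.StmtH

/-!
# FBM, block H, module ONE: the proportionality factors are one
-/

open MeasureTheory Set Filter Topology
open scoped Real

namespace Pool.Agent.FBM

namespace HONE

/-- the defect with factors has finite energy -/
lemma fe_h {y : Fin 3 → ℝ → ℝ} (hy : ∀ i, FE (y i)) (c : Fin 3 → ℝ) :
    FE (fun t => 1 - ∑ j, (c j * y j t) ^ 2) := by
  have h1 : ∀ j, FE (fun t => (c j * y j t) * (c j * y j t)) := fun j =>
    ((hy j).smul (c j)).mul ((hy j).smul (c j))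
  have h2 := (FE.const 1).sub (((h1 0).add (h1 1)).add (h1 2))
  refine (congrArg FE (funext fun t => ?_)).mp h2
  rw [Fin.sum_univ_three]; ring

/-- product of an integrable and a bounded measurable function -/
lemma int_mul {lam f : ℝ → ℝ} (hl : Integrable lam cm) (hf : FE f) :
    Integrable (fun t => lam t * f t) cm := by
  obtain ⟨C, hC⟩ := hf.bdd
  refine hl.mul_bdd (c := C) hf.meas.aestronglyMeasurable (Eventually.of_forall fun t => ?_)
  rw [Real.norm_eq_abs]; exact hC t

lemma cm_Ioo_pos {a b : ℝ} (ha : -π ≤ a) (hb : b ≤ π) (hab : a < b) : 0 < cm (Ioo a b) := by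
  unfold cm
  rw [Measure.restrict_apply measurableSet_Ioo]
  have : Ioo a b ∩ Ioc (-π) π = Ioo a b := by
    apply inter_eq_left.mpr
    intro t ht
    exact ⟨lt_of_le_of_lt ha ht.1, (ht.2.le).trans hb⟩
  rw [this, Real.volume_Ioo]
  exact ENNReal.ofReal_pos.mpr (by linarith)

lemma sub_pe (S : Set ℝ) : S ⊆ pe S := fun t ht => ⟨0, by simpa using ht⟩

lemma cm_side_pos (i : Fin 3) : 0 < cm (side i) := by
  have hpi := Real.pi_pos
  match i with
  | 0 =>
    refine lt_of_lt_of_le (cm_Ioo_pos (a := 0) (b := 2 * π / 3) (by linarith) (by linarith)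
      (by linarith)) (measure_mono ?_)
    exact sub_pe _
  | 1 =>
    refine lt_of_lt_of_le (cm_Ioo_pos (a := -(2 * π / 3)) (b := 0) (by linarith) (by linarith)
      (by linarith)) (measure_mono ?_)
    exact sub_pe _
  | 2 =>
    refine lt_of_lt_of_le (cm_Ioo_pos (a := 2 * π / 3) (b := π) (by linarith) (by linarith)
      (by linarith)) (measure_mono ?_)
    refine Subset.trans ?_ (sub_pe _)
    exact Ioo_subset_Ioo_right (by linarith)

/-- constants are detected on sets of positive measure -/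
lemma const_zero {f : ℝ → ℝ} {c : ℝ} {S : Set ℝ} (h1 : ∀ᵐ t ∂cm, f t = c)
    (h2 : ∀ᵐ t ∂cm, t ∈ S → f t = 0) (hS : 0 < cm S) : c = 0 := by
  by_contra hc
  have h3 : ∀ᵐ t ∂cm, t ∉ S := by
    filter_upwards [h1, h2] with t a b hs
    exact hc (a ▸ b hs)
  have h4 : cm S = 0 := by
    have := measure_eq_zero_iff_ae_notMem.mpr h3
    exact this
  exact hS.ne' h4

end HONE

open HONE in
theorem t_H_one (hnz : Stmt_H_nz) (hconst : Stmt_A_const) : Stmt_H_one := by
  intro y lam T c hC h0 h1 hz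
  have hE := hC.el
  have hfe : ∀ i, FE (y i) := fun i => hE.oct.adm.fe i
  set h : ℝ → ℝ := fun t => 1 - ∑ j, (c j * y j t) ^ 2 with hh
  have hFh : FE h := fe_h hfe c
  -- pointwise identity
  have hTy : ∀ i t, T i t * y i t = lam t * (y i t * y i t) := by
    intro i t
    by_cases ht : t ∈ Dlim.Z i
    · rw [hE.oct.zeroE i t ht]; ring
    · rw [hE.T_off i t ht]; ring
  -- energies
  have hen : ∀ i, en (y i) (y i) = ∫ t, lam t * (y i t * y i t) ∂cm := by
    intro i
    rw [hE.weak i (y i) (hfe i)]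
    exact integral_congr_ae (Eventually.of_forall fun t => hTy i t)
  have hzero : ∀ i, ∫ t, lam t * ((y i t * y i t) * h t) ∂cm = 0 := by
    intro i
    have e := hE.weak i (fun t => y i t * h t) ((hfe i).mul hFh)
    rw [hz i] at e
    rw [e]
    refine integral_congr_ae (Eventually.of_forall fun t => ?_)
    have := hTy i t
    simp only
    calc lam t * ((y i t * y i t) * h t) = (lam t * (y i t * y i t)) * h t := by ring
      _ = (T i t * y i t) * h t := by rw [this]
      _ = T i t * (y i t * h t) := by ring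
  have hint1 : ∀ i, Integrable (fun t => lam t * ((y i t * y i t) * h t)) cm := fun i =>
    int_mul hE.lam_int (((hfe i).mul (hfe i)).mul hFh)
  have hint2 : ∀ i, Integrable (fun t => lam t * (y i t * y i t)) cm := fun i =>
    int_mul hE.lam_int ((hfe i).mul (hfe i))
  have hsum : ∑ i, (1 - c i ^ 2) * en (y i) (y i) = 0 := by
    have e1 : ∑ i, (1 - c i ^ 2) * en (y i) (y i)
        = ∫ t, ∑ i, (1 - c i ^ 2) * (lam t * (y i t * y i t)) ∂cm := by
      rw [integral_finsetSum _ fun i _ => (hint2 i).const_mul _]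
      refine Finset.sum_congr rfl fun i _ => ?_
      rw [integral_const_mul, hen i]
    have e2 : (0 : ℝ) = ∫ t, ∑ i, lam t * ((y i t * y i t) * h t) ∂cm := by
      rw [integral_finsetSum _ fun i _ => hint1 i]
      rw [Finset.sum_eq_zero fun i _ => hzero i]
    rw [e1, e2]
    refine integral_congr_ae ?_
    filter_upwards [hE.oct.adm.one] with t ht
    by_cases htH : t ∈ Dlim.H
    · have h2 := ht htH
      rw [Fin.sum_univ_three] at h2
      simp only [Fin.sum_univ_three, hh]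
      have h3 : (1 : ℝ) - ((c 0 * y 0 t) ^ 2 + (c 1 * y 1 t) ^ 2 + (c 2 * y 2 t) ^ 2)
          = (1 - c 0 ^ 2) * y 0 t ^ 2 + (1 - c 1 ^ 2) * y 1 t ^ 2 + (1 - c 2 ^ 2) * y 2 t ^ 2 := by
        linear_combination (-1) * h2
      rw [h3]
      have h4 : lam t * (y 0 t * y 0 t * ((1 - c 0 ^ 2) * y 0 t ^ 2 + (1 - c 1 ^ 2) * y 1 t ^ 2
            + (1 - c 2 ^ 2) * y 2 t ^ 2))
          + lam t * (y 1 t * y 1 t * ((1 - c 0 ^ 2) * y 0 t ^ 2 + (1 - c 1 ^ 2) * y 1 t ^ 2
            + (1 - c 2 ^ 2) * y 2 t ^ 2))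
          + lam t * (y 2 t * y 2 t * ((1 - c 0 ^ 2) * y 0 t ^ 2 + (1 - c 1 ^ 2) * y 1 t ^ 2
            + (1 - c 2 ^ 2) * y 2 t ^ 2))
          = (y 0 t ^ 2 + y 1 t ^ 2 + y 2 t ^ 2) * (lam t * ((1 - c 0 ^ 2) * y 0 t ^ 2
            + (1 - c 1 ^ 2) * y 1 t ^ 2 + (1 - c 2 ^ 2) * y 2 t ^ 2)) := by ring
      rw [h4, h2]; ring
    · rw [hE.lam_off t htH]; simp
  have hnn : ∀ i ∈ Finset.univ, 0 ≤ (1 - c i ^ 2) * en (y i) (y i) := fun i _ =>
    mul_nonneg (by nlinarith [h0 i, h1 i]) (en_self_nonneg _)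
  have hall := (Finset.sum_eq_zero_iff_of_nonneg hnn).mp hsum
  intro i
  have hi := hall i (Finset.mem_univ i)
  have hpos : en (y i) (y i) ≠ 0 := by
    intro he
    obtain ⟨k, hk⟩ := hconst (y i) (hfe i) he
    have hk0 : k = 0 := const_zero hk (hE.oct.adm.zero i) (cm_side_pos i)
    subst hk0
    exact hnz Dlim y lam T (Or.inl rfl) hC i hk
  have h2 : 1 - c i ^ 2 = 0 := (mul_eq_zero.mp hi).resolve_right hpos
  have h3 : (c i - 1) * (c i + 1) = 0 := by nlinarith
  rcases mul_eq_zero.mp h3 with h4 | h4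
  · linarith
  · have := h0 i; linarith

end Pool.Agent.FBM
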