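import Pool.Agent.FBM.StmtH

/-!
# FBM, block H: lower bound of the conformal area by the flux (PLB)
-/

set_option autoImplicit false

open MeasureTheory Set Filter Topology
open scoped Real

namespace Pool.Agent.FBM

namespace HPLB

theorem fe_abs_le {y : Fin 3 → ℝ → ℝ} (h0 : ∀ i t, 0 ≤ y i t) (h1 : ∀ t, ∑ i, y i t ^ 2 ≤ 1)
    (i : Fin 3) (t : ℝ) : |y i t| ≤ 1 := by
  have h2 : y i t ^ 2 ≤ 1 :=
    (Finset.single_le_sum (f := fun j => y j t ^ 2) (fun j _ => sq_nonneg _)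
      (Finset.mem_univ i)).trans (h1 t)
  rw [abs_of_nonneg (h0 i t)]
  nlinarith [h0 i t]

theorem diff_hz (hhzd : Stmt_H_hzd) {f : ℝ → ℝ} (hm : Measurable f) (hb : ∀ t, |f t| ≤ 1) :
    DifferentiableOn ℂ (hz f) (Metric.ball 0 1) := fun z hz1 =>
  (((hhzd f 1 hm hb z (by simpa using hz1)).1).differentiableAt).differentiableWithinAt

theorem cont_deriv (hhzd : Stmt_H_hzd) {f : ℝ → ℝ} (hm : Measurable f) (hb : ∀ t, |f t| ≤ 1) :
    ContinuousOn (deriv (hz f)) (Metric.ball 0 1) :=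
  ((diff_hz hhzd hm hb).deriv Metric.isOpen_ball).continuousOn

theorem aem (hhzd : Stmt_H_hzd) {f : ℝ → ℝ} (hm : Measurable f) (hb : ∀ t, |f t| ≤ 1) :
    AEMeasurable (fun z => ENNReal.ofReal (‖deriv (hz f) z‖ ^ 2))
      (volume.restrict (Metric.ball (0 : ℂ) 1)) :=
  (((cont_deriv hhzd hm hb).norm.pow 2).aemeasurable Metric.isOpen_ball.measurableSet).ennreal_ofReal

/-- the total energy -/
theorem lint_dens (hhzd : Stmt_H_hzd) (hdir : Stmt_A_dir) {y : Fin 3 → ℝ → ℝ}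
    (hfe : ∀ i, FE (y i)) (h0 : ∀ i t, 0 ≤ y i t) (h1 : ∀ t, ∑ i, y i t ^ 2 ≤ 1) :
    ∫⁻ z in Metric.ball (0 : ℂ) 1, ENNReal.ofReal (dens y z) = ENNReal.ofReal (ven y y) := by
  have e1 : ∀ z : ℂ, ENNReal.ofReal (dens y z) =
      ∑ i, ENNReal.ofReal (‖deriv (hz (y i)) z‖ ^ 2) := fun z => by
    unfold dens
    exact ENNReal.ofReal_sum_of_nonneg fun i _ => sq_nonneg _
  simp only [e1]
  rw [lintegral_finsetSum' _ fun i _ => aem hhzd (hfe i).meas (fe_abs_le h0 h1 i)]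
  unfold ven
  rw [ENNReal.ofReal_sum_of_nonneg fun i _ => en_self_nonneg _]
  exact Finset.sum_congr rfl fun i _ => hdir (y i) (hfe i)

theorem aem_dens (hhzd : Stmt_H_hzd) {y : Fin 3 → ℝ → ℝ}
    (hfe : ∀ i, FE (y i)) (h0 : ∀ i t, 0 ≤ y i t) (h1 : ∀ t, ∑ i, y i t ^ 2 ≤ 1) :
    AEMeasurable (fun z => ENNReal.ofReal (dens y z))
      (volume.restrict (Metric.ball (0 : ℂ) 1)) := by
  have h : ContinuousOn (dens y) (Metric.ball (0 : ℂ) 1) := by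
    unfold dens
    exact continuousOn_finsetSum _ fun i _ =>
      (cont_deriv hhzd (hfe i).meas (fe_abs_le h0 h1 i)).norm.pow 2
  exact (h.aemeasurable Metric.isOpen_ball.measurableSet).ennreal_ofReal

theorem dens_nonneg (y : Fin 3 → ℝ → ℝ) (z : ℂ) : 0 ≤ dens y z :=
  Finset.sum_nonneg fun _ _ => sq_nonneg _

theorem jc_le (y : Fin 3 → ℝ → ℝ) (z : ℂ) : |jc (hz (y 0)) (hz (y 1)) z| ≤ dens y z / 2 := by
  unfold jc dens
  have h1 := Complex.abs_im_le_norm (deriv (hz (y 0)) z * (starRingEnd ℂ) (deriv (hz (y 1)) z))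
  rw [norm_mul, RCLike.norm_conj] at h1
  refine h1.trans ?_
  rw [Fin.sum_univ_three]
  nlinarith [sq_nonneg (‖deriv (hz (y 0)) z‖ - ‖deriv (hz (y 1)) z‖),
    sq_nonneg ‖deriv (hz (y 2)) z‖]

theorem kap_nonneg (c ε : ℝ) : 0 ≤ kap c ε := by
  unfold kap; positivity

theorem kd_nonneg (d s : ℝ) : 0 ≤ kd d s := by
  unfold kd; positivity

theorem kd_far {d s ρ : ℝ} (hρ : 0 < ρ) (hs : ρ ^ 2 / 2 ≤ s) : kd d s ≤ 16 * d ^ 2 / ρ ^ 4 := by
  unfold kd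
  have h0 : 0 < ρ ^ 2 / 2 := by positivity
  have h1 : (ρ ^ 2 / 2) ^ 2 ≤ (d ^ 2 + s) ^ 2 :=
    pow_le_pow_left₀ h0.le (by nlinarith [sq_nonneg d]) 2
  have h2 : 4 * d ^ 2 / (d ^ 2 + s) ^ 2 ≤ 4 * d ^ 2 / (ρ ^ 2 / 2) ^ 2 :=
    div_le_div_of_nonneg_left (by positivity) (by positivity) h1
  refine h2.trans (le_of_eq ?_)
  field_simp
  ring

/-- pointwise inequality -/
theorem point (hptw : Stmt_H_ptw) (hpte : Stmt_H_pte) {y : Fin 3 → ℝ → ℝ}
    (hfe : ∀ i, FE (y i)) (h0 : ∀ i t, 0 ≤ y i t) (h1 : ∀ t, ∑ i, y i t ^ 2 ≤ 1)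
    {c ε δ ρ : ℝ} (hc0 : 0 < c) (hc1 : c < 1) (hε : 0 ≤ ε) (hρ : 0 < ρ)
    (hnear : ∀ z : ℂ, ‖z‖ < 1 → ‖z - 1‖ < δ → 1 - hx (y 2) z ≤ ε * (hx (y 0) z + hx (y 1) z))
    (hfar : ∀ z : ℂ, ‖z‖ < 1 → δ ≤ ‖z - 1‖ → ρ ≤ hx (y 0) z + hx (y 1) z)
    {z : ℂ} (hz1 : ‖z‖ < 1) :
    kap c ε * |kd (1 - c) (rs (hz (y 0)) (hz (y 1)) z) * jc (hz (y 0)) (hz (y 1)) z| ≤
      lc c (pt y z) ^ 2 * dens y z / 2 + kap c ε * (8 * (1 - c) ^ 2 / ρ ^ 4) * dens y z := by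
  obtain ⟨hp1, hp2, hp3⟩ := hpte y (fun i => (hfe i).meas) h0 h1 z hz1
  have hrs : rs (hz (y 0)) (hz (y 1)) z = pt y z 0 ^ 2 + pt y z 1 ^ 2 := by
    rw [hp1, hp1]; rfl
  have hk := kap_nonneg c ε
  have hkd := kd_nonneg (1 - c) (rs (hz (y 0)) (hz (y 1)) z)
  have hj := jc_le y z
  have hd := dens_nonneg y z
  rw [abs_mul, abs_of_nonneg hkd]
  rcases lt_or_ge ‖z - 1‖ δ with h | h
  · have hx2 : pt y z 2 ≤ 1 := by
      have h3 : pt y z 2 ^ 2 ≤ 1 :=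
        (Finset.single_le_sum (f := fun j => pt y z j ^ 2) (fun j _ => sq_nonneg _)
          (Finset.mem_univ 2)).trans hp3
      nlinarith [hp2 2]
    have h4 := hptw c ε (pt y z) hc0 hc1 hε hp2 hx2 (by
      have := hnear z hz1 h
      rw [hp1 0, hp1 1, hp1 2]
      exact this)
    rw [← hrs] at h4
    have h5 : kap c ε * (kd (1 - c) (rs (hz (y 0)) (hz (y 1)) z) *
        |jc (hz (y 0)) (hz (y 1)) z|) ≤ lc c (pt y z) ^ 2 * (dens y z / 2) := by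
      rw [← mul_assoc]
      exact mul_le_mul h4 hj (abs_nonneg _) (sq_nonneg _)
    have h6 : 0 ≤ kap c ε * (8 * (1 - c) ^ 2 / ρ ^ 4) * dens y z := by positivity
    linarith
  · have h3 := hfar z hz1 h
    rw [← hp1 0, ← hp1 1] at h3
    have h4 : ρ ^ 2 / 2 ≤ rs (hz (y 0)) (hz (y 1)) z := by
      rw [hrs]
      nlinarith [sq_nonneg (pt y z 0 - pt y z 1), hp2 0, hp2 1]
    have h5 := kd_far (d := 1 - c) hρ h4
    have h6 : kd (1 - c) (rs (hz (y 0)) (hz (y 1)) z) * |jc (hz (y 0)) (hz (y 1)) z| ≤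
        16 * (1 - c) ^ 2 / ρ ^ 4 * (dens y z / 2) :=
      mul_le_mul h5 hj (abs_nonneg _) (by positivity)
    have h7 := mul_le_mul_of_nonneg_left h6 hk
    have h8 : 0 ≤ lc c (pt y z) ^ 2 * dens y z / 2 := by positivity
    have h9 : kap c ε * (16 * (1 - c) ^ 2 / ρ ^ 4 * (dens y z / 2)) =
        kap c ε * (8 * (1 - c) ^ 2 / ρ ^ 4) * dens y z := by ring
    linarith

end HPLB

open HPLB in
theorem t_H_plb (hptw : Stmt_H_ptw) (hpte : Stmt_H_pte) (hhzd : Stmt_H_hzd)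
    (hdir : Stmt_A_dir) : Stmt_H_plb := by
  intro y hfe h0 h1 c ε δ ρ r hc0 hc1 hε hρ hr0 hr1 hnear hfar
  set g : ℂ → ℝ := fun z => kd (1 - c) (rs (hz (y 0)) (hz (y 1)) z) * jc (hz (y 0)) (hz (y 1)) z
    with hg
  set I := ∫⁻ z in Metric.ball (0 : ℂ) 1, ENNReal.ofReal (lc c (pt y z) ^ 2 * dens y z / 2)
    with hI
  have hk := kap_nonneg c ε
  set E : ℝ := 8 * (1 - c) ^ 2 / ρ ^ 4 with hE
  have hE0 : 0 ≤ E := by positivity
  have hv : 0 ≤ ven y y := ven_self_nonneg y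
  -- the integral of `|g|`
  have s1 : ENNReal.ofReal |∫ z in Metric.ball (0 : ℂ) r, g z| ≤
      ∫⁻ z in Metric.ball (0 : ℂ) 1, ENNReal.ofReal |g z| := by
    have h2 := enorm_integral_le_lintegral_enorm (μ := volume.restrict (Metric.ball (0 : ℂ) r)) g
    rw [Real.enorm_eq_ofReal_abs] at h2
    refine h2.trans ?_
    simp only [Real.enorm_eq_ofReal_abs]
    exact lintegral_mono_set (Metric.ball_subset_ball hr1.le)
  have s2 : ENNReal.ofReal (kap c ε * |∫ z in Metric.ball (0 : ℂ) r, g z|) ≤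
      I + ENNReal.ofReal (kap c ε * (E * ven y y)) := by
    rw [ENNReal.ofReal_mul hk]
    refine (mul_le_mul_right s1 _).trans ?_
    rw [← lintegral_const_mul' _ _ ENNReal.ofReal_ne_top]
    have s3 : ∫⁻ z in Metric.ball (0 : ℂ) 1, ENNReal.ofReal (kap c ε) * ENNReal.ofReal |g z| ≤
        ∫⁻ z in Metric.ball (0 : ℂ) 1, (ENNReal.ofReal (lc c (pt y z) ^ 2 * dens y z / 2) +
          ENNReal.ofReal (kap c ε * E) * ENNReal.ofReal (dens y z)) := by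
      refine setLIntegral_mono' measurableSet_ball fun z hz1 => ?_
      have hz2 : ‖z‖ < 1 := by simpa using hz1
      rw [← ENNReal.ofReal_mul hk, ← ENNReal.ofReal_mul (mul_nonneg hk hE0),
        ← ENNReal.ofReal_add (by have := dens_nonneg y z; positivity)
          (mul_nonneg (mul_nonneg hk hE0) (dens_nonneg y z))]
      exact ENNReal.ofReal_le_ofReal (point hptw hpte hfe h0 h1 hc0 hc1 hε hρ hnear hfar hz2)
    refine s3.trans ?_
    rw [lintegral_add_right' _ ((aem_dens hhzd hfe h0 h1).const_mul _),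
      lintegral_const_mul' _ _ ENNReal.ofReal_ne_top, lint_dens hhzd hdir hfe h0 h1,
      ← ENNReal.ofReal_mul (mul_nonneg hk hE0), mul_assoc]
  have s4 : kap c ε * (|∫ z in Metric.ball (0 : ℂ) r, g z| - E * ven y y) =
      kap c ε * |∫ z in Metric.ball (0 : ℂ) r, g z| - kap c ε * (E * ven y y) := by ring
  rw [s4, ENNReal.ofReal_sub _ (mul_nonneg hk (mul_nonneg hE0 hv))]
  exact tsub_le_iff_right.2 s2

end Pool.Agent.FBM
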