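import Pool.Agent.FBM.StmtH

/-!
# FBM, module H_pro: vanishing Picone defect gives proportional limits
-/

open MeasureTheory Set Filter Topology
open scoped Real

namespace Pool.Agent.FBM

namespace HPRO

theorem J_ne (s : ℝ) : ∀ᵐ t ∂cm, J s t ≠ 0 := by
  have h1 : ∀ᵐ t ∂cm, t ∉ Set.range (fun n : ℤ => s - 2 * (n * π)) := by
    unfold cm
    exact (Set.countable_range _).ae_notMem _
  filter_upwards [h1] with t ht hJ
  apply ht
  unfold J at hJ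
  have h2 : Real.sin ((s - t) / 2) = 0 := by
    by_contra h3
    have h4 : (0 : ℝ) < 1 / (4 * Real.sin ((s - t) / 2) ^ 2) := by positivity
    exact h4.ne' hJ
  obtain ⟨n, hn⟩ := Real.sin_eq_zero_iff.1 h2
  refine ⟨n, ?_⟩
  simp only
  rw [hn]
  ring

theorem prop {y g : ℝ → ℝ} {u : ℕ → ℝ → ℝ} (hy : FE y) (hy0 : ∀ t, 0 ≤ y t)
    (hy1 : ∀ t, y t ≤ 1) (hyn : ¬ ∀ᵐ t ∂cm, y t = 0) (hu : ∀ k, FE (u k))
    (hu0 : ∀ k t, 0 ≤ u k t) (hu1 : ∀ k t, u k t ≤ 1) (hg : Measurable g)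
    (hlim : ∀ᵐ t ∂cm, Tendsto (fun k => u k t) atTop (𝓝 (g t)))
    (hPD : Tendsto (fun k => PD y (u k)) atTop (𝓝 0)) :
    ∃ c, 0 ≤ c ∧ ∀ᵐ t ∂cm, g t = c * y t := by
  have hm : ∀ v : ℝ → ℝ, Measurable v →
      Measurable (fun p : ℝ × ℝ => J p.1 p.2 * (y p.1 * v p.2 - y p.2 * v p.1) ^ 2) := by
    intro v hv
    exact measurable_J.mul ((((hy.meas.comp measurable_fst).mul (hv.comp measurable_snd)).sub
      ((hy.meas.comp measurable_snd).mul (hv.comp measurable_fst))).pow_const 2)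
  have h0 : ∀ v : ℝ → ℝ, ∀ p : ℝ × ℝ, 0 ≤ J p.1 p.2 * (y p.1 * v p.2 - y p.2 * v p.1) ^ 2 :=
    fun v p => mul_nonneg (J_nonneg _ _) (sq_nonneg _)
  have hi : ∀ k, Integrable (fun p : ℝ × ℝ =>
      J p.1 p.2 * (y p.1 * u k p.2 - y p.2 * u k p.1) ^ 2) cm2 := by
    intro k
    refine (((hu k).fin.add hy.fin).const_mul 2).mono' (hm _ (hu k).meas).aestronglyMeasurable
      (Eventually.of_forall fun p => ?_)
    rw [Real.norm_eq_abs, abs_of_nonneg (h0 _ _)]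
    simp only [Pi.add_apply]
    rw [← mul_add, ← mul_assoc, mul_comm 2 (J p.1 p.2), mul_assoc]
    refine mul_le_mul_of_nonneg_left ?_ (J_nonneg _ _)
    have e : y p.1 * u k p.2 - y p.2 * u k p.1 =
        -(y p.1 * (u k p.1 - u k p.2)) + u k p.1 * (y p.1 - y p.2) := by ring
    have e1 : (y p.1 * (u k p.1 - u k p.2)) ^ 2 ≤ (u k p.1 - u k p.2) ^ 2 := by
      rw [mul_pow]
      have h2 : y p.1 ^ 2 ≤ 1 := pow_le_one₀ (hy0 _) (hy1 _)
      exact mul_le_of_le_one_left (sq_nonneg _) h2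
    have e2 : (u k p.1 * (y p.1 - y p.2)) ^ 2 ≤ (y p.1 - y p.2) ^ 2 := by
      rw [mul_pow]
      have h2 : u k p.1 ^ 2 ≤ 1 := pow_le_one₀ (hu0 _ _) (hu1 _ _)
      exact mul_le_of_le_one_left (sq_nonneg _) h2
    rw [e]
    nlinarith [sq_nonneg ((y p.1 * (u k p.1 - u k p.2)) + u k p.1 * (y p.1 - y p.2))]
  have h1 : ∀ k, ∫⁻ p, ENNReal.ofReal
      (J p.1 p.2 * (y p.1 * u k p.2 - y p.2 * u k p.1) ^ 2) ∂cm2 =
      ENNReal.ofReal (2 * π * PD y (u k)) := by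
    intro k
    rw [← ofReal_integral_eq_lintegral_ofReal (hi k) (Eventually.of_forall (h0 _))]
    congr 1
    unfold PD
    have := Real.pi_ne_zero
    field_simp
  have h2 : Tendsto (fun k => ∫⁻ p, ENNReal.ofReal
      (J p.1 p.2 * (y p.1 * u k p.2 - y p.2 * u k p.1) ^ 2) ∂cm2) atTop (𝓝 0) := by
    simp only [h1]
    have := ENNReal.tendsto_ofReal (hPD.const_mul (2 * π))
    simpa using this
  have h3 : ∫⁻ p, ENNReal.ofReal (J p.1 p.2 * (y p.1 * g p.2 - y p.2 * g p.1) ^ 2) ∂cm2 = 0 := by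
    have h4 : ∫⁻ p, ENNReal.ofReal (J p.1 p.2 * (y p.1 * g p.2 - y p.2 * g p.1) ^ 2) ∂cm2 =
        ∫⁻ p, liminf (fun k => ENNReal.ofReal
          (J p.1 p.2 * (y p.1 * u k p.2 - y p.2 * u k p.1) ^ 2)) atTop ∂cm2 := by
      refine lintegral_congr_ae ?_
      filter_upwards [ae_cm2_of_ae hlim] with p hp
      have h5 : Tendsto (fun k => ENNReal.ofReal
          (J p.1 p.2 * (y p.1 * u k p.2 - y p.2 * u k p.1) ^ 2)) atTop
          (𝓝 (ENNReal.ofReal (J p.1 p.2 * (y p.1 * g p.2 - y p.2 * g p.1) ^ 2))) :=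
        ENNReal.tendsto_ofReal ((((hp.2.const_mul _).sub (hp.1.const_mul _)).pow 2).const_mul _)
      exact h5.liminf_eq.symm
    rw [h4]
    refine le_antisymm ((lintegral_liminf_le fun k =>
      (hm _ (hu k).meas).ennreal_ofReal).trans ?_) zero_le
    rw [h2.liminf_eq]
  have h5 : ∀ᵐ p ∂cm2, J p.1 p.2 * (y p.1 * g p.2 - y p.2 * g p.1) ^ 2 = 0 := by
    rw [lintegral_eq_zero_iff (hm g hg).ennreal_ofReal] at h3
    filter_upwards [h3] with p hp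
    exact le_antisymm (ENNReal.ofReal_eq_zero.1 hp) (h0 g p)
  have h6 : ∀ᵐ s ∂cm, ∀ᵐ t ∂cm, J s t * (y s * g t - y t * g s) ^ 2 = 0 :=
    Measure.ae_ae_of_ae_prod h5
  have hg0 : ∀ᵐ t ∂cm, 0 ≤ g t := by
    filter_upwards [hlim] with t ht
    exact ge_of_tendsto' ht fun k => hu0 k t
  have h7 : ∃ s, y s ≠ 0 ∧ 0 ≤ g s ∧ ∀ᵐ t ∂cm, J s t * (y s * g t - y t * g s) ^ 2 = 0 := by
    by_contra hcon
    apply hyn
    filter_upwards [h6, hg0] with s h8 h9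
    by_contra h10
    exact hcon ⟨s, h10, h9, h8⟩
  obtain ⟨s, hs, hgs, h8⟩ := h7
  refine ⟨g s / y s, div_nonneg hgs (hy0 s), ?_⟩
  filter_upwards [h8, J_ne s] with t ht hJ
  have h9 : (y s * g t - y t * g s) ^ 2 = 0 := (mul_eq_zero.1 ht).resolve_left hJ
  have h10 : y s * g t - y t * g s = 0 := pow_eq_zero_iff (two_ne_zero) |>.1 h9
  rw [div_mul_eq_mul_div, eq_div_iff hs]
  linarith

theorem le_one_of {x : Fin 3 → ℝ} (h : ∑ i, x i ^ 2 ≤ 1) (i : Fin 3) :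
    x i ≤ 1 := by
  have h1 : x i ^ 2 ≤ 1 :=
    (Finset.single_le_sum (f := fun j => x j ^ 2) (fun j _ => sq_nonneg _)
      (Finset.mem_univ i)).trans h
  nlinarith [sq_nonneg (x i - 1)]

end HPRO

open HPRO in
theorem t_H_pro (hrel : Stmt_A_rellich) : Stmt_H_pro := by
  intro y X K hy hy0 hy1 hyn hX hX0 hX1 hK hPD
  have hXle : ∀ k i t, X k i t ≤ 1 := fun k i t =>
    le_one_of (x := fun j => X k j t) (hX1 k t) i
  have hyle : ∀ i t, y i t ≤ 1 := fun i t =>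
    le_one_of (x := fun j => y j t) (hy1 t) i
  have hXa : ∀ k i t, |X k i t| ≤ 1 := fun k i t => by
    rw [abs_of_nonneg (hX0 k i t)]
    exact hXle k i t
  have hen : ∀ k i, en (X k i) (X k i) ≤ K := fun k i =>
    (Finset.single_le_sum (f := fun j => en (X k j) (X k j)) (fun j _ => en_self_nonneg _)
      (Finset.mem_univ i)).trans (hK k)
  obtain ⟨φ₀, g₀, hφ₀, hg₀, -, -, hl₀⟩ := hrel (fun k => X k 0) 1 K (fun k => hX k 0)
    (fun k t => hXa k 0 t) (fun k => hen k 0)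
  obtain ⟨φ₁, g₁, hφ₁, hg₁, -, -, hl₁⟩ := hrel (fun k => X (φ₀ k) 1) 1 K (fun k => hX _ 1)
    (fun k t => hXa _ 1 t) (fun k => hen _ 1)
  obtain ⟨φ₂, g₂, hφ₂, hg₂, -, -, hl₂⟩ := hrel (fun k => X (φ₀ (φ₁ k)) 2) 1 K (fun k => hX _ 2)
    (fun k t => hXa _ 2 t) (fun k => hen _ 2)
  set φ : ℕ → ℕ := fun k => φ₀ (φ₁ (φ₂ k)) with hφd
  have hφ : StrictMono φ := hφ₀.comp (hφ₁.comp hφ₂)
  have hall : ∀ i, ∃ g : ℝ → ℝ, FE g ∧
      ∀ᵐ t ∂cm, Tendsto (fun k => X (φ k) i t) atTop (𝓝 (g t)) := by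
    intro i
    fin_cases i
    · refine ⟨g₀, hg₀, ?_⟩
      filter_upwards [hl₀] with t ht
      exact ht.comp (hφ₁.comp hφ₂).tendsto_atTop
    · refine ⟨g₁, hg₁, ?_⟩
      filter_upwards [hl₁] with t ht
      exact ht.comp hφ₂.tendsto_atTop
    · exact ⟨g₂, hg₂, hl₂⟩
  have hc : ∀ i, ∃ c : ℝ, 0 ≤ c ∧
      ∀ᵐ t ∂cm, Tendsto (fun k => X (φ k) i t) atTop (𝓝 (c * y i t)) := by
    intro i
    obtain ⟨g, hg, hl⟩ := hall i
    obtain ⟨c, hc, hgc⟩ := prop (hy i) (hy0 i) (hyle i) (hyn i) (fun k => hX (φ k) i)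
      (fun k t => hX0 (φ k) i t) (fun k t => hXle (φ k) i t) hg.meas hl
      ((hPD i).comp hφ.tendsto_atTop)
    refine ⟨c, hc, ?_⟩
    filter_upwards [hl, hgc] with t h1 h2
    rw [← h2]
    exact h1
  choose c hc0 hcl using hc
  refine ⟨φ, c, hφ, hc0, hcl, ?_⟩
  filter_upwards [ae_all_iff.2 hcl] with t ht
  have h1 : Tendsto (fun k => ∑ i, X (φ k) i t ^ 2) atTop (𝓝 (∑ i, (c i * y i t) ^ 2)) :=
    tendsto_finsetSum _ fun i _ => (ht i).pow 2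
  exact le_of_tendsto' h1 fun k => hX1 (φ k) t

end Pool.Agent.FBM
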