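import Pool.Agent.FBM.StmtH

/-!
# FBM, module PTE
-/

open MeasureTheory Set Filter Topology
open scoped Real

namespace Pool.Agent.FBM

namespace HPTE

/-- Poisson kernel -/
noncomputable def K (z : ℂ) (t : ℝ) : ℝ := (1 - ‖z‖ ^ 2) / ‖ci t - z‖ ^ 2

lemma norm_ci (t : ℝ) : ‖ci t‖ = 1 := by
  rw [ci, Complex.norm_exp_ofReal_mul_I]

lemma le_norm {z : ℂ} (t : ℝ) : 1 - ‖z‖ ≤ ‖ci t - z‖ := by
  have := norm_sub_norm_le (ci t) z
  rwa [norm_ci] at this

lemma K_nonneg {z : ℂ} (hz' : ‖z‖ < 1) (t : ℝ) : 0 ≤ K z t := by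
  refine div_nonneg ?_ (by positivity)
  nlinarith [norm_nonneg z]

lemma K_meas (z : ℂ) : Measurable (K z) := by
  have h : Measurable (fun t => ci t) := by
    unfold ci
    fun_prop
  exact measurable_const.div ((h.sub_const z).norm.pow_const 2)

lemma K_le {z : ℂ} (hz' : ‖z‖ < 1) (t : ℝ) : K z t ≤ (1 - ‖z‖ ^ 2) / (1 - ‖z‖) ^ 2 := by
  have h1 : 0 < 1 - ‖z‖ := by linarith
  refine div_le_div_of_nonneg_left ?_ (by positivity) ?_
  · nlinarith [norm_nonneg z]
  · exact pow_le_pow_left₀ h1.le (le_norm t) 2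

lemma int {z : ℂ} (hz' : ‖z‖ < 1) {f : ℝ → ℝ} (hf : Measurable f) {C : ℝ}
    (hC : ∀ t, |f t| ≤ C) : Integrable (fun t => K z t * f t) cm := by
  refine Integrable.mono' (integrable_const ((1 - ‖z‖ ^ 2) / (1 - ‖z‖) ^ 2 * C))
    ((K_meas z).mul hf).aestronglyMeasurable (Eventually.of_forall fun t => ?_)
  rw [Real.norm_eq_abs, abs_mul, abs_of_nonneg (K_nonneg hz' t)]
  exact mul_le_mul (K_le hz' t) (hC t) (abs_nonneg _) ((K_nonneg hz' t).trans (K_le hz' t))

end HPTE

open HPTE in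
theorem t_H_pte (hhzd : Stmt_H_hzd) (hmass : Stmt_H_mass) : Stmt_H_pte := by
  intro X hm h0 h1 z hz'
  have hb : ∀ i t, |X i t| ≤ 1 := by
    intro i t
    rw [abs_of_nonneg (h0 i t)]
    have h2 : X i t ^ 2 ≤ ∑ j, X j t ^ 2 :=
      Finset.single_le_sum (f := fun j => X j t ^ 2) (fun j _ => sq_nonneg _) (Finset.mem_univ i)
    have h3 := h1 t
    nlinarith [h0 i t]
  have hpi := Real.pi_pos
  -- Poisson formula
  have hv : ∀ i, hx (X i) z = (1 / (2 * π)) * ∫ t, K z t * X i t ∂cm := fun i =>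
    (hhzd (X i) 1 (hm i) (hb i) z hz').2
  have hK1 : ∫ t, K z t ∂cm = 2 * π := by
    have h2 := (hhzd (fun _ => 1) 1 measurable_const (fun t => by simp) z hz').2
    have h3 : hx (fun _ => 1) z = 1 := by
      rw [hx, hmass z hz']
      simp
    rw [h3] at h2
    have h4 : ∫ t, (1 - ‖z‖ ^ 2) / ‖ci t - z‖ ^ 2 * 1 ∂cm = ∫ t, K z t ∂cm := by
      refine integral_congr_ae (Eventually.of_forall fun t => ?_)
      simp only [K, mul_one]
    rw [h4] at h2
    have h5 : 2 * π * 1 = 2 * π * (1 / (2 * π) * ∫ t, K z t ∂cm) := by rw [← h2]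
    rw [show 2 * π * (1 / (2 * π) * ∫ t, K z t ∂cm) = ∫ t, K z t ∂cm by field_simp] at h5
    linarith
  have hpt : ∀ i, pt X z i = hx (X i) z := by
    intro i
    rw [pt, Fx, hx]
    congr 1
    refine extendFrom_eq (subset_closure (by rwa [mem_ball_zero_iff])) ?_
    exact ((hhzd (X i) 1 (hm i) (hb i) z hz').1.continuousAt).tendsto.mono_left
      nhdsWithin_le_nhds
  have hnn : ∀ i, 0 ≤ hx (X i) z := by
    intro i
    rw [hv]
    exact mul_nonneg (by positivity) (integral_nonneg fun t => mul_nonneg (K_nonneg hz' t) (h0 i t))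
  refine ⟨hpt, fun i => by rw [hpt]; exact hnn i, ?_⟩
  simp only [hpt]
  set v : Fin 3 → ℝ := fun i => hx (X i) z with hvdef
  set s : ℝ := Real.sqrt (∑ i, v i ^ 2) with hs
  have hs2 : s ^ 2 = ∑ i, v i ^ 2 := Real.sq_sqrt (Finset.sum_nonneg fun i _ => sq_nonneg _)
  have hs0 : 0 ≤ s := Real.sqrt_nonneg _
  have e1 : ∑ i, v i ^ 2 = (1 / (2 * π)) * ∫ t, K z t * ∑ i, v i * X i t ∂cm := by
    have e2 : ∫ t, K z t * ∑ i, v i * X i t ∂cm = ∑ i, v i * ∫ t, K z t * X i t ∂cm := by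
      have e3 : ∀ t, K z t * ∑ i, v i * X i t = ∑ i, v i * (K z t * X i t) := by
        intro t
        rw [Finset.mul_sum]
        exact Finset.sum_congr rfl fun i _ => by ring
      simp only [e3]
      rw [integral_finsetSum _ fun i _ => (int hz' (hm i) (hb i)).const_mul (v i)]
      exact Finset.sum_congr rfl fun i _ => integral_const_mul _ _
    rw [e2, Finset.mul_sum]
    refine Finset.sum_congr rfl fun i _ => ?_
    rw [show 1 / (2 * π) * (v i * ∫ t, K z t * X i t ∂cm) =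
      v i * (1 / (2 * π) * ∫ t, K z t * X i t ∂cm) by ring, ← hv i]
    rw [hvdef]
    ring
  have hKint : Integrable (K z) cm := by
    have := int hz' (f := fun _ => 1) measurable_const (C := 1) (fun t => by simp)
    simpa using this
  have e4 : ∫ t, K z t * ∑ i, v i * X i t ∂cm ≤ ∫ t, K z t * s ∂cm := by
    refine integral_mono ?_ (hKint.mul_const s) fun t => ?_
    · have e3 : ∀ t, K z t * ∑ i, v i * X i t = ∑ i, v i * (K z t * X i t) := by
        intro t
        rw [Finset.mul_sum]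
        exact Finset.sum_congr rfl fun i _ => by ring
      simp only [e3]
      exact integrable_finsetSum _ fun i _ => (int hz' (hm i) (hb i)).const_mul (v i)
    · refine mul_le_mul_of_nonneg_left ?_ (K_nonneg hz' t)
      refine (Real.sum_mul_le_sqrt_mul_sqrt _ _ _).trans ?_
      calc s * Real.sqrt (∑ i, X i t ^ 2) ≤ s * 1 := by
            refine mul_le_mul_of_nonneg_left ?_ hs0
            rw [← Real.sqrt_one]
            exact Real.sqrt_le_sqrt (h1 t)
        _ = s := mul_one s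
  rw [integral_mul_const, hK1] at e4
  have e5 : s ^ 2 ≤ s := by
    rw [hs2, e1]
    calc (1 / (2 * π)) * ∫ t, K z t * ∑ i, v i * X i t ∂cm ≤ (1 / (2 * π)) * (2 * π * s) :=
          mul_le_mul_of_nonneg_left e4 (by positivity)
      _ = s := by field_simp
  have e6 : s ≤ 1 := by
    by_contra hcon
    push Not at hcon
    nlinarith
  rw [← hs2]
  nlinarith

end Pool.Agent.FBM
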