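import Pool.Agent.FBM.StmtH

open MeasureTheory Set Filter Topology
open scoped Real

namespace Pool.Agent.FBM

namespace HPTW

/-- the denominator of the conformal factor is positive -/
lemma den_pos (c : ℝ) (x : Fin 3 → ℝ) (h0 : 0 < c) (h1 : c < 1) (hx : x 2 ≤ 1)
    (_hp : 0 ≤ x 2) : 0 < 1 - 2 * c * x 2 + c ^ 2 * ∑ i, x i ^ 2 := by
  have hs : ∑ i, x i ^ 2 = x 0 ^ 2 + x 1 ^ 2 + x 2 ^ 2 := Fin.sum_univ_three _
  rw [hs]
  have h2 : c * x 2 ≤ c := by nlinarith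
  have h3 : 0 < 1 - c * x 2 := by linarith
  have h4 : 0 < (1 - c * x 2) ^ 2 := by positivity
  have h5 : 0 ≤ c ^ 2 * (x 0 ^ 2 + x 1 ^ 2) := by positivity
  nlinarith

/-- upper bound of the denominator of the conformal factor -/
lemma den_le (c ε : ℝ) (x : Fin 3 → ℝ) (h0 : 0 < c) (h1 : c < 1) (he : 0 ≤ ε)
    (hn : ∀ i, 0 ≤ x i) (hx : x 2 ≤ 1) (hb : 1 - x 2 ≤ ε * (x 0 + x 1)) :
    1 - 2 * c * x 2 + c ^ 2 * ∑ i, x i ^ 2
      ≤ (1 + 2 * ε + 2 * ε ^ 2) * ((1 - c) ^ 2 + (x 0 ^ 2 + x 1 ^ 2)) := by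
  have hs : ∑ i, x i ^ 2 = x 0 ^ 2 + x 1 ^ 2 + x 2 ^ 2 := Fin.sum_univ_three _
  rw [hs]
  have n0 := hn 0
  have n1 := hn 1
  have n2 := hn 2
  set a := x 0 with ha
  set b := x 1 with hb'
  set w := x 2 with hw
  have hd : 0 < 1 - c := by linarith
  have hs2 : (a + b) ^ 2 ≤ 2 * (a ^ 2 + b ^ 2) := by nlinarith [sq_nonneg (a - b)]
  have hds : (1 - c) * (a + b) ≤ (1 - c) ^ 2 + (a ^ 2 + b ^ 2) := by
    nlinarith [sq_nonneg ((1 - c) - (a + b)), sq_nonneg (1 - c)]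
  have hes : 0 ≤ ε * (a + b) := by positivity
  have h2 : c * w ≤ c := by nlinarith
  have h3 : 0 ≤ 1 - c * w := by linarith
  have h4 : 1 - c * w ≤ (1 - c) + ε * (a + b) := by
    have : c * (1 - w) ≤ 1 * (1 - w) := mul_le_mul_of_nonneg_right h1.le (by linarith)
    nlinarith
  have h5 : (1 - c * w) ^ 2 ≤ ((1 - c) + ε * (a + b)) ^ 2 := pow_le_pow_left₀ h3 h4 2
  have h6 : c ^ 2 * (a ^ 2 + b ^ 2) ≤ 1 * (a ^ 2 + b ^ 2) := by
    apply mul_le_mul_of_nonneg_right _ (by positivity)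
    nlinarith
  have h7 : ε * ((1 - c) * (a + b)) ≤ ε * ((1 - c) ^ 2 + (a ^ 2 + b ^ 2)) :=
    mul_le_mul_of_nonneg_left hds he
  have h8 : ε ^ 2 * (a + b) ^ 2 ≤ ε ^ 2 * (2 * (a ^ 2 + b ^ 2)) :=
    mul_le_mul_of_nonneg_left hs2 (by positivity)
  have h9 : 0 ≤ ε ^ 2 * (1 - c) ^ 2 := by positivity
  nlinarith

end HPTW

theorem t_H_ptw : Stmt_H_ptw := by
  intro c ε x h0 h1 he hn hx hb
  have hN := HPTW.den_pos c x h0 h1 hx (hn 2)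
  have hL := HPTW.den_le c ε x h0 h1 he hn hx hb
  have hd : 0 < 1 - c := by linarith
  have hA : 0 < 1 + 2 * ε + 2 * ε ^ 2 := by positivity
  have hR : 0 < (1 - c) ^ 2 + (x 0 ^ 2 + x 1 ^ 2) := by positivity
  have e1 : kap c ε * kd (1 - c) (x 0 ^ 2 + x 1 ^ 2)
      = (((1 - c ^ 2)) / ((1 + 2 * ε + 2 * ε ^ 2) * ((1 - c) ^ 2 + (x 0 ^ 2 + x 1 ^ 2)))) ^ 2 := by
    unfold kap kd
    field_simp
    ring
  rw [e1]
  unfold lc
  apply pow_le_pow_left₀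
  · apply div_nonneg
    · nlinarith
    · positivity
  · apply div_le_div_of_nonneg_left _ hN hL
    nlinarith

end Pool.Agent.FBM
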