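import Pool.Agent.FBM.StmtH

/-!
# FBM, block H: Poisson integrals of functions with non-integrable `J 0 t g t` (module H_RAT)
-/

open MeasureTheory Set Filter Topology
open scoped Real

namespace Pool.Agent.FBM

namespace HRAT

theorem ci_cont : Continuous ci := by
  unfold ci
  fun_prop

theorem norm_ci (t : ℝ) : ‖ci t‖ = 1 := by
  unfold ci
  exact Complex.norm_exp_ofReal_mul_I t

theorem sq_ci_sub_one (t : ℝ) : ‖ci t - 1‖ ^ 2 = 4 * Real.sin (t / 2) ^ 2 := by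
  have h1 : ‖ci t - 1‖ ^ 2 = (Real.cos t - 1) ^ 2 + Real.sin t ^ 2 := by
    rw [← Complex.normSq_eq_norm_sq, Complex.normSq_apply]
    have hre : (ci t - 1).re = Real.cos t - 1 := by
      unfold ci
      rw [Complex.sub_re, Complex.exp_ofReal_mul_I_re, Complex.one_re]
    have him : (ci t - 1).im = Real.sin t := by
      unfold ci
      rw [Complex.sub_im, Complex.exp_ofReal_mul_I_im, Complex.one_im, sub_zero]
    rw [hre, him]
    ring
  rw [h1]
  have h2 : Real.cos t = 1 - 2 * Real.sin (t / 2) ^ 2 := by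
    have h3 := Real.cos_two_mul (t / 2)
    have h4 := Real.sin_sq_add_cos_sq (t / 2)
    have e : 2 * (t / 2) = t := by ring
    rw [e] at h3
    linarith
  have h5 := Real.sin_sq_add_cos_sq t
  have h6 : (Real.cos t - 1) ^ 2 + Real.sin t ^ 2 = 2 - 2 * Real.cos t := by
    nlinarith
  rw [h6, h2]
  ring

theorem J_eq (t : ℝ) : J 0 t = 1 / ‖ci t - 1‖ ^ 2 := by
  rw [sq_ci_sub_one]
  unfold J
  have e : (0 - t) / 2 = -(t / 2) := by ring
  rw [e, Real.sin_neg, neg_sq]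

/-- the approximations -/
noncomputable def Fn (g : ℝ → ℝ) (n : ℕ) (t : ℝ) : ℝ :=
  g t / (‖ci t - 1‖ + 1 / ((n : ℝ) + 1)) ^ 2

theorem den_pos (n : ℕ) (t : ℝ) : 0 < ‖ci t - 1‖ + 1 / ((n : ℝ) + 1) := by
  have := norm_nonneg (ci t - 1)
  positivity

theorem Fn_meas {g : ℝ → ℝ} (hg : Measurable g) (n : ℕ) : Measurable (Fn g n) := by
  unfold Fn
  refine hg.div ?_
  have : Continuous fun t : ℝ => (‖ci t - 1‖ + 1 / ((n : ℝ) + 1)) ^ 2 := by
    have := ci_cont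
    fun_prop
  exact this.measurable

theorem Fn_nonneg {g : ℝ → ℝ} (hg : ∀ t, 0 ≤ g t) (n : ℕ) (t : ℝ) : 0 ≤ Fn g n t := by
  unfold Fn
  exact div_nonneg (hg t) (sq_nonneg _)

theorem Fn_int {g : ℝ → ℝ} {C : ℝ} (hm : Measurable g) (h0 : ∀ t, 0 ≤ g t)
    (hC : ∀ t, g t ≤ C) (n : ℕ) : Integrable (Fn g n) cm := by
  refine Integrable.of_bound (C := C / (1 / ((n : ℝ) + 1)) ^ 2) (Fn_meas hm n).aestronglyMeasurable ?_
  refine Eventually.of_forall fun t => ?_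
  rw [Real.norm_eq_abs, abs_of_nonneg (Fn_nonneg h0 n t)]
  unfold Fn
  have h1 : 0 < 1 / ((n : ℝ) + 1) := by positivity
  have h2 : 1 / ((n : ℝ) + 1) ≤ ‖ci t - 1‖ + 1 / ((n : ℝ) + 1) := by
    have := norm_nonneg (ci t - 1)
    linarith
  have h3 : 0 ≤ C := (h0 t).trans (hC t)
  exact div_le_div₀ h3 (hC t) (by positivity) (pow_le_pow_left₀ h1.le h2 2)

theorem ae_ne : ∀ᵐ t ∂cm, ci t ≠ 1 := by
  have h0 : ∀ᵐ t : ℝ ∂cm, t ≠ 0 := by
    unfold cm
    apply ae_restrict_of_ae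
    rw [ae_iff]
    have : {t : ℝ | ¬ t ≠ 0} = {0} := by
      ext t
      simp
    rw [this]
    exact measure_singleton 0
  have h1 : ∀ᵐ t : ℝ ∂cm, t ∈ Ioc (-π) π := by
    unfold cm
    exact ae_restrict_mem measurableSet_Ioc
  filter_upwards [h0, h1] with t ht0 ht1 h
  have h2 : ‖ci t - 1‖ ^ 2 = 0 := by
    rw [h]
    simp
  rw [sq_ci_sub_one] at h2
  have h3 : Real.sin (t / 2) = 0 := by
    have : Real.sin (t / 2) ^ 2 = 0 := by linarith
    exact pow_eq_zero_iff (two_ne_zero) |>.1 this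
  have h4 : t / 2 = 0 := by
    have h5 := ht1.1
    have h6 := ht1.2
    have hpi := Real.pi_pos
    exact (Real.sin_eq_zero_iff_of_lt_of_lt (by linarith) (by linarith)).1 h3
  exact ht0 (by linarith)

theorem tend {g : ℝ → ℝ} (hm : Measurable g) (h0 : ∀ t, 0 ≤ g t) :
    Tendsto (fun n : ℕ => ∫⁻ t, ENNReal.ofReal (Fn g n t) ∂cm) atTop
      (𝓝 (∫⁻ t, ENNReal.ofReal (J 0 t * g t) ∂cm)) := by
  refine lintegral_tendsto_of_tendsto_of_monotone ?_ ?_ ?_
  · intro n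
    exact (Fn_meas hm n).ennreal_ofReal.aemeasurable
  · refine Eventually.of_forall fun t n m hnm => ?_
    apply ENNReal.ofReal_le_ofReal
    unfold Fn
    have h1 : 1 / ((m : ℝ) + 1) ≤ 1 / ((n : ℝ) + 1) := by
      apply one_div_le_one_div_of_le (by positivity)
      have : (n : ℝ) ≤ m := by exact_mod_cast hnm
      linarith
    have h2 := den_pos m t
    apply div_le_div_of_nonneg_left (h0 t) (by positivity)
    exact pow_le_pow_left₀ h2.le (by linarith) 2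
  · filter_upwards [ae_ne] with t ht
    apply ENNReal.tendsto_ofReal
    have h1 : ‖ci t - 1‖ ≠ 0 := norm_ne_zero_iff.2 (sub_ne_zero.2 ht)
    have h2 : Tendsto (fun n : ℕ => 1 / ((n : ℝ) + 1)) atTop (𝓝 0) :=
      tendsto_one_div_add_atTop_nhds_zero_nat
    have h3 : Tendsto (fun n : ℕ => (‖ci t - 1‖ + 1 / ((n : ℝ) + 1)) ^ 2) atTop
        (𝓝 ((‖ci t - 1‖ + 0) ^ 2)) := (tendsto_const_nhds.add h2).pow 2
    rw [add_zero] at h3
    have h4 : Tendsto (fun n : ℕ => g t / (‖ci t - 1‖ + 1 / ((n : ℝ) + 1)) ^ 2) atTop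
        (𝓝 (g t / ‖ci t - 1‖ ^ 2)) := tendsto_const_nhds.div h3 (pow_ne_zero 2 h1)
    have e : J 0 t * g t = g t / ‖ci t - 1‖ ^ 2 := by
      rw [J_eq]
      ring
    rw [e]
    exact h4

theorem top {g : ℝ → ℝ} (hm : Measurable g) (h0 : ∀ t, 0 ≤ g t)
    (hni : ¬ Integrable (fun t => J 0 t * g t) cm) :
    ∫⁻ t, ENNReal.ofReal (J 0 t * g t) ∂cm = ⊤ := by
  by_contra hne
  apply hni
  refine (lintegral_ofReal_ne_top_iff_integrable ?_ ?_).1 hne
  · have h1 : Measurable fun t : ℝ => J 0 t := by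
      unfold J
      fun_prop
    exact (h1.mul hm).aestronglyMeasurable
  · exact Eventually.of_forall fun t => mul_nonneg (J_nonneg 0 t) (h0 t)

theorem exists_n {g : ℝ → ℝ} {C : ℝ} (hm : Measurable g) (h0 : ∀ t, 0 ≤ g t)
    (hC : ∀ t, g t ≤ C) (hni : ¬ Integrable (fun t => J 0 t * g t) cm) (K : ℝ) :
    ∃ n : ℕ, 2 * π * K ≤ ∫ t, Fn g n t ∂cm := by
  have h1 := tend hm h0
  rw [top hm h0 hni] at h1
  have h2 : ∀ᶠ n : ℕ in atTop, ENNReal.ofReal (2 * π * K) <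
      ∫⁻ t, ENNReal.ofReal (Fn g n t) ∂cm :=
    h1.eventually (lt_mem_nhds ENNReal.ofReal_lt_top)
  obtain ⟨n, hn⟩ := h2.exists
  refine ⟨n, ?_⟩
  rw [← ofReal_integral_eq_lintegral_ofReal (Fn_int hm h0 hC n)
    (Eventually.of_forall (Fn_nonneg h0 n))] at hn
  exact (ENNReal.ofReal_le_ofReal_iff (integral_nonneg (Fn_nonneg h0 n))).1 hn.le

end HRAT

open HRAT in
theorem t_H_rat (hhzd : Stmt_H_hzd) : Stmt_H_rat := by
  intro g C hm h0 hC hni K
  obtain ⟨n, hn⟩ := exists_n hm h0 hC hni K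
  have hpi := Real.pi_pos
  refine ⟨1 / ((n : ℝ) + 1), by positivity, fun z hz hz1 => ?_⟩
  have habs : ∀ t, |g t| ≤ C := fun t => by
    rw [abs_of_nonneg (h0 t)]
    exact hC t
  rw [(hhzd g C hm habs z hz).2]
  have hz2 : 0 < 1 - ‖z‖ ^ 2 := by
    have := norm_nonneg z
    nlinarith
  have hlow : ∀ t, 1 - ‖z‖ ≤ ‖ci t - z‖ := by
    intro t
    have := norm_sub_norm_le (ci t) z
    rwa [norm_ci] at this
  have hz3 : 0 < 1 - ‖z‖ := by linarith
  have hint : Integrable (fun t => (1 - ‖z‖ ^ 2) / ‖ci t - z‖ ^ 2 * g t) cm := by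
    refine Integrable.of_bound (C := (1 - ‖z‖ ^ 2) / (1 - ‖z‖) ^ 2 * C) ?_ ?_
    · refine (Measurable.mul ?_ hm).aestronglyMeasurable
      refine measurable_const.div ?_
      have : Continuous fun t : ℝ => ‖ci t - z‖ ^ 2 := by
        have := ci_cont
        fun_prop
      exact this.measurable
    · refine Eventually.of_forall fun t => ?_
      have h1 := hlow t
      rw [Real.norm_eq_abs, abs_of_nonneg (mul_nonneg (div_nonneg hz2.le (sq_nonneg _)) (h0 t))]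
      refine mul_le_mul ?_ (hC t) (h0 t) (div_nonneg hz2.le (sq_nonneg _))
      exact div_le_div_of_nonneg_left hz2.le (by positivity) (pow_le_pow_left₀ hz3.le h1 2)
  have hle : ∫ t, (1 - ‖z‖ ^ 2) * Fn g n t ∂cm ≤
      ∫ t, (1 - ‖z‖ ^ 2) / ‖ci t - z‖ ^ 2 * g t ∂cm := by
    refine integral_mono ((Fn_int hm h0 hC n).const_mul _) hint fun t => ?_
    have h1 := hlow t
    have h2 : ‖ci t - z‖ ≤ ‖ci t - 1‖ + 1 / ((n : ℝ) + 1) := by
      have h3 : ‖ci t - z‖ ≤ ‖ci t - 1‖ + ‖1 - z‖ := by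
        have := norm_add_le (ci t - 1) (1 - z)
        have e : ci t - 1 + (1 - z) = ci t - z := by ring
        rwa [e] at this
      rw [norm_sub_rev 1 z] at h3
      linarith
    have h4 : 0 < ‖ci t - z‖ := hz3.trans_le h1
    change (1 - ‖z‖ ^ 2) * Fn g n t ≤ (1 - ‖z‖ ^ 2) / ‖ci t - z‖ ^ 2 * g t
    have e : (1 - ‖z‖ ^ 2) / ‖ci t - z‖ ^ 2 * g t = (1 - ‖z‖ ^ 2) * (g t / ‖ci t - z‖ ^ 2) := by
      ring
    rw [e]
    refine mul_le_mul_of_nonneg_left ?_ hz2.le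
    unfold Fn
    exact div_le_div_of_nonneg_left (h0 t) (by positivity) (pow_le_pow_left₀ h4.le h2 2)
  rw [integral_const_mul] at hle
  have h5 : (1 - ‖z‖ ^ 2) * (2 * π * K) ≤ (1 - ‖z‖ ^ 2) * ∫ t, Fn g n t ∂cm :=
    mul_le_mul_of_nonneg_left hn hz2.le
  have h6 : K * (1 - ‖z‖ ^ 2) = 1 / (2 * π) * ((1 - ‖z‖ ^ 2) * (2 * π * K)) := by
    field_simp
  rw [h6]
  exact mul_le_mul_of_nonneg_left (h5.trans hle) (by positivity)

end Pool.Agent.FBM
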