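import Pool.Agent.FBM.StmtH

/-!
# H_sid: sides 0 and 1 contribute nothing (MP_947d36_gt, block H)
-/

open MeasureTheory Set Filter Topology
open scoped Real

namespace Pool.Agent.FBM

namespace HSID

/-- periodic functions integrable over one period are integrable over every interval -/
lemma ii_of_per {b : ℝ → ℂ} (hp : Function.Periodic b (2 * π)) (hi : Integrable b cm)
    (x y : ℝ) : IntervalIntegrable b volume x y := by
  refine hp.intervalIntegrable (t := -π) (by positivity) ?_ x y
  have e : -π + 2 * π = π := by ring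
  rw [e, intervalIntegrable_iff_integrableOn_Ioc_of_le (by linarith [Real.pi_pos])]
  exact hi

lemma re_ii {b : ℝ → ℂ} (hp : Function.Periodic b (2 * π)) (hi : Integrable b cm)
    (x y : ℝ) : IntervalIntegrable (fun t => (b t).re) volume x y := by
  have h := ii_of_per hp hi x y
  exact ⟨h.1.re, h.2.re⟩

/-- where the boundary value vanishes, the real part of the derivative vanishes -/
lemma re_zero {f : ℝ → ℝ} {b : ℝ → ℂ} (h : BdH f b) {α β : ℝ} (hαβ : α < β)
    (h0 : ∀ t ∈ Icc α β, bv f t = 0) : ∀ᵐ t : ℝ, t ∈ Ioo α β → (b t).re = 0 := by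
  have hi : ∀ s t : ℝ, s ∈ Icc α β → t ∈ Icc α β → s ≤ t → ∫ u in s..t, (b u).re = 0 := by
    intro s t hs ht hst
    have h1 := congrArg Complex.re (h.ftc s t hst)
    rw [Complex.sub_re] at h1
    have h2 : (∫ u in s..t, b u).re = ∫ u in s..t, (b u).re := by
      have := Complex.reCLM.intervalIntegral_comp_comm (ii_of_per h.per h.int s t)
      simpa using this.symm
    rw [h2] at h1
    have h3 : (Fx f (ci t)).re = 0 := h0 t ht
    have h4 : (Fx f (ci s)).re = 0 := h0 s hs
    rw [h3, h4] at h1
    linarith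
  have had := (re_ii h.per h.int α β).ae_hasDerivAt_integral
  filter_upwards [had] with t ht htm
  have htI : t ∈ Icc α β := Ioo_subset_Icc_self htm
  have h5 := ht (by rw [uIcc_of_le hαβ.le]; exact htI) α (by
    rw [uIcc_of_le hαβ.le]; exact left_mem_Icc.2 hαβ.le)
  have h6 : (fun x => ∫ u in α..x, (b u).re) =ᶠ[𝓝 t] fun _ => 0 := by
    filter_upwards [Ioo_mem_nhds htm.1 htm.2] with x hx
    exact hi α x (left_mem_Icc.2 hαβ.le) (Ioo_subset_Icc_self hx) hx.1.le
  have h7 : HasDerivAt (fun _ : ℝ => (0 : ℝ)) ((b t).re) t := h5.congr_of_eventuallyEq h6.symm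
  exact h7.unique (hasDerivAt_const t (0 : ℝ))

end HSID

open HSID in
theorem t_H_sid (hcor : Stmt_H_cor) : Stmt_H_sid := by
  intro y b hy hb d hd
  obtain ⟨hc, hper, -, -, hside, -, -⟩ := hcor y b hy hb
  have hπ := Real.pi_pos
  set g : ℝ → ℝ := ob d (bv (y 0)) (bv (y 1)) (b 0) (b 1) with hg
  have hgper : Function.Periodic g (2 * π) := by
    intro t
    simp only [hg, ob, hper 0 t, hper 1 t, (hb 0).per t, (hb 1).per t]
  -- integrability
  have hgi : ∀ x z : ℝ, IntervalIntegrable g volume x z := by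
    intro x z
    have hden : ∀ t, 0 < d ^ 2 + (bv (y 0) t ^ 2 + bv (y 1) t ^ 2) := fun t => by positivity
    have c1 : Continuous fun t => 2 * bv (y 0) t / (d ^ 2 + (bv (y 0) t ^ 2 + bv (y 1) t ^ 2)) :=
      (continuous_const.mul (hc 0)).div (by have h0 := hc 0; have h1 := hc 1; fun_prop) fun t => (hden t).ne'
    have c2 : Continuous fun t => 2 * bv (y 1) t / (d ^ 2 + (bv (y 0) t ^ 2 + bv (y 1) t ^ 2)) :=
      (continuous_const.mul (hc 1)).div (by have h0 := hc 0; have h1 := hc 1; fun_prop) fun t => (hden t).ne'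
    have i1 := (re_ii (hb 1).per (hb 1).int x z).continuousOn_mul (c1.continuousOn (s := uIcc x z))
    have i2 := (re_ii (hb 0).per (hb 0).int x z).continuousOn_mul (c2.continuousOn (s := uIcc x z))
    refine (i1.sub i2).congr ?_
    intro t _
    simp only [hg, ob]
    ring
  -- from the circle to an interval
  have e1 : ∫ t, g t ∂cm = ∫ t in (-π)..π, g t := by
    rw [intervalIntegral.integral_of_le (by linarith)]
    rfl
  have e2 : ∫ t in (-π)..π, g t = ∫ t in (-(2 * π / 3))..(4 * π / 3), g t := by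
    have := hgper.intervalIntegral_add_eq (-π) (-(2 * π / 3))
    rw [show -π + 2 * π = π by ring, show -(2 * π / 3) + 2 * π = 4 * π / 3 by ring] at this
    exact this
  have e3 : ∫ t in (-(2 * π / 3))..(4 * π / 3), g t =
      (∫ t in (-(2 * π / 3))..0, g t) + (∫ t in (0)..(2 * π / 3), g t)
        + ∫ t in (2 * π / 3)..(4 * π / 3), g t := by
    rw [intervalIntegral.integral_add_adjacent_intervals (hgi _ _) (hgi _ _),
      intervalIntegral.integral_add_adjacent_intervals (hgi _ _) (hgi _ _)]
  have z1 : ∀ t ∈ Icc (-(2 * π / 3)) 0, bv (y 1) t = 0 := by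
    intro t ht
    refine hside 1 t ?_
    have h1 : Ioo (-(2 * π / 3)) 0 ⊆ side 1 := fun s hs => ⟨0, by simpa using hs⟩
    have h2 := closure_mono h1
    rw [closure_Ioo (by linarith)] at h2
    exact h2 ht
  have z0 : ∀ t ∈ Icc 0 (2 * π / 3), bv (y 0) t = 0 := by
    intro t ht
    refine hside 0 t ?_
    have h1 : Ioo 0 (2 * π / 3) ⊆ side 0 := fun s hs => ⟨0, by simpa using hs⟩
    have h2 := closure_mono h1
    rw [closure_Ioo (by linarith)] at h2
    exact h2 ht
  have a1 : ∫ t in (-(2 * π / 3))..0, g t = 0 := by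
    have h1 := re_zero (hb 1) (by linarith) z1
    rw [intervalIntegral.integral_of_le (by linarith), integral_Ioc_eq_integral_Ioo]
    rw [setIntegral_congr_ae (g := fun _ => (0 : ℝ)) measurableSet_Ioo]
    · simp
    · filter_upwards [h1] with t ht htm
      simp only [hg, ob, ht htm, z1 t (Ioo_subset_Icc_self htm)]
      simp
  have a0 : ∫ t in (0)..(2 * π / 3), g t = 0 := by
    have h1 := re_zero (hb 0) (by linarith) z0
    rw [intervalIntegral.integral_of_le (by linarith), integral_Ioc_eq_integral_Ioo]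
    rw [setIntegral_congr_ae (g := fun _ => (0 : ℝ)) measurableSet_Ioo]
    · simp
    · filter_upwards [h1] with t ht htm
      simp only [hg, ob, ht htm, z0 t (Ioo_subset_Icc_self htm)]
      simp
  rw [e1, e2, e3, a1, a0, zero_add, zero_add]

end Pool.Agent.FBM
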