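import Pool.Agent.FBM.StmtH

/-!
# Module UNI: uniform convergence to the boundary values
-/

open MeasureTheory Set Filter Topology
open scoped Real

namespace Pool.Agent.FBM

namespace HUNI

lemma norm_ci (t : ℝ) : ‖ci t‖ = 1 := by
  unfold ci
  exact Complex.norm_exp_ofReal_mul_I t

lemma ci_mem (t : ℝ) : ci t ∈ Metric.closedBall (0 : ℂ) 1 := by
  rw [mem_closedBall_zero_iff, norm_ci]

lemma norm_rci {r : ℝ} (hr : 0 ≤ r) (t : ℝ) : ‖(r : ℂ) * ci t‖ = r := by
  rw [norm_mul, norm_ci, mul_one, Complex.norm_real, Real.norm_eq_abs, abs_of_nonneg hr]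

lemma ci_per (t : ℝ) : ci (t + 2 * π) = ci t := by
  unfold ci
  push_cast
  rw [add_mul, Complex.exp_add, Complex.exp_two_pi_mul_I, mul_one]

lemma continuous_ci : Continuous ci := by
  unfold ci
  fun_prop

end HUNI

open HUNI in
theorem t_H_uni : Stmt_H_uni := by
  intro f b hb
  have hK : IsCompact (Metric.closedBall (0 : ℂ) 1) := isCompact_closedBall 0 1
  refine ⟨fun ε hε => ?_, ?_, ?_, ?_⟩
  · have hu := hK.uniformContinuousOn_of_continuous hb.cont
    rw [Metric.uniformContinuousOn_iff] at hu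
    obtain ⟨δ, hδ, h⟩ := hu ε hε
    refine ⟨max (1 / 2) (1 - δ), lt_of_lt_of_le (by norm_num) (le_max_left _ _),
      max_lt (by norm_num) (by linarith), fun r t hr hr1 => ?_⟩
    have hr0 : 0 ≤ r := by linarith [le_max_left (1 / 2) (1 - δ)]
    have hrδ : 1 - r < δ := by linarith [le_max_right (1 / 2) (1 - δ)]
    have h1 : (r : ℂ) * ci t ∈ Metric.closedBall (0 : ℂ) 1 := by
      rw [mem_closedBall_zero_iff, norm_rci hr0]
      exact hr1.le
    have h2 : dist ((r : ℂ) * ci t) (ci t) < δ := by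
      have e : (r : ℂ) * ci t - ci t = -(((1 - r : ℝ) : ℂ) * ci t) := by
        push_cast
        ring
      rw [dist_eq_norm, e, norm_neg, norm_rci (by linarith)]
      exact hrδ
    have h3 := h _ h1 _ (ci_mem t) h2
    rw [dist_eq_norm] at h3
    have h4 : Fx f ((r : ℂ) * ci t) = hz f ((r : ℂ) * ci t) :=
      hb.eq _ (by rw [norm_rci hr0]; exact hr1)
    rw [hx, bv, ← h4, ← Complex.sub_re]
    exact (Complex.abs_re_le_norm _).trans h3.le
  · obtain ⟨C, hC⟩ := hK.exists_bound_of_continuousOn hb.cont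
    refine ⟨C, fun z hz => ?_, fun t => ?_⟩
    · rw [hx, ← hb.eq z hz]
      exact (Complex.abs_re_le_norm _).trans (hC z (by
        rw [mem_closedBall_zero_iff]
        exact hz.le))
    · rw [bv]
      exact (Complex.abs_re_le_norm _).trans (hC _ (ci_mem t))
  · exact Complex.continuous_re.comp (hb.cont.comp_continuous continuous_ci ci_mem)
  · intro t
    rw [bv, bv, ci_per]

end Pool.Agent.FBM
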