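import Pool.Agent.FBM.StmtH

/-!
# ZER: passage to the limit in the second claim of GAP
-/

open MeasureTheory Set Filter Topology
open scoped Real

namespace Pool.Agent.FBM

namespace HZER

lemma en_le_ven {y : Fin 3 → ℝ → ℝ} (i : Fin 3) : en (y i) (y i) ≤ ven y y :=
  Finset.single_le_sum (f := fun j => en (y j) (y j)) (fun j _ => en_self_nonneg _)
    (Finset.mem_univ i)

lemma le_one {y : Fin 3 → ℝ → ℝ} (h0 : ∀ i t, 0 ≤ y i t) (h1 : ∀ t, ∑ i, y i t ^ 2 ≤ 1)
    (i : Fin 3) (t : ℝ) : y i t ≤ 1 := by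
  have h2 : y i t ^ 2 ≤ ∑ j, y j t ^ 2 :=
    Finset.single_le_sum (f := fun j => y j t ^ 2) (fun j _ => sq_nonneg _) (Finset.mem_univ i)
  nlinarith [h0 i t, h1 t]

end HZER

theorem t_H_zer (hweak : Stmt_A_weak) (hprod : Stmt_A_prod) (hdfc : Stmt_H_dfc) :
    Stmt_H_zer := by
  intro y X K c hy hy0 hy1 hX hX0 hX1 hK hlim h0 i
  have hd : ∀ k, FE (dfc (X k)) ∧ (∀ t, 0 ≤ dfc (X k) t ∧ dfc (X k) t ≤ 1) ∧
      en (dfc (X k)) (dfc (X k)) ≤ 4 * ven (X k) (X k) := fun k => hdfc (X k) (hX k) (hX1 k)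
  have hyi := hy i
  have hyb : ∀ t, |y i t| ≤ 1 := fun t => by
    rw [abs_of_nonneg (hy0 i t)]
    exact HZER.le_one hy0 hy1 i t
  have hdb : ∀ k t, |dfc (X k) t| ≤ 1 := fun k t => by
    rw [abs_of_nonneg ((hd k).2.1 t).1]
    exact ((hd k).2.1 t).2
  have hg : FE (fun t => y i t * (1 - ∑ j, (c j * y j t) ^ 2)) := by
    have hs : FE (fun t => ∑ j, (c j * y j t) ^ 2) := by
      have h := ((((hy 0).smul (c 0)).mul ((hy 0).smul (c 0))).add
        (((hy 1).smul (c 1)).mul ((hy 1).smul (c 1)))).add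
        (((hy 2).smul (c 2)).mul ((hy 2).smul (c 2)))
      refine (congrArg FE (funext fun t => ?_)).mp h
      rw [Fin.sum_univ_three]
      ring
    exact hyi.mul ((FE.const 1).sub hs)
  have key : Tendsto (fun k => en (fun t => y i t * dfc (X k) t) (y i)) atTop
      (𝓝 (en (fun t => y i t * (1 - ∑ j, (c j * y j t) ^ 2)) (y i))) := by
    refine hweak (fun k t => y i t * dfc (X k) t) _ 1
      ((Real.sqrt (ven y y) + Real.sqrt (4 * K)) ^ 2) (fun k => hyi.mul (hd k).1) ?_ ?_ hg ?_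
      (y i) hyi
    · intro k t
      rw [abs_mul]
      calc |y i t| * |dfc (X k) t| ≤ 1 * 1 :=
            mul_le_mul (hyb t) (hdb k t) (abs_nonneg _) zero_le_one
        _ = 1 := one_mul 1
    · intro k
      refine (hprod _ _ hyi (hd k).1 hyb (hdb k)).trans ?_
      have h1 : Real.sqrt (en (y i) (y i)) ≤ Real.sqrt (ven y y) :=
        Real.sqrt_le_sqrt (HZER.en_le_ven i)
      have h2 : Real.sqrt (en (dfc (X k)) (dfc (X k))) ≤ Real.sqrt (4 * K) := by
        refine Real.sqrt_le_sqrt ((hd k).2.2.trans ?_)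
        linarith [hK k]
      exact pow_le_pow_left₀ (by positivity) (add_le_add h1 h2) 2
    · filter_upwards [hlim 0, hlim 1, hlim 2] with t h0' h1' h2'
      have h3 : Tendsto (fun k => ∑ j, X k j t ^ 2) atTop (𝓝 (∑ j, (c j * y j t) ^ 2)) := by
        simp only [Fin.sum_univ_three]
        exact ((h0'.pow 2).add (h1'.pow 2)).add (h2'.pow 2)
      unfold dfc
      exact (h3.const_sub 1).const_mul (y i t)
  have key2 : Tendsto (fun k => en (fun t => y i t * dfc (X k) t) (y i)) atTop (𝓝 0) :=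
    (h0 i).congr fun k => en_comm _ _
  rw [en_comm]
  exact tendsto_nhds_unique key key2

end Pool.Agent.FBM
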