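import Pool.Agent.FBM.H.DFC
import Pool.Agent.FBM.H.ADM
import Pool.Agent.FBM.H.NZ
import Pool.Agent.FBM.H.CS
import Pool.Agent.FBM.H.GAP
import Pool.Agent.FBM.H.PRO
import Pool.Agent.FBM.H.ZER
import Pool.Agent.FBM.H.COR
import Pool.Agent.FBM.H.CLE
import Pool.Agent.FBM.H.ONE
import Pool.Agent.FBM.H.CNV
import Pool.Agent.FBM.H.HZD
import Pool.Agent.FBM.H.HZL
import Pool.Agent.FBM.H.MASS
import Pool.Agent.FBM.H.PTE
import Pool.Agent.FBM.H.FAT
import Pool.Agent.FBM.H.DVL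
import Pool.Agent.FBM.H.DIV
import Pool.Agent.FBM.H.RAT
import Pool.Agent.FBM.H.FLA
import Pool.Agent.FBM.H.MIN
import Pool.Agent.FBM.H.GRP
import Pool.Agent.FBM.H.GRD
import Pool.Agent.FBM.H.GRE
import Pool.Agent.FBM.H.UNI
import Pool.Agent.FBM.H.L1
import Pool.Agent.FBM.H.OML
import Pool.Agent.FBM.H.SID
import Pool.Agent.FBM.H.AGR
import Pool.Agent.FBM.H.ARG
import Pool.Agent.FBM.H.FLU
import Pool.Agent.FBM.H.PTW
import Pool.Agent.FBM.H.PLB
import Pool.Agent.FBM.H.POL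
import Pool.Agent.FBM.H.MAIN

/-!
# FBM, block H: everything

`H_main` : `Stmt_H_main` from the statements of the other blocks only.
-/

open MeasureTheory Set Filter Topology
open scoped Real

namespace Pool.Agent.FBM

namespace HAll

theorem pic (h : Stmt_B_pic) : Stmt_H_pic := by
  intro D X lam T hD hE i hi y hy hy0
  exact h D X lam T hD hE i hi y hy hy0

theorem nz : Stmt_H_nz := t_H_nz
theorem hzd : Stmt_H_hzd := t_H_hzd
theorem mass : Stmt_H_mass := t_H_mass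
theorem cor : Stmt_H_cor := t_H_cor
theorem uni : Stmt_H_uni := t_H_uni
theorem l1 : Stmt_H_l1 := t_H_l1
theorem pte : Stmt_H_pte := t_H_pte hzd mass
theorem min : Stmt_H_min := t_H_min hzd nz cor
theorem dvl : Stmt_H_dvl := t_H_dvl hzd
theorem div : Stmt_H_div := t_H_div dvl hzd mass nz
theorem rat : Stmt_H_rat := t_H_rat hzd
theorem fla : Stmt_H_fla := t_H_fla hzd mass cor div rat
theorem gre : Stmt_H_gre := t_H_gre t_H_grp t_H_grd
theorem oml : Stmt_H_oml := t_H_oml uni l1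
theorem sid : Stmt_H_sid := t_H_sid cor
theorem arg : Stmt_H_arg := t_H_arg t_H_agr uni l1 cor min hzd nz
theorem flu : Stmt_H_flu := t_H_flu sid arg min oml
theorem fat : Stmt_H_fat := t_H_fat hzd (t_H_hzl hzd) pte
theorem plb (hdir : Stmt_A_dir) : Stmt_H_plb := t_H_plb t_H_ptw pte hzd hdir
theorem pol (hdir : Stmt_A_dir) : Stmt_H_pol := t_H_pol fla min flu gre (plb hdir)
theorem gap (hpic : Stmt_B_pic) (hprod : Stmt_A_prod) : Stmt_H_gap :=
  t_H_gap (pic hpic) (t_H_cs (pic hpic)) t_H_adm nz t_H_dfc hprod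
theorem cnv (hpic : Stmt_B_pic) (hprod : Stmt_A_prod) (hrel : Stmt_A_rellich)
    (hweak : Stmt_A_weak) (hconst : Stmt_A_const) : Stmt_H_cnv :=
  t_H_cnv (gap hpic hprod) (t_H_pro hrel) (t_H_zer hweak hprod t_H_dfc) (t_H_cle cor)
    (t_H_one nz hconst) nz

end HAll

/-- Block H. -/
theorem H_main (hrel : Stmt_A_rellich) (hweak : Stmt_A_weak) (hprod : Stmt_A_prod)
    (hconst : Stmt_A_const) (hdir : Stmt_A_dir) (hpic : Stmt_B_pic)
    (hmax : Stmt_C_max) (hedge : Stmt_C_edge) (hlim : Stmt_C_lim) (hlev : Stmt_C_lev)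
    (hnum : Stmt_C_num)
    (hbd : ∀ (D : Dat) (X : Fin 3 → ℝ → ℝ) (lam : ℝ → ℝ) (T : Fin 3 → ℝ → ℝ),
      D.Tm → Crit D X lam T → ∀ i, ∃ b, BdH (X i) b) : Stmt_H_main :=
  t_H_main hmax hedge hlim hlev hnum hbd hdir (HAll.cnv hpic hprod hrel hweak hconst) HAll.fat
    (HAll.pol hdir)

/-- Block H, with the interface of `Top`. -/
theorem H_main' (hrel : Stmt_A_rellich) (hweak : Stmt_A_weak) (hprod : Stmt_A_prod)
    (hconst : Stmt_A_const) (hdir : Stmt_A_dir) (hpic : Stmt_B_pic)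
    (hmax : Stmt_C_max) (hedge : Stmt_C_edge) (hlim : Stmt_C_lim) (hlev : Stmt_C_lev)
    (hnum : Stmt_C_num) (hD : Stmt_D_bd) : Stmt_H_main :=
  H_main hrel hweak hprod hconst hdir hpic hmax hedge hlim hlev hnum
    fun D X lam T h1 h2 i => (hD D X lam T h1 h2 i).imp fun _ h => HMAIN.bdh_of_bdc h

end Pool.Agent.FBM
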