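import Pool.Agent.FBM.StmtH

/-!
# FBM, block H: energy of the defect
-/

open MeasureTheory Set Filter Topology
open scoped Real

namespace Pool.Agent.FBM.HDFC

open Pool.Agent.FBM

theorem vec_ineq (a b : Fin 3 → ℝ) (ha : ∑ i, a i ^ 2 ≤ 1) (hb : ∑ i, b i ^ 2 ≤ 1) :
    ((1 - ∑ i, a i ^ 2) - (1 - ∑ i, b i ^ 2)) ^ 2 ≤ 4 * ∑ i, (a i - b i) ^ 2 := by
  have h1 : ((1 - ∑ i, a i ^ 2) - (1 - ∑ i, b i ^ 2)) = -∑ i, (a i - b i) * (a i + b i) := by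
    have : ∑ i, (a i - b i) * (a i + b i) = ∑ i, a i ^ 2 - ∑ i, b i ^ 2 := by
      rw [← Finset.sum_sub_distrib]
      exact Finset.sum_congr rfl fun i _ => by ring
    rw [this]; ring
  rw [h1, neg_sq]
  have h2 := Finset.sum_mul_sq_le_sq_mul_sq Finset.univ (fun i => a i - b i) (fun i => a i + b i)
  have h3 : ∑ i, (a i + b i) ^ 2 ≤ 4 := by
    have : ∑ i, (a i + b i) ^ 2 ≤ ∑ i, (2 * a i ^ 2 + 2 * b i ^ 2) :=
      Finset.sum_le_sum fun i _ => by nlinarith [sq_nonneg (a i - b i)]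
    rw [Finset.sum_add_distrib, ← Finset.mul_sum, ← Finset.mul_sum] at this
    linarith
  have h4 : 0 ≤ ∑ i, (a i - b i) ^ 2 := Finset.sum_nonneg fun i _ => sq_nonneg _
  nlinarith

theorem sum_int {X : Fin 3 → ℝ → ℝ} (hX : ∀ i, FE (X i)) :
    Integrable (fun p : ℝ × ℝ => ∑ i, J p.1 p.2 * (X i p.1 - X i p.2) ^ 2) cm2 :=
  integrable_finsetSum _ fun i _ => (hX i).fin

theorem dom {X : Fin 3 → ℝ → ℝ} (h1 : ∀ t, ∑ i, X i t ^ 2 ≤ 1) (p : ℝ × ℝ) :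
    J p.1 p.2 * (dfc X p.1 - dfc X p.2) ^ 2
      ≤ 4 * ∑ i, J p.1 p.2 * (X i p.1 - X i p.2) ^ 2 := by
  have h2 := mul_le_mul_of_nonneg_left
    (vec_ineq (fun i => X i p.1) (fun i => X i p.2) (h1 p.1) (h1 p.2)) (J_nonneg p.1 p.2)
  rw [← Finset.mul_sum]
  unfold dfc
  calc _ ≤ _ := h2
    _ = _ := by ring

theorem dfc_meas {X : Fin 3 → ℝ → ℝ} (hX : ∀ i, FE (X i)) : Measurable (dfc X) := by
  unfold dfc
  exact measurable_const.sub (Finset.measurable_sum _ fun i _ => (hX i).meas.pow_const 2)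

theorem dfc_fin {X : Fin 3 → ℝ → ℝ} (hX : ∀ i, FE (X i)) (h1 : ∀ t, ∑ i, X i t ^ 2 ≤ 1) :
    Integrable (fun p : ℝ × ℝ => J p.1 p.2 * (dfc X p.1 - dfc X p.2) ^ 2) cm2 := by
  refine ((sum_int hX).const_mul 4).mono' ?_ (Eventually.of_forall fun p => ?_)
  · exact (measurable_J.mul ((((dfc_meas hX).comp measurable_fst).sub
      ((dfc_meas hX).comp measurable_snd)).pow_const 2)).aestronglyMeasurable
  · rw [Real.norm_eq_abs, abs_of_nonneg (mul_nonneg (J_nonneg _ _) (sq_nonneg _))]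
    exact dom h1 p

end Pool.Agent.FBM.HDFC

namespace Pool.Agent.FBM

theorem t_H_dfc : Stmt_H_dfc := by
  intro X hX h1
  have hb : ∀ t, 0 ≤ dfc X t ∧ dfc X t ≤ 1 := fun t => by
    unfold dfc
    have h2 : 0 ≤ ∑ j, X j t ^ 2 := Finset.sum_nonneg fun i _ => sq_nonneg _
    have h3 := h1 t
    constructor <;> linarith
  have hfe : FE (dfc X) := by
    refine ⟨HDFC.dfc_meas hX, fun t => ?_, ⟨1, fun t => ?_⟩, HDFC.dfc_fin hX h1⟩
    · unfold dfc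
      simp only [(hX _).per t]
    · rw [abs_of_nonneg (hb t).1]
      exact (hb t).2
  refine ⟨hfe, hb, ?_⟩
  have h2 : ven X X = (1 / (2 * π)) * ∫ p, ∑ i, J p.1 p.2 * (X i p.1 - X i p.2) ^ 2 ∂cm2 := by
    unfold ven en
    rw [integral_finsetSum _ fun i _ => (hX i).fin, Finset.mul_sum]
    refine Finset.sum_congr rfl fun i _ => ?_
    simp only [sq]
  have h3 : en (dfc X) (dfc X)
      = (1 / (2 * π)) * ∫ p, J p.1 p.2 * (dfc X p.1 - dfc X p.2) ^ 2 ∂cm2 := by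
    unfold en
    simp only [sq]
  rw [h2, h3]
  have h4 : ∫ p, J p.1 p.2 * (dfc X p.1 - dfc X p.2) ^ 2 ∂cm2
      ≤ ∫ p, 4 * ∑ i, J p.1 p.2 * (X i p.1 - X i p.2) ^ 2 ∂cm2 :=
    integral_mono (HDFC.dfc_fin hX h1) ((HDFC.sum_int hX).const_mul 4) fun p => HDFC.dom h1 p
  rw [integral_const_mul] at h4
  have h5 : 0 ≤ 1 / (2 * π) := by positivity
  have h6 := mul_le_mul_of_nonneg_left h4 h5
  linarith [h6]

end Pool.Agent.FBM
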