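import Pool.Agent.FBM.StmtH

/-!
# DVL: radial limit of the derivative of the Herglotz integral at `1`
-/

open MeasureTheory Set Filter Topology
open scoped Real

namespace Pool.Agent.FBM
namespace HDVL

lemma ci_re (t : ℝ) : (ci t).re = Real.cos t := by
  simp [ci, Complex.exp_ofReal_mul_I_re]

lemma ci_im (t : ℝ) : (ci t).im = Real.sin t := by
  simp [ci, Complex.exp_ofReal_mul_I_im]

lemma ci_norm (t : ℝ) : ‖ci t‖ = 1 := by
  simp [ci, Complex.norm_exp_ofReal_mul_I]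

lemma dist_sq (r t : ℝ) : ‖ci t - (r : ℂ)‖ ^ 2 = (1 - r) ^ 2 + 4 * r * Real.sin (t / 2) ^ 2 := by
  rw [Complex.sq_norm, Complex.normSq_apply]
  simp only [Complex.sub_re, Complex.sub_im, ci_re, ci_im, Complex.ofReal_re, Complex.ofReal_im]
  have h1 : Real.cos t = 1 - 2 * Real.sin (t / 2) ^ 2 := by
    have h := Real.cos_two_mul (t / 2)
    rw [mul_div_cancel₀ t (two_ne_zero)] at h
    have h2 := Real.sin_sq_add_cos_sq (t / 2)
    linarith
  have h3 := Real.sin_sq_add_cos_sq t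
  have h4 : Real.sin t ^ 2 = 1 - Real.cos t ^ 2 := by linarith
  have e : (Real.cos t - r) * (Real.cos t - r) + (Real.sin t - 0) * (Real.sin t - 0) =
      Real.cos t ^ 2 - 2 * r * Real.cos t + r ^ 2 + Real.sin t ^ 2 := by ring
  rw [e, h4, h1]
  ring

lemma J_zero (t : ℝ) : J 0 t = 1 / (4 * Real.sin (t / 2) ^ 2) := by
  unfold J
  have : (0 - t) / 2 = -(t / 2) := by ring
  rw [this, Real.sin_neg, neg_sq]

/-- the limit kernel -/
lemma ker_one (t : ℝ) (h : Real.sin (t / 2) ≠ 0) :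
    2 * ci t / (ci t - ((1 : ℝ) : ℂ)) ^ 2 = ((-2 * J 0 t : ℝ) : ℂ) := by
  have hs : (Complex.sin (t / 2 : ℂ)) = ((Real.sin (t / 2) : ℝ) : ℂ) := by
    push_cast; rfl
  have h0 : ci t = Complex.exp ((t / 2 : ℂ) * Complex.I) ^ 2 := by
    rw [← Complex.exp_nat_mul]
    unfold ci
    congr 1
    push_cast
    ring
  have h1 : Complex.exp ((t / 2 : ℂ) * Complex.I) ^ 2 - 1 =
      2 * Complex.I * Complex.sin (t / 2 : ℂ) * Complex.exp ((t / 2 : ℂ) * Complex.I) := by
    have e1 : Complex.sin (t / 2 : ℂ) = (Complex.exp (-(t / 2 : ℂ) * Complex.I) -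
        Complex.exp ((t / 2 : ℂ) * Complex.I)) * Complex.I / 2 := rfl
    have e2 : Complex.exp (-(t / 2 : ℂ) * Complex.I) * Complex.exp ((t / 2 : ℂ) * Complex.I) = 1 := by
      rw [← Complex.exp_add]
      have : -(t / 2 : ℂ) * Complex.I + (t / 2 : ℂ) * Complex.I = 0 := by ring
      rw [this, Complex.exp_zero]
    rw [e1]
    linear_combination (-Complex.I ^ 2) * e2 +
      (Complex.exp ((t / 2 : ℂ) * Complex.I) ^ 2 - 1) * Complex.I_sq
  have hE : Complex.exp ((t / 2 : ℂ) * Complex.I) ≠ 0 := Complex.exp_ne_zero _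
  have hS : Complex.sin (t / 2 : ℂ) ≠ 0 := by
    rw [hs]; exact_mod_cast h
  rw [h0, Complex.ofReal_one, h1, J_zero]
  push_cast
  have hS' : Complex.sin (↑t / 2) ≠ 0 := hS
  have hI : Complex.I ≠ 0 := Complex.I_ne_zero
  field_simp
  rw [Complex.I_sq]
  ring

end HDVL

open HDVL in
theorem t_H_dvl (hhzd : Stmt_H_hzd) : Stmt_H_dvl := by
  intro f C hf hC hI
  have hpi := Real.pi_pos
  have hev : ∀ᶠ r : ℝ in 𝓝[<] 1, 1 / 2 < r ∧ r < 1 := by
    have a1 : ∀ᶠ r : ℝ in 𝓝[<] 1, 1 / 2 < r :=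
      mem_nhdsWithin_of_mem_nhds (lt_mem_nhds (by norm_num))
    have a3 : ∀ᶠ r : ℝ in 𝓝[<] 1, r < 1 := self_mem_nhdsWithin
    filter_upwards [a1, a3] with r b1 b3 using ⟨b1, b3⟩
  have hne : ∀ᵐ t ∂cm, Real.sin (t / 2) ≠ 0 := by
    unfold cm
    have h1 : ∀ᵐ t ∂(volume.restrict (Ioc (-π) π)), t ∈ Ioc (-π) π :=
      ae_restrict_mem measurableSet_Ioc
    have h2 : ∀ᵐ t ∂(volume.restrict (Ioc (-π) π)), t ≠ 0 :=
      ae_restrict_of_ae (compl_mem_ae_iff.2 (measure_singleton (0 : ℝ)))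
    filter_upwards [h1, h2] with t ht ht0 hs
    rcases Real.sin_eq_zero_iff_of_lt_of_lt (by linarith [ht.1]) (by linarith [ht.2]) |>.1 hs with h
    exact ht0 (by linarith)
  have hlim : Tendsto (fun r : ℝ => ∫ t, (2 * ci t / (ci t - (r : ℂ)) ^ 2) * (f t : ℂ) ∂cm)
      (𝓝[<] 1) (𝓝 (∫ t, (((-2 * J 0 t : ℝ) : ℂ)) * (f t : ℂ) ∂cm)) := by
    apply tendsto_integral_filter_of_dominated_convergence (fun t => 4 * ‖J 0 t * f t‖)
    · refine Eventually.of_forall fun r => ?_
      apply Measurable.aestronglyMeasurable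
      have hc : Continuous ci := by unfold ci; fun_prop
      exact ((hc.measurable.const_mul 2).div ((hc.measurable.sub_const _).pow_const 2)).mul
        (Complex.measurable_ofReal.comp hf)
    · filter_upwards [hev] with r hr
      filter_upwards [hne] with t ht
      have hs : 0 < Real.sin (t / 2) ^ 2 := by positivity
      have hd : 2 * Real.sin (t / 2) ^ 2 ≤ ‖ci t - (r : ℂ)‖ ^ 2 := by
        rw [dist_sq]
        nlinarith [hr.1, sq_nonneg (1 - r)]
      rw [norm_mul, norm_div, norm_mul, ci_norm, norm_pow, Complex.norm_real, norm_mul, J_zero]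
      have e1 : ‖(2 : ℂ)‖ = 2 := by simp
      have e2 : ‖1 / (4 * Real.sin (t / 2) ^ 2)‖ = 1 / (4 * Real.sin (t / 2) ^ 2) := by
        rw [Real.norm_of_nonneg]; positivity
      rw [e1, e2]
      have e3 : 2 * 1 / ‖ci t - (r : ℂ)‖ ^ 2 ≤ 4 * (1 / (4 * Real.sin (t / 2) ^ 2)) := by
        have e4 : 4 * (1 / (4 * Real.sin (t / 2) ^ 2)) = 2 * 1 / (2 * Real.sin (t / 2) ^ 2) := by
          field_simp
        rw [e4]
        exact div_le_div_of_nonneg_left (by norm_num) (by positivity) hd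
      calc _ ≤ (4 * (1 / (4 * Real.sin (t / 2) ^ 2))) * ‖f t‖ :=
            mul_le_mul_of_nonneg_right e3 (norm_nonneg _)
        _ = _ := by ring
    · exact hI.norm.const_mul 4
    · filter_upwards [hne] with t ht
      rw [← ker_one t ht]
      apply Tendsto.mul_const
      have hc : ContinuousAt (fun r : ℝ => 2 * ci t / (ci t - (r : ℂ)) ^ 2) 1 := by
        apply ContinuousAt.div continuousAt_const
        · fun_prop
        · intro h0
          have h1 : ‖ci t - ((1 : ℝ) : ℂ)‖ ^ 2 = 0 := by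
            rw [← norm_pow, h0, norm_zero]
          rw [dist_sq] at h1
          apply ht
          nlinarith [sq_nonneg (Real.sin (t / 2))]
      exact hc.tendsto.mono_left nhdsWithin_le_nhds
  have hval : ((-(1 / π) * ∫ t, J 0 t * f t ∂cm : ℝ) : ℂ) =
      (1 / (2 * π) : ℂ) * ∫ t, (((-2 * J 0 t : ℝ) : ℂ)) * (f t : ℂ) ∂cm := by
    have e1 : (fun t => (((-2 * J 0 t : ℝ) : ℂ)) * (f t : ℂ)) =
        fun t => (((-2) * (J 0 t * f t) : ℝ) : ℂ) := by
      funext t; push_cast; ring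
    rw [e1, integral_complex_ofReal, integral_const_mul]
    have hp : (π : ℂ) ≠ 0 := by exact_mod_cast hpi.ne'
    push_cast
    field_simp
  rw [hval]
  refine Tendsto.congr' ?_ (hlim.const_mul _)
  filter_upwards [hev] with r hr
  have hz1 : ‖(r : ℂ)‖ < 1 := by
    rw [Complex.norm_real, Real.norm_of_nonneg (by linarith [hr.1])]
    exact hr.2
  exact ((hhzd f C hf hC (r : ℂ) hz1).1.deriv).symm

end Pool.Agent.FBM
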