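import Pool.Agent.FBM.StmtH

/-!
# POL: the conformal area near the pole
-/

open MeasureTheory Set Filter Topology
open scoped Real

namespace Pool.Agent.FBM

namespace HPOL

lemma exists_eps {A : ℝ} (hA : A < π) :
    ∃ ε : ℝ, 0 < ε ∧ A < (π - 2 * ε) / (1 + 2 * ε + 2 * ε ^ 2) ^ 2 := by
  have hc : ContinuousAt (fun ε : ℝ => (π - 2 * ε) / (1 + 2 * ε + 2 * ε ^ 2) ^ 2) 0 := by
    refine ContinuousAt.div (by fun_prop) (by fun_prop) ?_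
    norm_num
  have h0 : A < (fun ε : ℝ => (π - 2 * ε) / (1 + 2 * ε + 2 * ε ^ 2) ^ 2) 0 := by
    simp only []
    norm_num
    exact hA
  have h1 : ∀ᶠ ε in 𝓝 (0 : ℝ), A < (π - 2 * ε) / (1 + 2 * ε + 2 * ε ^ 2) ^ 2 :=
    hc.eventually (lt_mem_nhds h0)
  have h2 : ∀ᶠ ε in 𝓝[>] (0 : ℝ), A < (π - 2 * ε) / (1 + 2 * ε + 2 * ε ^ 2) ^ 2 :=
    h1.filter_mono nhdsWithin_le_nhds
  obtain ⟨ε, h3, h4⟩ := (h2.and self_mem_nhdsWithin).exists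
  exact ⟨ε, h4, h3⟩

lemma exists_d {A ε d₀ K : ℝ} (hε : 0 < ε) (hd₀ : 0 < d₀)
    (hA : A < (π - 2 * ε) / (1 + 2 * ε + 2 * ε ^ 2) ^ 2) :
    ∃ d : ℝ, 0 < d ∧ d < d₀ ∧ d < 1 ∧ K * d ^ 2 < ε ∧
      A < kap (1 - d) ε * (π - 2 * ε) := by
  have h1 : ∀ᶠ d in 𝓝[>] (0 : ℝ), d < d₀ :=
    (lt_mem_nhds_aux hd₀).filter_mono nhdsWithin_le_nhds
  have h2 : ∀ᶠ d in 𝓝[>] (0 : ℝ), d < 1 :=
    (lt_mem_nhds_aux one_pos).filter_mono nhdsWithin_le_nhds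
  have hc3 : ContinuousAt (fun d : ℝ => K * d ^ 2) 0 := by fun_prop
  have h3 : ∀ᶠ d in 𝓝[>] (0 : ℝ), K * d ^ 2 < ε := by
    have h : ∀ᶠ d in 𝓝 (0 : ℝ), K * d ^ 2 < ε :=
      hc3.eventually (gt_mem_nhds (by simpa using hε))
    exact h.filter_mono nhdsWithin_le_nhds
  have hc4 : ContinuousAt (fun d : ℝ => kap (1 - d) ε * (π - 2 * ε)) 0 := by
    unfold kap
    fun_prop
  have h4 : ∀ᶠ d in 𝓝[>] (0 : ℝ), A < kap (1 - d) ε * (π - 2 * ε) := by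
    have h : ∀ᶠ d in 𝓝 (0 : ℝ), A < kap (1 - d) ε * (π - 2 * ε) := by
      refine hc4.eventually (lt_mem_nhds ?_)
      show A < kap (1 - 0) ε * (π - 2 * ε)
      have e : kap (1 - 0) ε * (π - 2 * ε) = (π - 2 * ε) / (1 + 2 * ε + 2 * ε ^ 2) ^ 2 := by
        unfold kap
        ring
      rw [e]
      exact hA
    exact h.filter_mono nhdsWithin_le_nhds
  obtain ⟨d, hd⟩ := (h1.and (h2.and (h3.and (h4.and self_mem_nhdsWithin)))).exists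
  exact ⟨d, hd.2.2.2.2, hd.1, hd.2.1, hd.2.2.1, hd.2.2.2.1⟩
where
  lt_mem_nhds_aux {a : ℝ} (ha : 0 < a) : ∀ᶠ d in 𝓝 (0 : ℝ), d < a := gt_mem_nhds ha

end HPOL

open HPOL in
/-- The conformal area near the pole exceeds every number below `π`. -/
theorem t_H_pol (hfla : Stmt_H_fla) (hmin : Stmt_H_min) (hflu : Stmt_H_flu)
    (hgre : Stmt_H_gre) (hplb : Stmt_H_plb) : Stmt_H_pol := by
  intro y lam T b hcr hb A hA
  obtain ⟨ε, hε, hAε⟩ := exists_eps (A := max A 1) (max_lt hA (by linarith [Real.pi_gt_three]))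
  obtain ⟨δ, hδ, hfl⟩ := hfla y lam T b hcr hb ε hε
  obtain ⟨ρ, hρ, hmi⟩ := hmin y lam T b hcr hb δ hδ
  obtain ⟨d₀, hd₀, hfx⟩ := hflu y lam T b hcr hb ε hε
  obtain ⟨d, hd, hdd, hd1, hK, hkap⟩ := exists_d (K := 8 / ρ ^ 4 * ven y y) hε hd₀ hAε
  obtain ⟨r, hr, hr1, hint⟩ := hfx d hd hdd
  have hcd : 1 - (1 - d) = d := by ring
  have hgr := (hgre (hz (y 0)) (hz (y 1)) (hb 0).an (hb 1).an d r hd hr hr1).2
  refine ⟨1 - d, by linarith, by linarith, ?_⟩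
  have hmi' : ∀ z : ℂ, ‖z‖ < 1 → δ ≤ ‖z - 1‖ → ρ ≤ hx (y 0) z + hx (y 1) z := by
    intro z hz1 hz2
    have h := hmi z hz1.le hz2
    rw [(hb 0).eq z hz1, (hb 1).eq z hz1] at h
    exact h
  have hpl := hplb y hcr.el.oct.adm.fe hcr.el.oct.nonneg hcr.el.oct.le_one (1 - d) ε δ ρ r
    (by linarith) (by linarith) hε.le hρ hr hr1 hfl hmi'
  refine lt_of_lt_of_le ?_ hpl
  rw [hcd, ← hgr]
  have hk0 : 0 < kap (1 - d) ε := by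
    unfold kap
    have h2 : 0 < (1 + (1 - d)) := by linarith
    positivity
  have h3 : π - 2 * ε ≤ |∫ t, om d (hz (y 0)) (hz (y 1)) r t ∂cm|
      - 8 * d ^ 2 / ρ ^ 4 * ven y y := by
    have e : 8 * d ^ 2 / ρ ^ 4 * ven y y = 8 / ρ ^ 4 * ven y y * d ^ 2 := by ring
    rw [e]
    linarith
  have h4 : max A 1 < kap (1 - d) ε * (|∫ t, om d (hz (y 0)) (hz (y 1)) r t ∂cm|
      - 8 * d ^ 2 / ρ ^ 4 * ven y y) :=
    lt_of_lt_of_le hkap (mul_le_mul_of_nonneg_left h3 hk0.le)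
  have h5 : (0 : ℝ) < 1 := one_pos
  rw [ENNReal.ofReal_lt_ofReal_iff (lt_trans (lt_of_lt_of_le h5 (le_max_right A 1)) h4)]
  exact lt_of_le_of_lt (le_max_left A 1) h4

end Pool.Agent.FBM
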